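import Pool.Agent.Lib.Pa76659G.TrC

set_option autoImplicit false

/-!
`NP(O)` is closed under bounded conjunctions.
-/

namespace Pool.Agent.Lib.Pa76659T

open Pool.Agent.Lib.Pa76659 Pool.Agent.Lib.Pa76659G Pool.Agent.Lib.Pa76659G.PC

open Classical in
/-- all entries of a list are in `L` -/
noncomputable def allL (L : Lang) : Lang := fun c => decide (∀ i < llen c, L (nth c i) = true)

theorem allL_iff {L : Lang} {c : Str} : allL L c = true ↔ ∀ i < llen c, L (nth c i) = true := by
  classical
  unfold allL
  exact decide_eq_true_iff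

theorem all_total_le {l : List Str} {s : ℕ} (h : ∀ x ∈ l, x.length ≤ s) :
    total l ≤ l.length * s := by
  induction l with
  | nil => simp
  | cons x l ih =>
    have h1 := ih (fun y hy => h y (List.mem_cons_of_mem _ hy))
    have h2 := h x List.mem_cons_self
    rw [total_cons, List.length_cons, Nat.succ_mul]
    omega

theorem all_llen_le (c : Str) : llen c ≤ c.length := by
  unfold llen
  exact (List.length_filter_le _ _).trans (by rw [List.length_range])

theorem NPO_all {O L : Lang} (h : L ∈ NPO O) : allL L ∈ NPO O := by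
  obtain ⟨V, q, hV, hL⟩ := exists_of_NPO h
  have hx : PolyC (fun _ : Str × Str => O) (fun _ => True) [fun p => p.1, fun p => p.2]
    (fun p => p.1) := PolyC.var (by simp)
  have hy : PolyC (fun _ : Str × Str => O) (fun _ => True) [fun p => p.1, fun p => p.2]
    (fun p => p.2) := PolyC.var (by simp)
  have hV2 : PolyB (fun _ : Str × Str => O) (fun _ => True) [fun p => p.1, fun p => p.2]
      (fun p => decide (∀ i < llen p.1,
        (decide ((nth p.2 i).length = q.eval (nth p.1 i).length) &&
          V (nth p.1 i, nth p.2 i)) = true)) := by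
    refine PolyB.forall_lt (n := fun p : Str × Str => llen p.1)
      (φ := fun r : (Str × Str) × ℕ =>
        decide ((nth r.1.2 r.2).length = q.eval (nth r.1.1 r.2).length) &&
          V (nth r.1.1 r.2, nth r.1.2 r.2)) (PolyN.llen hx) ?_
    have hk : PolyN (fun _ : (Str × Str) × ℕ => O) (fun r => True ∧ r.2 < llen r.1.1)
        (PC.lift [fun p : Str × Str => p.1, fun p => p.2] ++ [fun r => una r.2])
        (fun r => r.2) := PolyC.var (by simp)
    have hx' : PolyC (fun _ : (Str × Str) × ℕ => O) (fun r => True ∧ r.2 < llen r.1.1)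
        (PC.lift [fun p : Str × Str => p.1, fun p => p.2] ++ [fun r => una r.2])
        (fun r => r.1.1) :=
      (PolyC.lift hx (fun p hp => hp.1)).weakenRight _
    have hy' : PolyC (fun _ : (Str × Str) × ℕ => O) (fun r => True ∧ r.2 < llen r.1.1)
        (PC.lift [fun p : Str × Str => p.1, fun p => p.2] ++ [fun r => una r.2])
        (fun r => r.1.2) :=
      (PolyC.lift hy (fun p hp => hp.1)).weakenRight _
    exact (PolyB.natEq (PolyN.length (PolyC.nth hy' hk))
      ((PolyN.length (PolyC.nth hx' hk)).poly q)).and
      (PolyB.arg2 hV (PolyC.nth hx' hk) (PolyC.nth hy' hk))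
  refine mem_NPO_le (2 * (Polynomial.X * q) + Polynomial.X) hV2 (fun c => ?_)
  rw [allL_iff]
  simp only [decide_eq_true_eq, Bool.and_eq_true]
  constructor
  · intro h1
    have h2 : ∀ i : ℕ, ∃ y : Str, y.length ≤ q.eval c.length ∧ (i < llen c →
        y.length = q.eval (nth c i).length ∧ V (nth c i, y) = true) := by
      intro i
      by_cases hi : i < llen c
      · obtain ⟨y, hy1, hy2⟩ := (hL _).1 (h1 i hi)
        exact ⟨y, by rw [hy1]; exact eval_mono q (nth_length_le c i), fun _ => ⟨hy1, hy2⟩⟩
      · exact ⟨[], by simp, fun h => absurd h hi⟩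
    choose w hw1 hw2 using h2
    refine ⟨lenc ((List.range (llen c)).map w), ?_, ?_⟩
    · have h3 := all_total_le (l := (List.range (llen c)).map w) (s := q.eval c.length) (by
        intro x hx
        obtain ⟨i, -, rfl⟩ := List.mem_map.1 hx
        exact hw1 i)
      rw [lenc_length]
      simp only [List.length_map, List.length_range] at h3 ⊢
      simp only [Polynomial.eval_add, Polynomial.eval_mul, Polynomial.eval_ofNat,
        Polynomial.eval_X]
      have h4 := all_llen_le c
      have h5 : llen c * q.eval c.length ≤ c.length * q.eval c.length :=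
        Nat.mul_le_mul_right _ h4
      omega
    · intro i hi
      have e : nth (lenc ((List.range (llen c)).map w)) i = w i := by
        rw [nth_lenc, List.getD_eq_getElem _ _ (by simpa using hi)]
        simp
      rw [e]
      exact hw2 i hi
  · rintro ⟨y, -, h1⟩ i hi
    exact (hL _).2 ⟨_, (h1 i hi).1, (h1 i hi).2⟩

theorem allL_lenc {L : Lang} (l : List Str) : allL L (lenc l) = true ↔ ∀ s ∈ l, L s = true := by
  rw [allL_iff, llen_lenc]
  constructor
  · intro h s hs
    obtain ⟨i, hi, rfl⟩ := List.mem_iff_getElem.1 hs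
    have h1 := h i hi
    rwa [nth_lenc, List.getD_eq_getElem _ _ hi] at h1
  · intro h i hi
    rw [nth_lenc, List.getD_eq_getElem _ _ hi]
    exact h _ (List.getElem_mem _)

/-- advice lists: if the language `B` is a conjunction over an advice list then it is in `NP/poly` -/
theorem poly_all {O L B : Lang} (h : L ∈ NPO O) (ws : ℕ → List Str) (P : Polynomial ℕ)
    (h1 : ∀ n, (ws n).length ≤ P.eval n) (h2 : ∀ n, ∀ w ∈ ws n, w.length ≤ P.eval n)
    (hB : ∀ x, B x = true ↔ ∀ w ∈ ws x.length, L (pr x w) = true) : B ∈ NPPoly O := by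
  have hx : PolyC (fun _ : Str => O) (fun _ => True) [fun x => x] (fun x => x) :=
    PolyC.var (by simp)
  have hf : PolyC (fun _ : Str => O) (fun _ => True) [fun x => x]
      (fun z => lenc ((List.range (llen (snd z))).map
        (fun i => pr (fst z) (nth (snd z) i)))) := by
    refine PolyC.lenc_range (n := fun z : Str => llen (snd z))
      (f := fun r : Str × ℕ => pr (fst r.1) (nth (snd r.1) r.2))
      (PolyN.llen (PolyC.snd hx)) ?_
    have hk : PolyN (fun _ : Str × ℕ => O) (fun r => True ∧ r.2 < llen (snd r.1))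
        (PC.lift [fun x : Str => x] ++ [fun r => una r.2])
        (fun r => r.2) := PolyC.var (by simp)
    have hx' : PolyC (fun _ : Str × ℕ => O) (fun r => True ∧ r.2 < llen (snd r.1))
        (PC.lift [fun x : Str => x] ++ [fun r => una r.2])
        (fun r => r.1) :=
      (PolyC.lift hx (fun p hp => hp.1)).weakenRight _
    exact PolyC.pr (PolyC.fst hx') (PolyC.nth (PolyC.snd hx') hk)
  refine ⟨_, NPO_comp (NPO_all h) hf, fun n => lenc (ws n), 2 * (P * P) + P, fun n => ?_,
    fun x => ?_⟩
  · rw [lenc_length]
    have h3 := all_total_le (h2 n)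
    have h4 : (ws n).length * P.eval n ≤ P.eval n * P.eval n := Nat.mul_le_mul_right _ (h1 n)
    have h5 := h1 n
    simp only [Polynomial.eval_add, Polynomial.eval_mul, Polynomial.eval_ofNat]
    omega
  · rw [Bool.eq_iff_iff, hB]
    show _ ↔ allL L (lenc _) = true
    rw [allL_lenc]
    simp only [fst_pr, snd_pr, llen_lenc, nth_lenc, List.mem_map, List.mem_range]
    constructor
    · rintro h3 s ⟨i, hi, rfl⟩
      rw [List.getD_eq_getElem _ _ hi]
      exact h3 _ (List.getElem_mem _)
    · intro h3 w hw
      obtain ⟨i, hi, rfl⟩ := List.mem_iff_getElem.1 hw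
      exact h3 _ ⟨i, hi, by rw [List.getD_eq_getElem _ _ hi]⟩

end Pool.Agent.Lib.Pa76659T
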