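import Pool.Agent.Lib.Pa76659T.Iso
import Pool.Agent.Lib.Pa76659T.All

set_option autoImplicit false

/-!
From machines that are right on instances with at most one solution to `NP/poly`.
-/

namespace Pool.Agent.Lib.Pa76659T

open Pool.Agent.Lib.Pa76659 Pool.Agent.Lib.Pa76659G Pool.Agent.Lib.Pa76659G.PC

theorem np_adv {Z N B : Lang} {V : Str × Str → Bool}
    (hlen : ∀ x u, V (x, u) = true → u.length ≤ x.length)
    (hB : ∀ x, B x = true ↔ ∃ u, V (x, u) = true) (hN : N ∈ NPO Z)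
    (h : ∀ x w, (∀ u v, V (x, u) = true → flt w u = true → V (x, v) = true → flt w v = true →
      u = v) → (N (pr x w) = true ↔ ¬ ∃ u, V (x, u) = true ∧ flt w u = true)) :
    (fun x => !(B x)) ∈ NPPoly Z := by
  obtain ⟨P, hP⟩ := isolate
  have h1 := fun n => hP n (fun x u => V (x, u) = true) hlen
  choose ws hw1 hw2 hw3 using h1
  refine poly_all hN ws P hw1 hw2 (fun x => ?_)
  rw [Bool.not_eq_true', ← Bool.not_eq_true, hB]
  constructor
  · intro hx w _
    have hno : ∀ u, V (x, u) ≠ true := fun u hu => hx ⟨u, hu⟩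
    refine (h x w (fun u v hu => absurd hu (hno u))).2 ?_
    rintro ⟨u, hu, -⟩
    exact hno u hu
  · intro hall hx
    obtain ⟨w, hw, u, ⟨hu1, hu2⟩, huniq⟩ := hw3 x.length x le_rfl hx
    refine (h x w (fun a b ha1 ha2 hb1 hb2 => ?_)).1 (hall w hw) ⟨u, hu1, hu2⟩
    rw [huniq a ⟨ha1, ha2⟩, huniq b ⟨hb1, hb2⟩]

end Pool.Agent.Lib.Pa76659T
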