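import Pool.Agent.Lib.Pa76659T.Defs
import Pool.Agent.Lib.Pa76659G.TrX

set_option autoImplicit false

/-!
Basic facts on blocks, the sanitised tally part of an oracle, and forcing.
-/

namespace Pool.Agent.Lib.Pa76659T

open Pool.Agent.Lib.Pa76659 Pool.Agent.Lib.Pa76659G Pool.Agent.Lib.Pa76659G.PC

/-! ### cells -/

theorem on1_length (n : ℕ) : (on1 n).length = n := by simp [on1]

theorem le_pn (n i : ℕ) : n ≤ Circ.pn n i := by
  unfold Circ.pn
  have h1 : n + i ≤ (n + i) * (n + i) := Nat.le_mul_self _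
  omega

theorem pn_lt (n i : ℕ) (hi : i < n) : Circ.pn n i ≤ Circ.pn n n := by
  unfold Circ.pn
  have h1 : (n + i) * (n + i) ≤ (n + n) * (n + n) := Nat.mul_le_mul (by omega) (by omega)
  omega

theorem pn_inj2 {n i m j : ℕ} (h : Circ.pn n i = Circ.pn m j) : n = m ∧ i = j := by
  have h1 := Circ.pn_inj (n := n) (i := i) (s := m + j) (j := j) (by omega) (by
    unfold Circ.pn at h ⊢
    exact h.symm)
  omega

theorem blk_length (T : Lang) (n : ℕ) : (blk T n).length = n := by simp [blk]

theorem blk_congr {T T' : Lang} {n : ℕ}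
    (h : ∀ i < n, T (on1 (Circ.pn n i)) = T' (on1 (Circ.pn n i))) : blk T n = blk T' n := by
  unfold blk
  exact List.map_congr_left fun i hi => h i (List.mem_range.1 hi)

theorem cont_congr {T T' : Lang} {n : ℕ}
    (h : ∀ i < n, T (on1 (Circ.pn n i)) = T' (on1 (Circ.pn n i))) : cont T n = cont T' n := by
  unfold cont
  rw [blk_congr h]

theorem cont_loc {T T' : Lang} {n : ℕ} (h : ∀ v : Str, v.length ≤ Circ.pn n n → T v = T' v) :
    cont T n = cont T' n :=
  cont_congr fun i hi => h _ (by rw [on1_length]; exact pn_lt n i hi)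

/-! ### the sanitised oracle -/

theorem Phi_iff {X G : Lang} {v : Str} : Phi X G v = true ↔ v = on1 v.length ∧ ∃ n i : ℕ, i < n ∧
    v.length = Circ.pn n i ∧ Val X (cont G n) ∧ G v = true := by
  classical
  unfold Phi
  exact decide_eq_true_iff

theorem Phi_tally (X G : Lang) : Tally (Phi X G) := fun _ hv => (Phi_iff.1 hv).1

theorem Phi_cell {X G : Lang} {n i : ℕ} (hi : i < n) : Phi X G (on1 (Circ.pn n i)) = true ↔
    Val X (cont G n) ∧ G (on1 (Circ.pn n i)) = true := by
  rw [Phi_iff]
  constructor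
  · rintro ⟨-, m, j, hj, h2, h3, h4⟩
    rw [on1_length] at h2
    obtain ⟨rfl, rfl⟩ := pn_inj2 h2
    exact ⟨h3, h4⟩
  · rintro ⟨h1, h2⟩
    exact ⟨by rw [on1_length], n, i, hi, by rw [on1_length], h1, h2⟩

theorem Val_of_kd {X : Lang} {z : Str} (h : kd z < 2) : Val X z :=
  ⟨fun h1 => by omega, fun h1 => by omega, fun h1 => by omega⟩

theorem kd_nil : kd [] = 0 := rfl

theorem fst_replicate (n : ℕ) : fst (List.replicate n false) = [] := by
  cases n <;> rfl

theorem cont_Phi_of {X G : Lang} {n : ℕ} (h : Val X (cont G n)) :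
    cont (Phi X G) n = cont G n := by
  refine cont_congr fun i hi => ?_
  rw [Bool.eq_iff_iff, Phi_cell hi]
  exact ⟨fun h1 => h1.2, fun h1 => ⟨h, h1⟩⟩

theorem cont_Phi_not {X G : Lang} {n : ℕ} (h : ¬ Val X (cont G n)) :
    cont (Phi X G) n = [] := by
  have h1 : blk (Phi X G) n = List.replicate n false := by
    refine List.eq_replicate_iff.2 ⟨blk_length _ _, fun b hb => ?_⟩
    unfold blk at hb
    obtain ⟨i, hi, rfl⟩ := List.mem_map.1 hb
    rw [← Bool.not_eq_true, Phi_cell (List.mem_range.1 hi)]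
    exact fun h2 => h h2.1
  unfold cont
  rw [h1, fst_replicate]

theorem Val_Phi (X G : Lang) (n : ℕ) : Val X (cont (Phi X G) n) := by
  by_cases h : Val X (cont G n)
  · rw [cont_Phi_of h]
    exact h
  · rw [cont_Phi_not h]
    exact Val_of_kd (by rw [kd_nil]; omega)

theorem pn_mono {n m : ℕ} (h : n ≤ m) : Circ.pn n n ≤ Circ.pn m m := by
  unfold Circ.pn
  have h1 : (n + n) * (n + n) ≤ (m + m) * (m + m) := Nat.mul_le_mul (by omega) (by omega)
  omega

theorem Phi_congr {X G G' : Lang} {n : ℕ} (h : ∀ v : Str, v.length ≤ Circ.pn n n → G v = G' v)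
    {v : Str} (hv : v.length ≤ n) : Phi X G v = Phi X G' v := by
  have key : ∀ G G' : Lang, (∀ v : Str, v.length ≤ Circ.pn n n → G v = G' v) →
      Phi X G v = true → Phi X G' v = true := by
    intro G G' h h1
    rw [Phi_iff] at h1 ⊢
    obtain ⟨h2, m, i, hi, h3, h4, h5⟩ := h1
    have hm : m ≤ n := (le_pn m i).trans (by omega)
    refine ⟨h2, m, i, hi, h3, ?_, ?_⟩
    · rwa [← cont_loc fun v hv => h v (hv.trans (pn_mono hm))]
    · rw [← h v (hv.trans ((le_pn n n)))]
      exact h5
  rw [Bool.eq_iff_iff]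
  exact ⟨key G G' h, key G' G fun v hv => (h v hv).symm⟩

theorem Phi_loc (X : Lang) : Loc (Phi X) := fun n =>
  ⟨Circ.pn n n, fun _ _ h _ hx => Phi_congr h hx⟩

/-- locality of functions of the contents -/
theorem loc_of_cont (h : Str → Str → Bool) (g : Str → ℕ) (hg : ∀ c, g c ≤ c.length) :
    Loc (fun T c => h c (cont T (g c))) := by
  intro n
  refine ⟨Circ.pn n n, fun O O' hO x hx => ?_⟩
  show h x (cont O (g x)) = h x (cont O' (g x))
  rw [cont_loc fun v hv => hO v (hv.trans (pn_mono ((hg x).trans hx)))]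

theorem loc_join (X : Lang) : Loc (fun T => join X T) :=
  Tr.Loc_join (Tr.loc_const X) Tr.loc_id

/-! ### patched oracles -/

theorem put_tally {S : Lang} (hS : Tally S) (n : ℕ) (z : Str) : Tally (put S n z) := by
  intro v hv
  unfold put at hv
  rw [Bool.or_eq_true, decide_eq_true_eq] at hv
  rcases hv with hv | hv
  · exact hS v hv
  · exact hv.1

theorem put_cell {S : Lang} {n i : ℕ} {z : Str} (hi : i < n) :
    put S n z (on1 (Circ.pn n i)) = (S (on1 (Circ.pn n i)) || (pr z []).getD i false) := by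
  unfold put
  congr 1
  rw [Bool.eq_iff_iff, decide_eq_true_eq]
  constructor
  · rintro ⟨-, j, hj, h2, h3⟩
    rw [on1_length] at h2
    rw [(pn_inj2 h2).2]
    exact h3
  · intro h
    exact ⟨by rw [on1_length], i, hi, by rw [on1_length], h⟩

theorem put_other {S : Lang} {n : ℕ} {z v : Str} (h : ∀ i < n, v.length ≠ Circ.pn n i) :
    put S n z v = S v := by
  unfold put
  rw [decide_eq_false, Bool.or_false]
  rintro ⟨-, i, hi, h2, -⟩
  exact h i hi h2

/-- below length `n` nothing changes -/
theorem put_below {S : Lang} {n : ℕ} {z v : Str} (h : v.length < n) : put S n z v = S v := by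
  refine put_other fun i _ h2 => ?_
  have := le_pn n i
  omega

theorem pr_nil_append (z r : Str) : pr z [] ++ r = pr z r := by
  unfold pr
  simp

theorem cont_put {S : Lang} {N n : ℕ} {z : Str} (hS : ∀ v : Str, N ≤ v.length → S v = false)
    (hn : N ≤ n) (hz : 2 * z.length + 1 ≤ n) : cont (put S n z) n = z := by
  have h1 : blk (put S n z) n = pr z (List.replicate (n - (2 * z.length + 1)) false) := by
    rw [← pr_nil_append]
    refine List.ext_getElem ?_ fun i hi hi2 => ?_
    · rw [blk_length, List.length_append, PC.pr_length, List.length_replicate, List.length_nil]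
      omega
    · rw [blk_length] at hi
      have h2 : (blk (put S n z) n)[i]'(by rw [blk_length]; exact hi) =
          put S n z (on1 (Circ.pn n i)) := by simp [blk]
      rw [h2, put_cell hi, hS _ (by rw [on1_length]; exact hn.trans (le_pn n i)), Bool.false_or]
      by_cases h3 : i < (pr z []).length
      · rw [List.getElem_append_left h3, List.getD_eq_getElem _ _ h3]
      · rw [List.getElem_append_right (by omega), List.getElem_replicate,
          List.getD_eq_default _ _ (by omega)]
  unfold cont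
  rw [h1, PC.fst_pr]

theorem cont_put_ne {S : Lang} {n m : ℕ} {z : Str} (h : m ≠ n) :
    cont (put S n z) m = cont S m := by
  refine cont_congr fun i hi => put_other fun j hj h2 => ?_
  rw [on1_length] at h2
  exact h (pn_inj2 h2).1

/-- the sanitised form of a patched oracle -/
theorem Phi_put {X G : Lang} {N n : ℕ} {z : Str} (hG : ∀ v : Str, N ≤ v.length → G v = false)
    (hn : N ≤ n) (hz : 2 * z.length + 1 ≤ n) (hv : Val X z) :
    Phi X (put G n z) = put (Phi X G) n z := by
  funext v
  by_cases h1 : v = on1 v.length ∧ ∃ m i, i < m ∧ v.length = Circ.pn m i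
  · obtain ⟨h1, m, i, hi, h2⟩ := h1
    rw [h2] at h1
    rw [h1]
    by_cases hm : m = n
    · subst hm
      rw [put_cell hi, Bool.eq_iff_iff, Phi_cell hi, cont_put hG hn hz, put_cell hi,
        Bool.or_eq_true, Bool.or_eq_true, Phi_cell hi]
      have h3 : G (on1 (Circ.pn m i)) = false := hG _ (by
        rw [on1_length]; exact hn.trans (le_pn m i))
      rw [h3]
      simp [hv]
    · have h3 : ∀ j < n, (on1 (Circ.pn m i)).length ≠ Circ.pn n j := by
        intro j _ h4
        rw [on1_length] at h4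
        exact hm (pn_inj2 h4).1
      rw [put_other h3, Bool.eq_iff_iff, Phi_cell hi, Phi_cell hi, cont_put_ne hm, put_other h3]
  · have h2 : Phi X (put G n z) v = false := by
      rw [← Bool.not_eq_true, Phi_iff]
      rintro ⟨h2, m, i, hi, h3, -⟩
      exact h1 ⟨h2, m, i, hi, h3⟩
    have h3 : Phi X G v = false := by
      rw [← Bool.not_eq_true, Phi_iff]
      rintro ⟨h2, m, i, hi, h3, -⟩
      exact h1 ⟨h2, m, i, hi, h3⟩
    rw [h2]
    unfold put
    rw [h3, Bool.false_or, eq_comm, decide_eq_false]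
    rintro ⟨h2, i, hi, h4, -⟩
    exact h1 ⟨h2, n, i, hi, h4⟩

/-- forcing: for generic `G`, if two local functions of `T = Phi X G` agree then they agree for all
oracles `put S n z` with valid `z`, where `S` is a finite tally oracle -/
theorem forced (X : Lang) {F F' : Lang → Lang} (hF : Loc F) (hF' : Loc F') :
    ∀ᶠ G in residual Lang, F (Phi X G) = F' (Phi X G) →
      ∃ (N : ℕ) (S : Lang), Tally S ∧ (∀ v : Str, N ≤ v.length → S v = false) ∧
        ∀ (n : ℕ) (z : Str), N ≤ n → 2 * z.length + 1 ≤ n → Val X z →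
          F (put S n z) = F' (put S n z) := by
  have h1 : Loc (fun G => F (Phi X G)) := hF.comp (Phi_loc X)
  have h2 : Loc (fun G => F' (Phi X G)) := hF'.comp (Phi_loc X)
  refine (forced_of (fun G => F (Phi X G) = F' (Phi X G)) ?_).mono ?_
  · intro G hG
    have hx : ∃ x, F (Phi X G) x ≠ F' (Phi X G) x := by
      by_contra hcon
      push Not at hcon
      exact hG (funext hcon)
    obtain ⟨x, hx⟩ := hx
    obtain ⟨m1, hm1⟩ := h1 x.length
    obtain ⟨m2, hm2⟩ := h2 x.length
    refine ⟨m1 + m2 + 1, fun G' hG' h => hx ?_⟩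
    have e1 := hm1 G' G (fun v hv => hG' v (by omega)) x le_rfl
    have e2 := hm2 G' G (fun v hv => hG' v (by omega)) x le_rfl
    simp only at e1 e2
    rw [← e1, ← e2, h]
  · intro G hG hP
    obtain ⟨N, hN⟩ := hG hP
    have hz : ∀ v : Str, N ≤ v.length → Tr.cut G N v = false := Tr.cut_zero G N
    refine ⟨N, Phi X (Tr.cut G N), Phi_tally _ _, ?_, ?_⟩
    · intro v hv
      rw [← Bool.not_eq_true, Phi_iff]
      rintro ⟨-, m, i, hi, h3, -, h4⟩
      rw [hz v hv] at h4
      exact absurd h4 (by simp)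
    · intro n z hn hz2 hv
      rw [← Phi_put hz hn hz2 hv]
      refine hN _ ?_
      intro v hv2
      rw [put_below (by omega)]
      exact Tr.cut_nb G N v hv2

end Pool.Agent.Lib.Pa76659T
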