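import Pool.Agent.Lib.Pa76659G.TrC
import Pool.Agent.Lib.Pa76659G.Cert

set_option autoImplicit false

/-!
Normal form of the second level: existential quantifier, then a coNP predicate.

PROOF. `L ∈ Sig X 2` is in `NPO B` with `B ∈ NPO X` (`Uo.sig_one`, `NPO_subset`): there are `M, p1, q1`
with `L x = true` iff some `y`, `|y| = q1 |x|`, `accepts B M (inp2 x y) (p1 |x|) = true`, and
(`exists_of_NPO`) `B v = true` iff some `w`, `|w| = q2 |v|`, `V2 (v, w) = true`, `V2` in `P(X)`.
The string `u` codes `y`, the answers `ans` to the queries of the run (bit `k` is used at step `k`, see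
`ansO`, `runT`, `cf`, `qry`, `trueAns` in `Cert.lean`) and a list of witnesses `W` (`lenc`, `nth`): `A (pr x u)` is
false iff the run with the answers `ans` accepts (top (cf M x y ans (p1 |x|))), every answer `true` at a
query `v` at step `k` has `V2 (v, nth W k) = true`, `|nth W k| = q2 |v|`, and no answer `false` at a query
`v` at step `k` has a witness `w`. The last item is the only one with a quantifier, so `A ∈ NPO X`
(`Hc.NPO_or`, `mem_NPO_le`). Pad `u` to a fixed length: `u = pr u' 1^j` (use `fst u`).
`PolyC.cf`, `PolyC.qry`, `PolyC.qry'` give computability. (Compare the proof of `yap` and `T1_eq`,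
`good0`, `good1` in Yap.lean.)
-/

namespace Pool.Agent.Lib.Pa76659T

open Pool.Agent.Lib.Pa76659 Pool.Agent.Lib.Pa76659G Pool.Agent.Lib.Pa76659G.PC

namespace NfAux

/-- `w` is a witness of `z`. -/
def Pw (V : Str × Str → Bool) (q : Polynomial ℕ) (_u z w : Str) : Bool :=
  decide (w.length = q.eval z.length) && V (z, w)

/-- `u` is not a witness of `z`. -/
def Qw (V : Str × Str → Bool) (q : Polynomial ℕ) (u z _w : Str) : Bool :=
  !(decide (u.length = q.eval z.length) && V (z, u))

theorem PB3_Pw {X : Lang} {V : Str × Str → Bool} {q : Polynomial ℕ}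
    (hV : PolyB (fun _ : Str × Str => X) (fun _ => True) [fun p => p.1, fun p => p.2] V) :
    PB3 X (Pw V q) := by
  have hz : PolyC (fun _ : Str × Str × Str => X) (fun _ => True)
    [fun p => p.1, fun p => p.2.1, fun p => p.2.2] (fun p => p.2.1) := PolyC.var (by simp)
  have hw : PolyC (fun _ : Str × Str × Str => X) (fun _ => True)
    [fun p => p.1, fun p => p.2.1, fun p => p.2.2] (fun p => p.2.2) := PolyC.var (by simp)
  exact (PolyB.natEq (PolyN.length hw) ((PolyN.length hz).poly q)).and (PolyB.arg2 hV hz hw)

theorem PB3_Qw {X : Lang} {V : Str × Str → Bool} {q : Polynomial ℕ}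
    (hV : PolyB (fun _ : Str × Str => X) (fun _ => True) [fun p => p.1, fun p => p.2] V) :
    PB3 X (Qw V q) := by
  have hz : PolyC (fun _ : Str × Str × Str => X) (fun _ => True)
    [fun p => p.1, fun p => p.2.1, fun p => p.2.2] (fun p => p.2.1) := PolyC.var (by simp)
  have hu : PolyC (fun _ : Str × Str × Str => X) (fun _ => True)
    [fun p => p.1, fun p => p.2.1, fun p => p.2.2] (fun p => p.1) := PolyC.var (by simp)
  exact ((PolyB.natEq (PolyN.length hu) ((PolyN.length hz).poly q)).and
    (PolyB.arg2 hV hz hu)).not

theorem sound {B : Lang} {V : Str × Str → Bool} {q2 : Polynomial ℕ}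
    (hB : ∀ z, B z = true ↔ ∃ w : Str, w.length = q2.eval z.length ∧ V (z, w) = true)
    {M : Prog} {tb : Polynomial ℕ} {x y w : Str} {N : ℕ}
    (hN : q2.eval (x.length + y.length + tb.eval x.length) ≤ N)
    (hc : ∀ u : Str, u.length ≤ N → crt (Pw V q2) (Qw V q2) M tb true u x y w = true) :
    accepts B M (inp2 x y) (tb.eval x.length) = true := by
  have h0 := hc [] (by simp)
  have hk : ∀ k < tb.eval x.length, ∀ v, qry (cf M x y (fst w) k) = some v →
      (fst w).getD k false = B v := by
    intro k hk v hv
    have hvl : v.length ≤ x.length + y.length + tb.eval x.length := by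
      have := qry_bdd (cf_bdd M x y (fst w) k) hv
      omega
    have hall : ∀ u : Str, u.length ≤ N →
        (if (fst w).getD k false = true then Pw V q2 u v (nth (snd w) k)
          else Qw V q2 u v (nth (snd w) k)) = true := by
      intro u hu
      have h1 := hc u hu
      unfold crt at h1
      simp only [Bool.and_eq_true, decide_eq_true_eq, beq_iff_eq] at h1
      have h4 := h1.1 k hk
      rw [hv] at h4
      unfold chk1 at h4
      have h5 : (oc (some v)).isEmpty = false := rfl
      have h6 : (oc (some v)).tail = v := rfl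
      rw [if_neg (by rw [h5]; simp), h6] at h4
      exact h4
    cases h7 : (fst w).getD k false
    · symm
      rw [Bool.eq_false_iff]
      intro hBv
      obtain ⟨u, hu1, hu2⟩ := (hB v).1 hBv
      have h8 := hall u (by rw [hu1]; exact (eval_mono q2 hvl).trans hN)
      rw [h7, if_neg (by simp)] at h8
      simp [Qw, hu1, hu2] at h8
    · have h8 := hall [] (by simp)
      rw [h7, if_pos rfl] at h8
      simp only [Pw, Bool.and_eq_true, decide_eq_true_eq] at h8
      exact ((hB v).2 ⟨_, h8⟩).symm
  have h3 : cf M x y (fst w) (tb.eval x.length) = runN B (tb.eval x.length) ([M], inp2 x y) :=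
    runT_eq (O := B) (fun k hk' v hv => hk k hk' v hv)
  unfold crt at h0
  simp only [Bool.and_eq_true, decide_eq_true_eq, beq_iff_eq] at h0
  rw [← h0.2, h3]
  rfl

theorem complete {B : Lang} {V : Str × Str → Bool} {q2 : Polynomial ℕ}
    (hB : ∀ z, B z = true ↔ ∃ w : Str, w.length = q2.eval z.length ∧ V (z, w) = true)
    {M : Prog} {tb : Polynomial ℕ} {x y : Str}
    (ha : accepts B M (inp2 x y) (tb.eval x.length) = true) :
    ∃ w : Str, w.length ≤ 2 * tb.eval x.length + 1 + tb.eval x.length *
        (2 * q2.eval (x.length + y.length + tb.eval x.length) + 1) ∧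
      ∀ u : Str, crt (Pw V q2) (Qw V q2) M tb true u x y w = true := by
  set n := tb.eval x.length with hn
  set c : Cfg := ([M], inp2 x y) with hc
  set N := q2.eval (x.length + y.length + n) with hN
  have hex : ∀ k : ℕ, ∃ w : Str, w.length ≤ N ∧ (k < n → ∀ v, qry (runN B k c) = some v →
      B v = true → w.length = q2.eval v.length ∧ V (v, w) = true) := by
    intro k
    rcases hq : qry (runN B k c) with _ | v
    · exact ⟨[], by simp, fun _ v hv => by simp at hv⟩
    · by_cases hk : k < n
      · have hb : v.length ≤ x.length + y.length + n := by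
          have h1 : Bdd (x.length + y.length + k) (runN B k c).2 :=
            Pa76659.runN_bdd B k _ c (Pa76659.inp2_bdd x y)
          have := qry_bdd h1 hq
          omega
        by_cases hO : B v = true
        · obtain ⟨w, hw1, hw2⟩ := (hB v).1 hO
          refine ⟨w, by rw [hw1]; exact eval_mono q2 hb, fun _ v' hv' _ => ?_⟩
          obtain rfl : v = v' := by simpa using hv'
          exact ⟨hw1, hw2⟩
        · refine ⟨[], by simp, fun _ v' hv' hO' => ?_⟩
          obtain rfl : v = v' := by simpa using hv'
          exact absurd hO' hO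
      · exact ⟨[], by simp, fun hk' => absurd hk' hk⟩
  choose W hW1 hW2 using hex
  refine ⟨pr (trueAns B c n) (lenc ((List.range n).map W)), ?_, ?_⟩
  · rw [pr_length, lenc_length]
    have h1 : (trueAns B c n).length = n := by simp [trueAns]
    have h2 : total ((List.range n).map W) ≤ n * N :=
      total_map_range' W _ n (fun k _ => hW1 k)
    rw [h1]
    simp only [List.length_map, List.length_range]
    have h5 : n * (2 * N + 1) = 2 * (n * N) + n := by ring
    omega
  · intro u
    unfold crt
    rw [fst_pr, snd_pr]
    have h1 : ∀ k ≤ n, cf M x y (trueAns B c n) k = runN B k c := trueAns_spec B c n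
    simp only [Bool.and_eq_true, decide_eq_true_eq, beq_iff_eq]
    constructor
    · intro k hk
      rw [← hn] at hk
      rw [h1 k hk.le, nth_lenc, List.getD_eq_getElem ((List.range n).map W) _ (by simpa using hk)]
      simp only [List.getElem_map, List.getElem_range]
      unfold chk1
      rcases hq : qry (runN B k c) with _ | v
      · rfl
      · have h5 : (oc (some v)).isEmpty = false := rfl
        have h6 : (oc (some v)).tail = v := rfl
        rw [if_neg (by rw [h5]; simp), h6, trueAns_get B c hk hq]
        by_cases hO : B v = true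
        · rw [if_pos hO]
          obtain ⟨h7, h8⟩ := hW2 k hk v hq hO
          simp only [Pw, h7, h8, decide_true, Bool.and_true]
        · rw [if_neg hO]
          unfold Qw
          rw [Bool.not_eq_true']
          rw [Bool.eq_false_iff]
          intro h9
          simp only [Bool.and_eq_true, decide_eq_true_eq] at h9
          exact hO ((hB v).2 ⟨u, h9⟩)
    · rw [← hn, h1 n le_rfl]
      exact ha

open Classical in
/-- The coNP part. -/
noncomputable def AA (V2 : Str × Str → Bool) (M : Prog) (p1 q1 q2 s : Polynomial ℕ) : Lang :=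
  fun z => decide (∃ u : Str, u.length ≤ s.eval z.length ∧
    (!(decide ((fst (fst (snd z))).length = q1.eval (fst z).length) &&
      crt (Pw V2 q2) (Qw V2 q2) M p1 true u (fst z) (fst (fst (snd z))) (snd (fst (snd z))))) = true)

theorem AA_mem {X : Lang} {V2 : Str × Str → Bool}
    (hV : PolyB (fun _ : Str × Str => X) (fun _ => True) [fun p => p.1, fun p => p.2] V2)
    (M : Prog) (p1 q1 q2 s : Polynomial ℕ) : AA V2 M p1 q1 q2 s ∈ NPO X := by
  have hz : PolyC (fun _ : Str × Str => X) (fun _ => True) [fun p => p.1, fun p => p.2]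
    (fun p => p.1) := PolyC.var (by simp)
  have hu : PolyC (fun _ : Str × Str => X) (fun _ => True) [fun p => p.1, fun p => p.2]
    (fun p => p.2) := PolyC.var (by simp)
  have hy := PolyC.fst (PolyC.fst (PolyC.snd hz))
  have h1 := PolyB.natEq (PolyN.length hy) ((PolyN.length (PolyC.fst hz)).poly q1)
  have h2 := PolyB.crt (PB3_Pw (q := q2) hV) (PB3_Qw (q := q2) hV) M p1 true hu (PolyC.fst hz) hy
    (PolyC.snd (PolyC.fst (PolyC.snd hz)))
  refine mem_NPO_le s (h1.and h2).not (fun z => ?_)
  unfold AA
  simp only [decide_eq_true_eq]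

end NfAux

open NfAux in
theorem two_nf {X L : Lang} (h : L ∈ Sig X 2) : ∃ A ∈ NPO X, ∃ q : Polynomial ℕ, ∀ x : Str,
    L x = true ↔ ∃ u : Str, u.length = q.eval x.length ∧ A (pr x u) = false := by
  obtain ⟨B, ⟨C, hC, hB⟩, hL⟩ := h
  have hB' : B ∈ NPO X := NPO_subset hC hB
  obtain ⟨V2, q2, hV2, hB2⟩ := exists_of_NPO hB'
  obtain ⟨M, p1, q1, hM⟩ := hL
  refine ⟨AA V2 M p1 q1 q2 (q2.comp (Polynomial.X + q1 + p1)), AA_mem hV2 _ _ _ _ _,
    2 * (2 * q1 + 1 + (2 * p1 + 1 + p1 * (2 * q2.comp (Polynomial.X + q1 + p1) + 1))) + 1, ?_⟩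
  intro x
  rw [(hM x).2]
  constructor
  · rintro ⟨y, hy, ha⟩
    obtain ⟨w, hw1, hw2⟩ := complete hB2 ha
    rw [hy] at hw1
    refine ⟨pr (pr y w) (List.replicate
      (2 * (2 * q1.eval x.length + 1 + (2 * p1.eval x.length + 1 + p1.eval x.length *
        (2 * q2.eval (x.length + q1.eval x.length + p1.eval x.length) + 1))) + 1 -
        (2 * (pr y w).length + 1)) false), ?_, ?_⟩
    · rw [pr_length, List.length_replicate]
      have h1 : (pr y w).length = 2 * q1.eval x.length + 1 + w.length := by
        rw [pr_length, hy]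
      simp only [Polynomial.eval_add, Polynomial.eval_mul, Polynomial.eval_ofNat,
        Polynomial.eval_one, Polynomial.eval_comp, Polynomial.eval_X]
      omega
    · unfold AA
      rw [decide_eq_false_iff_not]
      rintro ⟨u, -, hu⟩
      simp only [fst_pr, snd_pr, hy, hw2 u, decide_true, Bool.and_self, Bool.not_true] at hu
      exact absurd hu (by simp)
  · rintro ⟨U, -, hA⟩
    unfold AA at hA
    rw [decide_eq_false_iff_not] at hA
    push Not at hA
    simp only [fst_pr, snd_pr] at hA
    have hall : ∀ u : Str, u.length ≤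
        (q2.comp (Polynomial.X + q1 + p1)).eval (pr x U).length →
        (fst (fst U)).length = q1.eval x.length ∧
        crt (Pw V2 q2) (Qw V2 q2) M p1 true u x (fst (fst U)) (snd (fst U)) = true := by
      intro u hu
      have h1 := hA u hu
      simpa using h1
    have hy := (hall [] (by simp)).1
    refine ⟨fst (fst U), hy, sound hB2 (N := (q2.comp (Polynomial.X + q1 + p1)).eval (pr x U).length)
      ?_ (fun u hu => (hall u hu).2)⟩
    rw [hy]
    have h2 : x.length ≤ (pr x U).length := by rw [pr_length]; omega
    have h3 := eval_mono (q2.comp (Polynomial.X + q1 + p1)) h2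
    refine le_trans (le_of_eq ?_) h3
    simp only [Polynomial.eval_comp, Polynomial.eval_add, Polynomial.eval_X]

end Pool.Agent.Lib.Pa76659T
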