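import Pool.Agent.Lib.Pa76659G.UniK
import Pool.Agent.Lib.Pa76659G.TrC

set_option autoImplicit false

/-!
The complete set is given by one machine for all oracles; its value at `w` depends on the oracle only
through the strings which are not longer than `w`.
-/

namespace Pool.Agent.Lib.Pa76659T

open Pool.Agent.Lib.Pa76659 Pool.Agent.Lib.Pa76659G PC Unv

/-! ### Computability, uniformly in the oracle -/

section
variable {α : Type*} {orc : α → Lang} {D : α → Prop} {ctx : List (α → Str)}

theorem nv_polyU {ins W : α → Str} {j : α → ℕ} (hi : PolyC orc D ctx ins)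
    (hW : PolyC orc D ctx W) (hj : PolyN orc D ctx j) :
    PolyC orc D ctx (fun a => nv (orc a) (ins a) (W a) (j a)) := by
  have f0 := PolyC.nth hi (PolyN.const 0)
  have f1 := PolyN.length (PolyC.nth hi (PolyN.const 1))
  have f2 := PolyN.length (PolyC.nth hi (PolyN.const 2))
  have f3 := PolyC.nth hi (PolyN.const 3)
  have w := PolyC.nth hW hj
  have w1 := PolyC.nth hW f1
  have b3 : PolyC orc D ctx (fun a => [(nth (ins a) 3).headD false]) := PolyB.headD f3
  have bq : PolyC orc D ctx (fun a => [orc a (nth (W a) (nth (ins a) 1).length)]) :=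
    PolyC.query w1
  unfold nv
  refine PolyC.ite (PolyB.natEq hj f2) ?_ (w.mono fun _ h => h.1)
  refine PolyC.ite ((PolyB.isNil f0).mono fun _ h => h.1) (w.mono fun _ h => h.1.1) ?_
  refine PolyC.ite ((PolyB.headD f0).mono fun _ h => h.1.1)
    ((b3.append w).mono fun _ h => h.1.1.1) ?_
  refine PolyC.ite ((PolyB.headD f3).mono fun _ h => h.1.1.1)
    ((bq.append w).mono fun _ h => h.1.1.1.1) (w.tail.mono fun _ h => h.1.1.1.1)

theorem nx_polyU {ins W : α → Str} (hi : PolyC orc D ctx ins)
    (hW : PolyC orc D ctx W) :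
    PolyC orc D ctx (fun a => nx (ins a) (W a)) := by
  have f1 := PolyN.length (PolyC.nth hi (PolyN.const 1))
  have w1 := PolyC.nth hW f1
  unfold nx
  refine PolyC.ite (PolyB.isNil w1) ((PolyC.nth hi (PolyN.const 6)).mono fun _ h => h.1) ?_
  exact PolyC.ite ((PolyB.headD w1).mono fun _ h => h.1)
    ((PolyC.nth hi (PolyN.const 4)).mono fun _ h => h.1.1)
    ((PolyC.nth hi (PolyN.const 5)).mono fun _ h => h.1.1)

theorem ustep_polyU {T c : α → Str} {m : α → ℕ} (hT : PolyC orc D ctx T)
    (hm : PolyN orc D ctx m) (hc : PolyC orc D ctx c) :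
    PolyC orc D ctx (fun a => ustep (orc a) (T a) (m a) (c a)) := by
  have hi := PolyC.nth hT (PolyN.length (PolyC.fst hc))
  have hW := PolyC.snd hc
  unfold ustep
  refine PolyC.pr (nx_polyU hi hW) ?_
  refine PolyC.lenc_range (f := fun p : α × ℕ =>
    nv (orc p.1) (nth (T p.1) (fst (c p.1)).length) (snd (c p.1)) p.2) hm ?_
  refine nv_polyU (orc := fun p : α × ℕ => orc p.1) ?_ ?_ (PolyC.var (by simp))
  · exact (PolyC.lift hi (D' := fun p : α × ℕ => D p.1 ∧ p.2 < m p.1)
      (fun p hp => hp.1)).weakenRight _
  · exact (PolyC.lift hW (D' := fun p : α × ℕ => D p.1 ∧ p.2 < m p.1)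
      (fun p hp => hp.1)).weakenRight _

end

theorem VU_polyU : PolyB (fun a : Lang × (Str × Str) => a.1) (fun _ => True)
    [fun a => a.2.1, fun a => a.2.2] (fun a => VU a.1 a.2) := by
  have hz : PolyC (fun a : Lang × (Str × Str) => a.1) (fun _ => True)
    [fun a => a.2.1, fun a => a.2.2] (fun a => a.2.1) := PolyC.var (by simp)
  have hy : PolyC (fun a : Lang × (Str × Str) => a.1) (fun _ => True)
    [fun a => a.2.1, fun a => a.2.2] (fun a => a.2.2) := PolyC.var (by simp)
  have f : ∀ i, PolyC (fun a : Lang × (Str × Str) => a.1) (fun _ => True)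
    [fun a => a.2.1, fun a => a.2.2] (fun a => nth a.2.1 i) := fun i => PolyC.nth hz (PolyN.const i)
  have h0 : PolyC (fun a : Lang × (Str × Str) => a.1) (fun _ => True)
      [fun a => a.2.1, fun a => a.2.2] (fun a => c0 a.2.1 a.2.2) := by
    unfold c0
    refine PolyC.pr (f 1) (PolyC.lenc_range (f := fun p : (Lang × (Str × Str)) × ℕ =>
      if decide (p.2 = 0) = true then nth p.1.2.1 2 else
        if decide (p.2 = 1) = true then p.1.2.2 else [])
      (PolyN.length (f 5)) ?_)
    have hk : PolyN (fun p : (Lang × (Str × Str)) × ℕ => p.1.1)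
        (fun p => True ∧ p.2 < (nth p.1.2.1 5).length)
        (PC.lift [fun a : Lang × (Str × Str) => a.2.1, fun a => a.2.2] ++ [fun p => una p.2])
        (fun p => p.2) := PolyC.var (by simp)
    refine PolyC.ite (PolyB.natEq hk (PolyN.const 0)) ?_ ?_
    · exact (((f 2).lift (D' := fun p : (Lang × (Str × Str)) × ℕ =>
        True ∧ p.2 < (nth p.1.2.1 5).length) (fun p hp => hp.1)).weakenRight _).mono fun _ h => h.1
    · refine PolyC.ite ((PolyB.natEq hk (PolyN.const 1)).mono fun _ h => h.1) ?_ PolyC.nil
      exact ((hy.lift (D' := fun p : (Lang × (Str × Str)) × ℕ =>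
        True ∧ p.2 < (nth p.1.2.1 5).length) (fun p hp => hp.1)).weakenRight _).mono
          fun _ h => h.1.1
  have h1 : PolyC (fun a : Lang × (Str × Str) => a.1) (fun _ => True)
      [fun a => a.2.1, fun a => a.2.2] (fun a => c1 a.1 a.2.1 a.2.2) := by
    unfold c1
    refine PolyC.iter (g := fun a : Lang × (Str × Str) =>
      ustep a.1 (nth a.2.1 0) (nth a.2.1 5).length) ?_ h0
      (PolyN.length (f 3)) ⟨2 * (2 * Polynomial.X) + 1 +
        (2 * (Polynomial.X * (2 * Polynomial.X)) + Polynomial.X), fun a _ k hk => ?_⟩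
    · refine ustep_polyU (orc := fun p : (Lang × (Str × Str)) × Str => p.1.1) ?_ ?_
        (PolyC.var (by simp))
      · exact ((f 0).lift (D' := fun p : (Lang × (Str × Str)) × Str => True)
          (fun p hp => hp)).weakenRight _
      · exact (PolyC.lift (PolyN.length (f 5))
          (D' := fun p : (Lang × (Str × Str)) × Str => True) (fun p hp => hp)).weakenRight _
    · obtain ⟨O, x, y⟩ := a
      have h2 := ((c0_inv x y).iter (O := O) (by
        have := nth_length_le x 0
        omega) k).length
      have h3 := nth_length_le x 3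
      have h4 := nth_length_le x 5
      refine h2.trans ?_
      simp only [vals_cons, vals_nil, total_cons, total_nil, Nat.add_zero, Polynomial.eval_add,
        Polynomial.eval_mul, Polynomial.eval_ofNat, Polynomial.eval_X, Polynomial.eval_one]
      have hk' : k ≤ (nth x 3).length := hk
      have h5 : x.length + y.length + k ≤ 2 * (x.length + y.length) := by omega
      have h6 : (nth x 5).length * (x.length + y.length + k) ≤
          (x.length + y.length) * (2 * (x.length + y.length)) :=
        Nat.mul_le_mul (by omega) h5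
      omega
  exact (PolyB.natEq (PolyN.length hy) (PolyN.length (f 4))).and
    (PolyB.headD (PolyC.nth (PolyC.snd h1) (PolyN.const 0)))

/-- `mem_PO2`, uniformly in the oracle -/
theorem mem_PO2U {V : Lang × (Str × Str) → Bool}
    (h : PolyB (fun a : Lang × (Str × Str) => a.1) (fun _ => True)
      [fun a => a.2.1, fun a => a.2.2] V) :
    ∃ (M : Prog) (p : Polynomial ℕ), ∀ (O : Lang) (x y : Str), ∀ N, p.eval (x.length + y.length) ≤ N →
      Halts O M (inp2 x y) N ∧ accepts O M (inp2 x y) N = V (O, x, y) := by
  obtain ⟨P, p, hP⟩ := h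
  refine ⟨.seq P (.seq (clear 0) (move 2 0 3)), p + 2 * Polynomial.X + 20, fun O x y N hN => ?_⟩
  obtain ⟨n, hn, hr⟩ := hP (O, x, y) trivial
  simp only [vals_cons, vals_nil, total_cons, total_nil, Nat.add_zero, List.cons_append,
    List.nil_append] at hn hr
  have h1 := run_clear (O := O) 0 (R [x, y, [V (O, x, y)]])
  have e1 : Function.update (R [x, y, [V (O, x, y)]]) 0 [] = R [[], y, [V (O, x, y)]] :=
    R_update [] x [] [y, [V (O, x, y)]]
  have e2 : R [x, y, [V (O, x, y)]] 0 = x := R_length [] x [y, [V (O, x, y)]]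
  rw [e1, e2] at h1
  have h2 := run_move (O := O) (r := 2) (s := 0) (tmp := 3) (by omega) (by omega) (by omega)
    (R [[], y, [V (O, x, y)]]) (by rw [R_of_ge]; simp)
  have e3 : R [[], y, [V (O, x, y)]] 2 = [V (O, x, y)] := R_length [[], y] [V (O, x, y)] []
  have e4 : R [[], y, [V (O, x, y)]] 0 = [] := R_length [] [] [y, [V (O, x, y)]]
  have e5 : Function.update (R [[], y, [V (O, x, y)]]) 2 [] = R [[], y, []] :=
    R_update [[], y] [V (O, x, y)] [] []
  have e6 : Function.update (R [[], y, []]) 0 [V (O, x, y)] = R [[V (O, x, y)], y, []] :=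
    R_update [] [] [V (O, x, y)] [y, []]
  rw [e3, e4, e5, List.append_nil, e6] at h2
  have h3 := (Run.seq hr (Run.seq h1 h2)).exec
  have e7 : R [x, y] = inp2 x y := by
    funext i
    rcases i with _ | _ | i
    · simp [R, inp2]
    · simp [R, inp2]
    · simp [R, inp2]
  rw [e7] at h3
  have h4 := h3.halts (N := N) (by
    simp only [Polynomial.eval_add, Polynomial.eval_mul, Polynomial.eval_X, Polynomial.eval_ofNat,
      List.length_singleton] at hN ⊢
    omega)
  refine ⟨h4.1, ?_⟩
  rw [h4.2]
  have e8 : R [[V (O, x, y)], y, []] 0 = [V (O, x, y)] := R_length [] [V (O, x, y)] [y, []]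
  rw [e8]
  cases V (O, x, y) <;> rfl

open Classical in
/-- The complete set is given by one machine for all oracles. -/
theorem KU_index : ∃ i : NIx, ∀ O : Lang, KU O = nEval i O := by
  have hV' : PolyB (fun a : Lang × (Str × Str) => a.1) (fun _ => True)
      [fun a => a.2.1, fun a => a.2.2] (fun a => VU a.1 (a.2.1, PC.afterTrue a.2.2)) := by
    have h1 : PolyC (fun a : Lang × (Str × Str) => a.1) (fun _ => True)
        ([fun a => a.2.1, fun a => a.2.2].map
          (fun f => f ∘ fun a : Lang × (Str × Str) => (a.1, a.2.1, PC.afterTrue a.2.2)))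
        (fun a => [VU a.1 (a.2.1, PC.afterTrue a.2.2)]) :=
      PolyC.reindex (D' := fun _ => True) VU_polyU
        (fun a : Lang × (Str × Str) => (a.1, a.2.1, PC.afterTrue a.2.2)) (fun _ _ => trivial)
    refine PolyC.comp h1 ?_
    intro f hf
    simp only [List.map_cons, List.map_nil, List.mem_cons, List.not_mem_nil, or_false] at hf
    rcases hf with rfl | rfl
    · exact PolyC.var (f := fun a : Lang × (Str × Str) => a.2.1) (by simp)
    · exact PolyC.afterTrue (PolyC.var (f := fun a : Lang × (Str × Str) => a.2.2) (by simp))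
  obtain ⟨M, p, hM⟩ := mem_PO2U hV'
  refine ⟨(M, p.comp (Polynomial.X + (Polynomial.X + 1)), Polynomial.X + 1), fun O => funext fun x => ?_⟩
  have hacc : ∀ y : Str, y.length = (Polynomial.X + 1 : Polynomial ℕ).eval x.length →
      accepts O M (inp2 x y) ((p.comp (Polynomial.X + (Polynomial.X + 1))).eval x.length) =
        VU O (x, PC.afterTrue y) := by
    intro y hy
    refine (hM O x y _ ?_).2
    simp only [Polynomial.eval_comp, Polynomial.eval_add, Polynomial.eval_X, Polynomial.eval_one,
      hy]
    exact le_rfl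
  rw [Bool.eq_iff_iff]
  unfold KU nEval
  rw [decide_eq_true_eq, decide_eq_true_eq]
  constructor
  · rintro ⟨y, hy⟩
    have hy' : y.length ≤ x.length := by
      unfold VU at hy
      rw [Bool.and_eq_true, decide_eq_true_eq] at hy
      rw [hy.1]
      exact nth_length_le x 4
    have hl : (una (x.length - y.length) ++ false :: y).length =
        (Polynomial.X + 1 : Polynomial ℕ).eval x.length := by
      simp only [List.length_append, un_length, List.length_cons, Polynomial.eval_add,
        Polynomial.eval_one, Polynomial.eval_X]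
      omega
    refine ⟨una (x.length - y.length) ++ false :: y, hl, ?_⟩
    show accepts O M _ _ = true
    rw [hacc _ hl, afterTrue_un]
    exact hy
  · rintro ⟨y, hy, hv⟩
    refine ⟨PC.afterTrue y, ?_⟩
    rw [← hacc y hy]
    exact hv

/-- The instances of the complete set which belong to a language in `NP(O)`. -/
theorem KU_inst {O L : Lang} (h : L ∈ NPO O) : ∃ (M : Prog) (p q : Polynomial ℕ) (m : ℕ), ∀ x : Str,
    KU O (lenc [tabl M, cod M [M], x, una (p.eval x.length), una (q.eval x.length), una m])
      = L x := by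
  classical
  obtain ⟨M, p, q, hM⟩ := h
  refine ⟨M, p, q, M.bnd + 2, fun x => ?_⟩
  set m : ℕ := M.bnd + 2 with hm
  rw [Bool.eq_iff_iff, (hM x).2]
  unfold KU
  rw [decide_eq_true_eq]
  have key : ∀ y : Str, (nth (snd (c1 O (lenc [tabl M, cod M [M], x, una (p.eval x.length),
      una (q.eval x.length), una m]) y)) 0).headD false =
      accepts O M (inp2 x y) (p.eval x.length) := by
    intro y
    have e0 : c0 (lenc [tabl M, cod M [M], x, una (p.eval x.length),
        una (q.eval x.length), una m]) y = enc M m ([M], inp2 x y) := by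
      unfold c0 enc
      simp only [nth_lenc, List.getD_cons_zero, List.getD_cons_succ, PC.un_length]
      refine pr_lenc_congr rfl (fun j _ => ?_)
      unfold inp2
      simp only [decide_eq_true_eq]
    unfold c1
    rw [e0]
    simp only [nth_lenc, List.getD_cons_zero, List.getD_cons_succ, PC.un_length]
    rw [ustep_run (by omega), enc_reg _ _ _ (by omega), accepts]
    rcases (runN O (p.eval x.length) ([M], inp2 x y)).2 0 with _ | ⟨b, l⟩
    · rfl
    · cases b <;> rfl
  constructor
  · rintro ⟨y, hy⟩
    unfold VU at hy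
    rw [Bool.and_eq_true, decide_eq_true_eq, key] at hy
    refine ⟨y, ?_, hy.2⟩
    rw [hy.1]
    simp only [nth_lenc, List.getD_cons_zero, List.getD_cons_succ, PC.un_length]
  · rintro ⟨y, hy1, hy2⟩
    refine ⟨y, ?_⟩
    unfold VU
    rw [Bool.and_eq_true, decide_eq_true_eq, key]
    refine ⟨?_, hy2⟩
    simp only [nth_lenc, List.getD_cons_zero, List.getD_cons_succ, PC.un_length]
    exact hy1

/-- the machine which asks the oracle -/
noncomputable def pid : PIx := (Prog.query 0 0, 1)

theorem pid_eval (O : Lang) : pEval pid O = O := by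
  funext x
  unfold pEval pid
  simp only [Polynomial.eval_one]
  have h := (exec_query (O := O) 0 0 (inp x)).halts (N := 1) le_rfl
  rw [h.2]
  simp [inp]

/-! ### Locality -/

theorem fst_add_snd_le : ∀ w : Str, (fst w).length + (snd w).length ≤ w.length
  | [] => by simp
  | [true] => by show ([] : Str).length + ([] : Str).length ≤ _; simp
  | false :: l => by rw [fst_false, snd_false]; simp
  | true :: c :: l => by
    have := fst_add_snd_le l
    rw [fst_cons, snd_cons]
    simp only [List.length_cons]
    omega

theorem nth_add_nth_le (w : Str) (k : ℕ) : (nth w k).length + (nth w (k + 1)).length ≤ w.length := by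
  have h1 := snd_iter_length_le k w
  have h2 := fst_add_snd_le (snd^[k] w)
  have h3 := fst_length_le (snd (snd^[k] w))
  unfold nth
  rw [Function.iterate_succ_apply']
  omega

/-- all registers have length at most `N` -/
def Short (m N : ℕ) (c : Str) : Prop :=
  ∃ (a : Str) (f : ℕ → Str), c = Pa76659G.pr a (PC.lenc ((List.range m).map f)) ∧ ∀ j, (f j).length ≤ N

theorem Short.reg {m N : ℕ} {c : Str} (h : Short m N c) (j : ℕ) : (nth (snd c) j).length ≤ N := by
  obtain ⟨a, f, rfl, hf⟩ := h
  rw [snd_pr, nth_lenc]
  by_cases hj : j < m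
  · rw [List.getD_eq_getElem _ _ (by simpa using hj)]
    simpa using hf j
  · rw [List.getD_eq_default _ _ (by simpa using hj)]
    simp

theorem Short.step {O : Lang} {T : Str} {m N : ℕ} {c : Str} (h : Short m N c) :
    Short m (N + 1) (ustep O T m c) := by
  refine ⟨nx (nth T (fst c).length) (snd c), fun j => nv O (nth T (fst c).length) (snd c) j, rfl,
    fun j => ?_⟩
  have h1 := nv_length O (nth T (fst c).length) (snd c) j
  have h2 := h.reg j
  show (nv O (nth T (fst c).length) (snd c) j).length ≤ N + 1
  omega

theorem ustep_congr {O O' : Lang} {T : Str} {m N : ℕ} {c : Str} (h : Short m N c)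
    (hO : ∀ v : Str, v.length ≤ N → O v = O' v) : ustep O T m c = ustep O' T m c := by
  unfold ustep
  refine pr_lenc_congr rfl (fun j _ => ?_)
  unfold nv
  rw [hO _ (h.reg _)]

theorem iter_congr {O O' : Lang} {T : Str} {m N : ℕ} {c : Str} (h : Short m N c) : ∀ k : ℕ,
    (∀ v : Str, v.length ≤ N + k → O v = O' v) →
      (ustep O T m)^[k] c = (ustep O' T m)^[k] c ∧ Short m (N + k) ((ustep O T m)^[k] c)
  | 0, _ => ⟨rfl, h⟩
  | k + 1, hO => by
    obtain ⟨h1, h2⟩ := iter_congr h k (fun v hv => hO v (by omega))
    rw [Function.iterate_succ_apply', Function.iterate_succ_apply', ← h1]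
    exact ⟨ustep_congr h2 (fun v hv => hO v (by omega)), h2.step⟩

theorem VU_local {O O' : Lang} {w y : Str} (h : ∀ v : Str, v.length ≤ w.length → O v = O' v) :
    VU O (w, y) = VU O' (w, y) := by
  unfold VU
  by_cases hy : y.length = (nth w 4).length
  · have h3 : (nth w 2).length + (nth w 3).length ≤ w.length := nth_add_nth_le w 2
    have h4 : (nth w 3).length + (nth w 4).length ≤ w.length := nth_add_nth_le w 3
    have h5 : Short (nth w 5).length (w.length - (nth w 3).length) (c0 w y) := by
      refine ⟨_, _, rfl, fun j => ?_⟩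
      split_ifs
      · omega
      · omega
      · simp
    have h6 := (iter_congr (O := O) (O' := O') (T := nth w 0) h5 (nth w 3).length (fun v hv =>
      h v (by omega))).1
    have h7 : c1 O w y = c1 O' w y := h6
    show (decide (y.length = (nth w 4).length) && (nth (snd (c1 O w y)) 0).headD false) =
      (decide (y.length = (nth w 4).length) && (nth (snd (c1 O' w y)) 0).headD false)
    rw [h7]
  · have h8 : decide (y.length = (nth w 4).length) = false := decide_eq_false hy
    show (decide (y.length = (nth w 4).length) && _) = (decide (y.length = (nth w 4).length) && _)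
    rw [h8]
    rfl

open Classical in
/-- The value of the complete set at `w` depends only on the oracle up to the length of `w`. -/
theorem KU_local {O O' : Lang} {w : Str} (h : ∀ v : Str, v.length ≤ w.length → O v = O' v) :
    KU O w = KU O' w := by
  unfold KU
  rw [Bool.eq_iff_iff, decide_eq_true_eq, decide_eq_true_eq]
  constructor
  · rintro ⟨y, hy⟩
    exact ⟨y, (VU_local h).symm.trans hy⟩
  · rintro ⟨y, hy⟩
    exact ⟨y, (VU_local h).trans hy⟩

end Pool.Agent.Lib.Pa76659T
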