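import Pool.Agent.Lib.Pa76659T.Defs
import Pool.Agent.Lib.Pa76659T.Nf
import Pool.Agent.Lib.Pa76659T.Uni

set_option autoImplicit false

/-!
The complete set `BB X` of the second level.

PROOF. `V3_poly` : `KU X` is the oracle; `gg` is built with `PolyC.pr`, `PolyC.nth` (lenc is iterated pr).
`BB_mem`: `mem_NPO_le Polynomial.X`. `BB_hard`: `two_nf` gives `A, q`; `Uni.KU_inst` for `A` gives
`M, p1, q1, m`; put `r = 2 * x.length + 1 + q.eval x.length = (pr x u).length` and
`red x = lenc [tabl M, cod M [M], x, una (p1.eval r), una (q1.eval r), una m, una (q.eval x.length)]`;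
`nth_lenc` computes `gg (red x) u`. `BB_tcomp`: `NPO (KU X) ⊆ Sig X 2` (Sig by `PO_subset`, KU X ∈ NPO X).
-/

namespace Pool.Agent.Lib.Pa76659T

open Pool.Agent.Lib.Pa76659 Pool.Agent.Lib.Pa76659G Pool.Agent.Lib.Pa76659G.PC

theorem V3_poly (X : Lang) : PolyB (fun _ : Str × Str => Unv.KU X) (fun _ => True)
    [fun p => p.1, fun p => p.2] (V3 X) := by
  have hz : PolyC (fun _ : Str × Str => Unv.KU X) (fun _ => True) [fun p => p.1, fun p => p.2]
    (fun p => p.1) := PolyC.var (by simp)
  have hy : PolyC (fun _ : Str × Str => Unv.KU X) (fun _ => True) [fun p => p.1, fun p => p.2]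
    (fun p => p.2) := PolyC.var (by simp)
  have f : ∀ i, PolyC (fun _ : Str × Str => Unv.KU X) (fun _ => True)
    [fun p => p.1, fun p => p.2] (fun p => nth p.1 i) := fun i => PolyC.nth hz (PolyN.const i)
  have hg : PolyC (fun _ : Str × Str => Unv.KU X) (fun _ => True) [fun p => p.1, fun p => p.2]
      (fun p => gg p.1 p.2) :=
    PolyC.pr (f 0) (PolyC.pr (f 1) (PolyC.pr (PolyC.pr (f 2) hy) (PolyC.pr (f 3)
      (PolyC.pr (f 4) (PolyC.pr (f 5) PolyC.nil)))))
  have hq : PolyB (fun _ : Str × Str => Unv.KU X) (fun _ => True) [fun p => p.1, fun p => p.2]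
      (fun p => Unv.KU X (gg p.1 p.2)) := PolyC.query hg
  exact (PolyB.natEq (PolyN.length hy) (PolyN.length (f 6))).and hq.not

theorem V3_length {X : Lang} {x u : Str} (h : V3 X (x, u) = true) : u.length ≤ x.length := by
  unfold V3 at h
  rw [Bool.and_eq_true, decide_eq_true_eq] at h
  rw [h.1]
  exact nth_length_le x 6

theorem BB_mem (X : Lang) : BB X ∈ NPO (Unv.KU X) := by
  classical
  refine mem_NPO_le Polynomial.X (V3_poly X) (fun z => ?_)
  unfold BB
  rw [decide_eq_true_eq]
  constructor
  · rintro ⟨y, hy⟩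
    refine ⟨y, ?_, hy⟩
    rw [Polynomial.eval_X]
    exact V3_length hy
  · rintro ⟨y, -, hy⟩
    exact ⟨y, hy⟩

theorem BB_hard {X L : Lang} (h : L ∈ Sig X 2) : ∃ red : Str → Str,
    (∀ (O' : Lang), PolyC (fun _ : Str => O') (fun _ => True) [fun x => x] red) ∧
      ∀ x, BB X (red x) = L x := by
  classical
  obtain ⟨A, hA, q, hL⟩ := two_nf h
  obtain ⟨M, p1, q1, m, hM⟩ := KU_inst hA
  refine ⟨fun x => lenc [Unv.tabl M, cod M [M], x,
    una (p1.eval (2 * x.length + 1 + q.eval x.length)),
    una (q1.eval (2 * x.length + 1 + q.eval x.length)), una m, una (q.eval x.length)],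
    fun O' => ?_, fun x => ?_⟩
  · have hx : PolyC (fun _ : Str => O') (fun _ => True) [fun x => x] (fun x => x) :=
      PolyC.var (by simp)
    have h3 : PolyC (fun _ : Str => O') (fun _ => True) [fun x => x]
        (fun x => una (p1.eval (2 * x.length + 1 + q.eval x.length))) := by
      have h0 : PolyC (fun _ : Str => O') (fun _ => True) [fun x => x]
          (fun x => una ((p1.comp (2 * Polynomial.X + 1 + q)).eval x.length)) :=
        (PolyN.length hx).poly _
      simpa only [Polynomial.eval_comp, Polynomial.eval_add, Polynomial.eval_mul,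
        Polynomial.eval_X, Polynomial.eval_ofNat, Polynomial.eval_one] using h0
    have h4 : PolyC (fun _ : Str => O') (fun _ => True) [fun x => x]
        (fun x => una (q1.eval (2 * x.length + 1 + q.eval x.length))) := by
      have h0 : PolyC (fun _ : Str => O') (fun _ => True) [fun x => x]
          (fun x => una ((q1.comp (2 * Polynomial.X + 1 + q)).eval x.length)) :=
        (PolyN.length hx).poly _
      simpa only [Polynomial.eval_comp, Polynomial.eval_add, Polynomial.eval_mul,
        Polynomial.eval_X, Polynomial.eval_ofNat, Polynomial.eval_one] using h0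
    have h6 : PolyC (fun _ : Str => O') (fun _ => True) [fun x => x]
      (fun x => una (q.eval x.length)) := (PolyN.length hx).poly q
    exact PolyC.pr (PolyC.const _) (PolyC.pr (PolyC.const _) (PolyC.pr hx (PolyC.pr h3
      (PolyC.pr h4 (PolyC.pr (PolyC.const _) (PolyC.pr h6 PolyC.nil))))))
  · set z : Str := lenc [Unv.tabl M, cod M [M], x,
      una (p1.eval (2 * x.length + 1 + q.eval x.length)),
      una (q1.eval (2 * x.length + 1 + q.eval x.length)), una m, una (q.eval x.length)] with hz
    have key : ∀ u : Str, u.length = q.eval x.length → Unv.KU X (gg z u) = A (pr x u) := by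
      intro u hu
      have e1 : (pr x u).length = 2 * x.length + 1 + q.eval x.length := by
        rw [Pa76659G.pr_length, hu]
      rw [← hM (pr x u), e1, hz]
      unfold gg
      simp only [nth_lenc, List.getD_cons_zero, List.getD_cons_succ]
    have h6 : (nth z 6).length = q.eval x.length := by
      rw [hz]
      simp only [nth_lenc, List.getD_cons_zero, List.getD_cons_succ, PC.un_length]
    rw [Bool.eq_iff_iff, hL x]
    unfold BB
    rw [decide_eq_true_eq]
    constructor
    · rintro ⟨u, hu⟩
      unfold V3 at hu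
      rw [Bool.and_eq_true, decide_eq_true_eq, h6] at hu
      refine ⟨u, hu.1, ?_⟩
      rw [← key u hu.1]
      have h7 := hu.2
      rwa [Bool.not_eq_true'] at h7
    · rintro ⟨u, hu1, hu2⟩
      refine ⟨u, ?_⟩
      unfold V3
      rw [Bool.and_eq_true, decide_eq_true_eq, h6]
      refine ⟨hu1, ?_⟩
      rw [key u hu1, hu2]
      rfl

theorem BB_tcomp (X : Lang) : BB X ∈ Pool.Agent.Lib.Pa76659H.TComp (Unv.KU X) := by
  refine ⟨BB_mem X, fun L hL => ?_⟩
  have hL2 : L ∈ Sig X 2 := ⟨Unv.KU X, ⟨X, query_mem X, Unv.KU_mem X⟩, hL⟩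
  obtain ⟨red, h1, h2⟩ := BB_hard hL2
  refine mem_PO ((polyB_of_PO (right_PO (Unv.KU X) (BB X))
    (h1 (join (Unv.KU X) (BB X)))).congr (fun x _ => h2 x))

end Pool.Agent.Lib.Pa76659T
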