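import Pool.Agent.Lib.Pa76659T.Bbm
import Pool.Agent.Lib.Pa76659G.Yap

set_option autoImplicit false

/-!
Consequences of an infinite polynomial hierarchy.

PROOF. (1), (2): `Sig X 0 = PO X`, `NPO X = Sig X 1`; if KU X ∈ PO X then NPO X ⊆ PO X
(`Unv.KU_hard`), so `Sig X 0 = Sig X 1`. If co-KU X ∈ NPO X then NPO X is closed under complement (KU_hard,
NPO_comp), so Low X 1 = NPO X (`low1_iff`), in particular `Sig (join X (KU X)) 1 ⊆ Sig X 1`, and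
`Tr.Sig_succ_sub` gives `Sig X 2 ⊆ Sig X 1`.
(3) `yap` with A = KU X: `Sig (join X (KU X)) 3 ⊆ Sig X 3`, and `Sig X 4 ⊆ Sig (join X (KU X)) 3`.
(4) `yap` with X := KU X, A := BB X: `Sig (join (KU X) (BB X)) 3 ⊆ Sig (KU X) 3 ⊆ Sig X 4` and
`Sig X 5 ⊆ Sig (KU X) 4 ⊆ Sig (join (KU X) (BB X)) 3` (tcomp_high (BB_tcomp X)); `Sig X (k+1) = Sig (KU X) k` for
k >= 1 or both inclusions: `Tr.Sig_succ_sub` and `Sig_mono`. Upward closure: `sig_congr` in Basic.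
-/

namespace Pool.Agent.Lib.Pa76659T

open Pool.Agent.Lib.Pa76659 Pool.Agent.Lib.Pa76659G Pool.Agent.Lib.Pa76659G.PC

theorem sig_up (X : Lang) (k : ℕ) : Sig X k ⊆ Sig X (k + 1) := fun L hL =>
  ⟨L, hL, PO_subset_NPO L (query_mem L)⟩

theorem po_of_ku {X Y L : Lang} (h : Unv.KU X ∈ PO Y) (hL : L ∈ NPO X) : L ∈ PO Y := by
  obtain ⟨red, h1, h2⟩ := Unv.KU_hard hL
  exact mem_PO ((polyB_of_PO h (h1 Y)).congr (fun x _ => h2 x))

theorem inf_one {X : Lang} (h : Unv.KU X ∈ PO X) : Sig X 0 = Sig X 1 := by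
  refine Set.Subset.antisymm (sig_up X 0) ?_
  rintro L ⟨B, hB, hL⟩
  exact po_of_ku h (NPO_subset hB hL)

theorem inf_two {X : Lang} (h : (fun z => !(Unv.KU X z)) ∈ NPO X) : Sig X 1 = Sig X 2 := by
  refine Set.Subset.antisymm (sig_up X 1) (fun L hL => ?_)
  exact (low1_iff.2 ⟨Unv.KU_mem X, h⟩).2 (Tr.Sig_succ_sub X 1 hL)

theorem inf_three {X : Lang} (h : (fun z => !(Unv.KU X z)) ∈ NPPoly X) : Sig X 3 = Sig X 4 := by
  refine Set.Subset.antisymm (sig_up X 3) (fun L hL => ?_)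
  exact yap (Unv.KU_mem X) h (Tr.Sig_succ_sub X 3 hL)

theorem sub_ku (X : Lang) : ∀ k : ℕ, Sig (Unv.KU X) (k + 1) ⊆ Sig X (k + 2)
  | 0 => by
    rintro L ⟨B, hB, hL⟩
    exact ⟨Unv.KU X, ⟨X, query_mem X, Unv.KU_mem X⟩, NPO_subset hB hL⟩
  | k + 1 => by
    rintro L ⟨B, hB, hL⟩
    exact ⟨B, sub_ku X k hB, hL⟩

theorem ku_sub (X : Lang) (k : ℕ) : Sig X (k + 1) ⊆ Sig (Unv.KU X) k := by
  have hX : X ∈ PO (Unv.KU X) := po_of_ku (query_mem _) (PO_subset_NPO X (query_mem X))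
  exact (Tr.Sig_succ_sub X k).trans (Sig_mono (PO_join hX (query_mem _)) k)

theorem inf_four {X : Lang} (h : (fun z => !(BB X z)) ∈ NPPoly (Unv.KU X)) :
    Sig X 4 = Sig X 5 := by
  refine Set.Subset.antisymm (sig_up X 4) (fun L hL => ?_)
  have h1 : L ∈ Sig (Unv.KU X) 4 := ku_sub X 4 hL
  have h2 : L ∈ Sig (join (Unv.KU X) (BB X)) 3 :=
    (Pool.Agent.Lib.Pa76659H.tcomp_high (k := 3) (BB_tcomp X)).2 h1
  exact sub_ku X 2 (yap (BB_mem X) h h2)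

end Pool.Agent.Lib.Pa76659T
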