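import Pool.Agent.Lib.Pa76659T.Iso
import Pool.Agent.Lib.Pa76659G.TrC
import Pool.Agent.Lib.Pa76659G.TrS
import Pool.Agent.Lib.Pa76659G.Circ6
import Pool.Agent.Lib.Pa76659G.Low1

set_option autoImplicit false

/-!
Tally oracles: blocks, promises, the sanitised tally part of an oracle.
-/

namespace Pool.Agent.Lib.Pa76659T

open Pool.Agent.Lib.Pa76659 Pool.Agent.Lib.Pa76659G Pool.Agent.Lib.Pa76659G.PC

/-- tally languages: the subsets of `1^*` -/
def Tally (T : Lang) : Prop := ∀ v : Str, T v = true → v = on1 v.length

/-- block `n` of the tally part of `T`: the cells `(n, i)`, `i < n` -/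
def blk (T : Lang) (n : ℕ) : Str := (List.range n).map (fun i => T (on1 (Circ.pn n i)))

/-- the content of block `n` -/
def cont (T : Lang) (n : ℕ) : Str := fst (blk T n)

/-- kind of a content -/
def kd (z : Str) : ℕ := (nth z 0).length

/-- `u` is a solution of the instance `nth z 1` for the verifier `V` and passes the filter
`nth z 2` -/
def Sol (V : Str × Str → Bool) (z u : Str) : Prop := V (nth z 1, u) = true ∧ flt (nth z 2) u = true

/-- the input of an instance of the second level together with a first witness -/
def gg (x u : Str) : Str :=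
  lenc [nth x 0, nth x 1, pr (nth x 2) u, nth x 3, nth x 4, nth x 5]

/-- the verifier of the second level -/
noncomputable def V3 (X : Lang) (p : Str × Str) : Bool :=
  decide (p.2.length = (nth p.1 6).length) && !(Unv.KU X (gg p.1 p.2))

open Classical in
/-- the complete set of the second level -/
noncomputable def BB (X : Lang) : Lang := fun x => decide (∃ u : Str, V3 X (x, u) = true)

/-- the promise: exactly one of the two strings of kind 2 is in the complete set, instances of kind 3
have exactly one solution (for the verifier of the second level), those of kind 4 at most one -/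
def Val (X : Lang) (z : Str) : Prop :=
  (kd z = 2 → Unv.KU X (nth z 1) ≠ Unv.KU X (nth z 2)) ∧ (kd z = 3 → ∃! u, Sol (V3 X) z u) ∧
    (kd z = 4 → ∀ u v, Sol (V3 X) z u → Sol (V3 X) z v → u = v)

open Classical in
/-- the tally oracle read from `G`: the blocks with invalid content are empty -/
noncomputable def Phi (X G : Lang) : Lang := fun v =>
  decide (v = on1 v.length ∧ ∃ n i : ℕ, i < n ∧ v.length = Circ.pn n i ∧ Val X (cont G n) ∧
    G v = true)

open Classical in
/-- the content `z` is written into block `n` -/
noncomputable def put (S : Lang) (n : ℕ) (z : Str) : Lang := fun v =>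
  S v || decide (v = on1 v.length ∧ ∃ i < n, v.length = Circ.pn n i ∧ (pr z []).getD i false = true)

/-- tally language given by a table -/
def tl (τ : Str) : Lang := fun v => decide (v = on1 v.length) && τ.getD v.length false

/-- kind, instance, filter -/
def mk (k : ℕ) (x w : Str) : Str := lenc [on1 k, x, w]

theorem kd_mk (k : ℕ) (x w : Str) : kd (mk k x w) = k := by
  unfold kd mk
  rw [nth_lenc]
  simp [on1]

theorem nth1_mk (k : ℕ) (x w : Str) : nth (mk k x w) 1 = x := by
  unfold mk
  rw [nth_lenc]
  rfl

theorem nth2_mk (k : ℕ) (x w : Str) : nth (mk k x w) 2 = w := by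
  unfold mk
  rw [nth_lenc]
  rfl

theorem mk_length (k : ℕ) (x w : Str) : (mk k x w).length = 2 * (k + x.length + w.length) + 3 := by
  unfold mk
  rw [lenc_length]
  simp [on1]
  omega

end Pool.Agent.Lib.Pa76659T
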