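import Pool.Agent.Lib.Pa76659T.Defs

set_option autoImplicit false

/-!
Polynomial-time computability of the contents and of the patched oracles.
-/

namespace Pool.Agent.Lib.Pa76659T

open Pool.Agent.Lib.Pa76659 Pool.Agent.Lib.Pa76659G Pool.Agent.Lib.Pa76659G.PC

/-- the pairing `pn` is polynomial -/
theorem pn_poly {α : Type} {orc : α → Lang} {D : α → Prop} {ctx : List (α → Str)}
    {n i : α → ℕ} (hn : PolyN orc D ctx n) (hi : PolyN orc D ctx i) :
    PolyN orc D ctx (fun a => Circ.pn (n a) (i a)) :=
  (((hn.add hi).mul (hn.add hi)).add hi).congr (fun _ _ => rfl)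

theorem put_fam {X S : Lang} {N : ℕ} (hS : ∀ v : Str, N ≤ v.length → S v = false) :
    Tr.Fam X (fun a => join X (put S (fst a).length (snd a))) := by
  refine Tr.fam_join (Tr.fam_const (query_mem X)) ?_
  have hx : PolyC (fun _ : Str => X) (fun _ => True) [fun x => x] (fun x => x) :=
    PolyC.var (by simp)
  have hn : PolyN (fun _ : Str => X) (fun _ => True) [fun x => x]
      (fun x => (fst (fst x)).length) := PolyN.length (PolyC.fst (PolyC.fst hx))
  have hz : PolyC (fun _ : Str => X) (fun _ => True) [fun x => x]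
      (fun x => snd (fst x)) := PolyC.snd (PolyC.fst hx)
  have hv : PolyC (fun _ : Str => X) (fun _ => True) [fun x => x]
      (fun x => snd x) := PolyC.snd hx
  have h1 : PolyB (fun _ : Str => X) (fun _ => True) [fun x => x]
      (fun x => if (snd x).length < N then S (snd x) else false) := PolyB.finite N S hv
  have h2 : PolyB (fun _ : Str => X) (fun _ => True) [fun x => x]
      (fun x => decide (snd x = una (snd x).length)) := PolyB.strEq hv (PolyN.length hv)
  have hi : PolyN (fun _ : Str × ℕ => X)
      (fun p : Str × ℕ => True ∧ p.2 < (fst (fst p.1)).length)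
      (PC.lift [fun x => x] ++ [fun p => una p.2]) (fun p => p.2) := PolyC.var (by simp)
  have hnl : PolyN (fun _ : Str × ℕ => X)
      (fun p : Str × ℕ => True ∧ p.2 < (fst (fst p.1)).length)
      (PC.lift [fun x => x] ++ [fun p => una p.2]) (fun p => (fst (fst p.1)).length) :=
    (PolyC.lift hn (fun p hp => hp.1)).weakenRight _
  have hzl : PolyC (fun _ : Str × ℕ => X)
      (fun p : Str × ℕ => True ∧ p.2 < (fst (fst p.1)).length)
      (PC.lift [fun x => x] ++ [fun p => una p.2]) (fun p => snd (fst p.1)) :=
    (PolyC.lift hz (fun p hp => hp.1)).weakenRight _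
  have hvl : PolyC (fun _ : Str × ℕ => X)
      (fun p : Str × ℕ => True ∧ p.2 < (fst (fst p.1)).length)
      (PC.lift [fun x => x] ++ [fun p => una p.2]) (fun p => snd p.1) :=
    (PolyC.lift hv (fun p hp => hp.1)).weakenRight _
  have h3 : PolyB (fun _ : Str × ℕ => X)
      (fun p : Str × ℕ => True ∧ p.2 < (fst (fst p.1)).length)
      (PC.lift [fun x => x] ++ [fun p => una p.2])
      (fun p => decide ((snd p.1).length = Circ.pn (fst (fst p.1)).length p.2) &&
        (pr (snd (fst p.1)) []).getD p.2 false) :=
    (PolyB.natEq (PolyN.length hvl) (pn_poly hnl hi)).and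
      (PolyB.getD (PolyC.pr hzl PolyC.nil) hi)
  have h4 := PolyB.exists_lt hn h3
  refine mem_PO ((h1.or (h2.and h4)).congr ?_)
  intro w _
  show _ = put S (fst (fst w)).length (snd (fst w)) (snd w)
  have e1 : (if (snd w).length < N then S (snd w) else false) = S (snd w) := by
    by_cases h : (snd w).length < N
    · rw [if_pos h]
    · rw [if_neg h, hS _ (by omega)]
  rw [e1]
  unfold put
  refine congrArg (fun b => S (snd w) || b) ?_
  rw [Bool.eq_iff_iff]
  simp only [Bool.and_eq_true, decide_eq_true_eq]
  exact Iff.rfl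

theorem tl_fam (X : Lang) : Tr.Fam X (fun a => join X (tl a)) := by
  refine Tr.fam_join (Tr.fam_const (query_mem X)) ?_
  have hx : PolyC (fun _ : Str => X) (fun _ => True) [fun x => x] (fun x => x) :=
    PolyC.var (by simp)
  have hv : PolyC (fun _ : Str => X) (fun _ => True) [fun x => x]
      (fun x => snd x) := PolyC.snd hx
  have h2 : PolyB (fun _ : Str => X) (fun _ => True) [fun x => x]
      (fun x => decide (snd x = una (snd x).length)) := PolyB.strEq hv (PolyN.length hv)
  have h3 : PolyB (fun _ : Str => X) (fun _ => True) [fun x => x]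
      (fun x => (fst x).getD (snd x).length false) :=
    PolyB.getD (PolyC.fst hx) (PolyN.length hv)
  refine mem_PO ((h2.and h3).congr ?_)
  intro w _
  rfl

theorem cont_poly {α : Type} {O T : Lang} (hT : T ∈ PO O) {D : α → Prop} {ctx : List (α → Str)}
    {n : α → ℕ} (hn : PolyN (fun _ => O) D ctx n) :
    PolyC (fun _ => O) D ctx (fun a => cont T (n a)) := by
  have hi : PolyN (fun _ : α × ℕ => O) (fun p : α × ℕ => D p.1 ∧ p.2 < n p.1)
      (PC.lift ctx ++ [fun p => una p.2]) (fun p => p.2) := PolyC.var (by simp)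
  have hnl : PolyN (fun _ : α × ℕ => O) (fun p : α × ℕ => D p.1 ∧ p.2 < n p.1)
      (PC.lift ctx ++ [fun p => una p.2]) (fun p => n p.1) :=
    (PolyC.lift hn (fun p hp => hp.1)).weakenRight _
  have h1 : PolyB (fun _ : α × ℕ => O) (fun p : α × ℕ => D p.1 ∧ p.2 < n p.1)
      (PC.lift ctx ++ [fun p => una p.2]) (fun p => T (una (Circ.pn (n p.1) p.2))) :=
    polyB_of_PO hT (pn_poly hnl hi)
  exact (PolyC.fst (PolyC.map_range hn h1)).congr (fun _ _ => rfl)

/-- table of a tally language -/
def tabT (T : Lang) (m : ℕ) : Str := (List.range m).map (fun i => T (on1 i))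

theorem tabT_length (T : Lang) (m : ℕ) : (tabT T m).length = m := by simp [tabT]

theorem tl_tabT {T : Lang} (hT : Tally T) {m : ℕ} {v : Str} (hv : v.length < m) :
    tl (tabT T m) v = T v := by
  have h1 : (tabT T m).getD v.length false = T (on1 v.length) := by
    unfold tabT
    rw [List.getD_eq_getElem?_getD, List.getElem?_map, List.getElem?_range hv]
    rfl
  unfold tl
  rw [h1]
  by_cases h : v = on1 v.length
  · rw [decide_eq_true h, Bool.true_and, ← h]
  · rw [decide_eq_false h, Bool.false_and]
    cases h2 : T v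
    · rfl
    · exact absurd (hT v h2) h

/-- a finite tally language is given by a table -/
theorem tl_fin {S : Lang} {N : ℕ} (hT : Tally S) (hS : ∀ v : Str, N ≤ v.length → S v = false) :
    tl (tabT S N) = S := by
  funext v
  by_cases h : v.length < N
  · exact tl_tabT hT h
  · unfold tl
    rw [hS v (by omega), List.getD_eq_default _ _ (by rw [tabT_length]; omega), Bool.and_false]

theorem tabT_poly {α : Type} {O T : Lang} (hT : T ∈ PO O) {D : α → Prop} {ctx : List (α → Str)}
    {n : α → ℕ} (hn : PolyN (fun _ => O) D ctx n) :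
    PolyC (fun _ => O) D ctx (fun a => tabT T (n a)) := by
  have hi : PolyC (fun _ : α × ℕ => O) (fun p : α × ℕ => D p.1 ∧ p.2 < n p.1)
      (PC.lift ctx ++ [fun p => una p.2]) (fun p => una p.2) := PolyC.var (by simp)
  have h1 : PolyB (fun _ : α × ℕ => O) (fun p : α × ℕ => D p.1 ∧ p.2 < n p.1)
      (PC.lift ctx ++ [fun p => una p.2]) (fun p => T (una p.2)) := polyB_of_PO hT hi
  exact (PolyC.map_range hn h1).congr (fun _ _ => rfl)

end Pool.Agent.Lib.Pa76659T
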