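import Pool.Agent.Lib.Pa76659T.Base
import Pool.Agent.Lib.Pa76659T.Fam
import Pool.Agent.Lib.Pa76659T.Uni
import Pool.Agent.Lib.Pa76659G.UoU1

set_option autoImplicit false

/-!
`L_1 ≠ \hat L_2` relative to generic tally oracles, if `NP ≠ coNP`.

PROOF. T = Phi X G, X' = join X T. `U1 T v = KU X (nth (cont T |v|) 1)` is in NPO X' (`cont_poly`,
`NPO_comp`, `NPO_subset (left_PO X T)`, KU_mem), hence its complement is in DelSucc X' 1. If
`RLowSucc X' 1 ⊆ Low X' 1` then `Uo.u1` gives `(fun v => !(U1 T (on1 |v|)))` in NPO X', that is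
`= nEval i X'` (exists_nEval). For every i the functions `F T = fun v => nEval i (join X T) (on1 |v|)` and
`F' T = fun v => !(KU X (nth (cont T |v|) 1))` are local (`loc_sEval`, `loc_join`, `loc_of_cont`); NIx is
countable (`eventually_countable_forall` as in TrX.back_sig). `forced` gives N, S; for z = mk 0 x [] (valid by
`Val_of_kd`), n = N + 2 |z| + 1: `nEval i (join X (put S n z)) (on1 n) = !(KU X x)` (`cont_put`, `nth1_mk`,
evaluate at v = on1 n). `Tr.sEval_param (put_fam hS) pid [i]` and `pid_eval` give L' ∈ Sig X 1 ⊆ NPO X with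
`L' (pr (pr (on1 n) z) (on1 n)) = !(KU X x)`; compose with the polynomial-time map x ↦ that string
(`NPO_comp`).
-/

namespace Pool.Agent.Lib.Pa76659T

open Pool.Agent.Lib.Pa76659 Pool.Agent.Lib.Pa76659G Pool.Agent.Lib.Pa76659G.PC

/-- the machine which asks its input -/
theorem ask_eval (Y : Lang) : pEval (Prog.query 0 0, 1) Y = Y := by
  funext x
  have h := (exec_query (O := Y) 0 0 (inp x)).halts (N := 1) le_rfl
  unfold pEval
  simp only [Polynomial.eval_one]
  rw [h.2]
  simp [inp]

theorem on1_len (n : ℕ) : (on1 n).length = n := by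
  rw [on1_eq, PC.un_length]

/-- evaluation at `1^n` -/
theorem loc_on1 {F : Lang → Lang} (hF : Loc F) : Loc (fun T v => F T (on1 v.length)) := by
  intro n
  obtain ⟨m, hm⟩ := hF n
  refine ⟨m, fun O O' h x hx => hm O O' h _ ?_⟩
  rw [on1_len]
  exact hx

/-- the complement of the first tally set is in `Δ_2` -/
theorem co_mem (X T : Lang) :
    (fun v : Str => !(Unv.KU X (nth (cont T v.length) 1))) ∈ DelSucc (join X T) 1 := by
  have hx : PolyC (fun _ : Str => join X T) (fun _ => True) [fun x => x] (fun x => x) :=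
    PolyC.var (by simp)
  have h1 : (fun v : Str => Unv.KU X (nth (cont T v.length) 1)) ∈ NPO (join X T) :=
    NPO_comp (NPO_subset (left_PO X T) (Unv.KU_mem X))
      (PolyC.nth (cont_poly (right_PO X T) (PolyN.length hx)) (PolyN.const 1))
  refine ⟨_, ⟨join X T, query_mem _, h1⟩, ?_⟩
  have hx' : PolyC (fun _ : Str => fun v : Str => Unv.KU X (nth (cont T v.length) 1))
      (fun _ => True) [fun x => x] (fun x => x) := PolyC.var (by simp)
  have h3 : PolyB (fun _ : Str => fun v : Str => Unv.KU X (nth (cont T v.length) 1))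
      (fun _ => True) [fun x => x] (fun v : Str => Unv.KU X (nth (cont T v.length) 1)) :=
    PolyC.query hx'
  exact mem_PO h3.not

theorem part_one {X : Lang} (h : (fun z => !(Unv.KU X z)) ∉ NPO X) :
    ∀ᶠ G in residual Lang, ¬ (RLowSucc (join X (Phi X G)) 1 ⊆ Low (join X (Phi X G)) 1) := by
  have hall : ∀ᶠ G in residual Lang, ∀ i : NIx,
      (fun v : Str => nEval i (join X (Phi X G)) (on1 v.length)) =
        (fun v : Str => !(Unv.KU X (nth (cont (Phi X G) v.length) 1))) →
      ∃ (N : ℕ) (S : Lang), Tally S ∧ (∀ v : Str, N ≤ v.length → S v = false) ∧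
        ∀ (n : ℕ) (z : Str), N ≤ n → 2 * z.length + 1 ≤ n → Val X z →
          (fun v : Str => nEval i (join X (put S n z)) (on1 v.length)) =
            (fun v : Str => !(Unv.KU X (nth (cont (put S n z) v.length) 1))) := by
    rw [eventually_countable_forall]
    intro i
    exact forced X (F := fun T v => nEval i (join X T) (on1 v.length))
      (F' := fun T v => !(Unv.KU X (nth (cont T v.length) 1)))
      (loc_on1 ((loc_nEval i).comp (loc_join X)))
      (loc_of_cont (fun _ z => !(Unv.KU X (nth z 1))) (fun c => c.length) (fun _ => le_rfl))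
  filter_upwards [hall] with G hG hsub
  apply h
  obtain ⟨i, hi⟩ := exists_nEval (Uo.u1 hsub (co_mem X (Phi X G)))
  obtain ⟨N, S, -, hS, hf⟩ := hG i (by
    funext v
    rw [← hi]
    simp only [on1_len])
  obtain ⟨L', ⟨C, hC, hL'⟩, hL⟩ := Tr.sEval_param (put_fam (X := X) hS) (Prog.query 0 0, 1) [i]
  have hx : PolyC (fun _ : Str => X) (fun _ => True) [fun x => x] (fun x => x) :=
    PolyC.var (by simp)
  have hz : PolyC (fun _ : Str => X) (fun _ => True) [fun x => x] (fun x => mk 0 x []) :=
    PolyC.pr (PolyC.const _) (PolyC.pr hx (PolyC.pr PolyC.nil PolyC.nil))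
  have hn : PolyC (fun _ : Str => X) (fun _ => True) [fun x => x]
      (fun x => on1 (N + (2 * (mk 0 x []).length + 1))) :=
    PolyN.add (PolyN.const N) (PolyN.add (PolyN.mul (PolyN.const 2) (PolyN.length hz))
      (PolyN.const 1))
  have h1 := NPO_comp (NPO_subset hC hL') (PolyC.pr (PolyC.pr hn hz) hn)
  have h2 : (fun x : Str => !(Unv.KU X x)) = fun x =>
      L' (pr (pr (on1 (N + (2 * (mk 0 x []).length + 1))) (mk 0 x []))
        (on1 (N + (2 * (mk 0 x []).length + 1)))) := by
    funext x
    have h3 := congrFun (hf (N + (2 * (mk 0 x []).length + 1)) (mk 0 x []) (by omega) (by omega)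
      (Val_of_kd (by rw [kd_mk]; norm_num))) (on1 (N + (2 * (mk 0 x []).length + 1)))
    simp only [on1_len] at h3
    rw [cont_put hS (by omega) (by omega), nth1_mk] at h3
    rw [← h3, hL]
    simp only [PC.fst_pr, PC.snd_pr, on1_len]
    show _ = nEval i (pEval (Prog.query 0 0, 1) _) _
    rw [ask_eval]
  rw [h2]
  exact h1

end Pool.Agent.Lib.Pa76659T
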