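import Pool.Agent.Lib.Pa76659G.TrC
import Pool.Agent.Lib.Pa76659G.Cert

set_option autoImplicit false

/-!
Recursion with shrinking queries: a language that a polynomial time machine decides with the help of
its own values on the strings of length at most the square root of the length of the input is in `P`.
-/

namespace Pool.Agent.Lib.Pa76659T

open Pool.Agent.Lib.Pa76659 (Str Lang Prog Cfg step runN PO inp inp2 accepts join)
open Pool.Agent.Lib.Pa76659G Pool.Agent.Lib.Pa76659G.PC

/-! ### Iteration -/

/-- `f` leads from `s` to `s'` in `k` steps through strings of length at most `B`. -/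
def Reach (f : Str → Str) (s s' : Str) (k B : ℕ) : Prop :=
  f^[k] s = s' ∧ ∀ j ≤ k, (f^[j] s).length ≤ B

theorem Reach.trans {f : Str → Str} {s s' s'' : Str} {k k' B : ℕ} (h : Reach f s s' k B)
    (h' : Reach f s' s'' k' B) : Reach f s s'' (k' + k) B := by
  refine ⟨?_, fun j hj => ?_⟩
  · rw [Function.iterate_add_apply, h.1, h'.1]
  · by_cases hjk : j ≤ k
    · exact h.2 j hjk
    · obtain ⟨i, rfl⟩ : ∃ i, j = i + k := ⟨j - k, by omega⟩
      rw [Function.iterate_add_apply, h.1]
      exact h'.2 i (by omega)

theorem Reach.refl {f : Str → Str} {s : Str} {B : ℕ} (h : s.length ≤ B) : Reach f s s 0 B :=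
  ⟨rfl, fun j hj => by
    obtain rfl : j = 0 := by omega
    exact h⟩

theorem Reach.one {f : Str → Str} {s s' : Str} {B : ℕ} (e : f s = s') (h : s.length ≤ B)
    (h' : s'.length ≤ B) : Reach f s s' 1 B :=
  ⟨e, fun j hj => by
    rcases Nat.le_one_iff_eq_zero_or_eq_one.1 hj with rfl | rfl
    · exact h
    · show (f s).length ≤ B
      rw [e]
      exact h'⟩

theorem Reach.mono {f : Str → Str} {s s' : Str} {k B B' : ℕ} (h : Reach f s s' k B) (hB : B ≤ B') :
    Reach f s s' k B' := ⟨h.1, fun j hj => (h.2 j hj).trans hB⟩

/-! ### The stack machine -/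

/-- return the bit string `s` to the stack `rest` -/
def ret (s rest : Str) : Str :=
  if rest.isEmpty = true then pr s [] else
    pr [] (pr (pr (fst (fst rest)) (snd (fst rest) ++ s)) (snd rest))

/-- input of the top frame -/
def gx (w : Str) : Str := fst (fst (snd w))

/-- answers of the top frame -/
def ga (w : Str) : Str := snd (fst (snd w))

/-- the other frames -/
def gr (w : Str) : Str := snd (snd w)

/-- append an answer to the top frame -/
def gapp (w s : Str) : Str := pr [] (pr (pr (gx w) (ga w ++ s)) (gr w))

/-- configuration of the top frame -/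
def gc (M : Prog) (w : Str) : Cfg := cf M (gx w) [] (ga w) (ga w).length

/-- the next query of the top frame -/
def gq (M : Prog) (w : Str) : Str := oc (qry (gc M w))

/-- one event of the stack machine -/
noncomputable def gs (X C : Lang) (N0 : ℕ) (M : Prog) (p : Polynomial ℕ) (w : Str) : Str :=
  if (snd w).isEmpty = true then w else
  if decide ((gx w).length < N0) = true then ret [C (gx w)] (gr w) else
  if decide (p.eval (gx w).length ≤ (ga w).length) = true then ret [top (gc M w)] (gr w) else
  if (gq M w).tail.isEmpty = true then gapp w [false] else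
  if (gq M w).tail.headD false = true then
    (if decide ((gq M w).tail.tail.length * (gq M w).tail.tail.length ≤ (gx w).length) = true then
      pr [] (pr (pr (gq M w).tail.tail []) (snd w)) else gapp w [false])
  else gapp w [X (gq M w).tail.tail]

theorem gs_poly (X C : Lang) (N0 : ℕ) (M : Prog) (p : Polynomial ℕ) {α : Type} {D : α → Prop}
    {ctx : List (α → Str)} {t : α → Str} (ht : PolyC (fun _ => X) D ctx t) :
    PolyC (fun _ : α => X) D ctx (fun a => gs X C N0 M p (t a)) := by
  have hst := PolyC.snd ht
  have hx : PolyC (fun _ : α => X) D ctx (fun a => gx (t a)) := PolyC.fst (PolyC.fst hst)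
  have ha : PolyC (fun _ : α => X) D ctx (fun a => ga (t a)) := PolyC.snd (PolyC.fst hst)
  have hr : PolyC (fun _ : α => X) D ctx (fun a => gr (t a)) := PolyC.snd hst
  have hcf : PolyC (fun _ : α => X) D ctx (fun a => PC.enc M (M.bnd + 1) (gc M (t a))) :=
    PolyC.cf M hx (PolyC.nil) ha (PolyN.length ha)
  have htop : PolyB (fun _ : α => X) D ctx (fun a => top (gc M (t a))) := by
    refine (PolyB.headD (PolyC.nth (PolyC.snd hcf) (PolyN.const 0))).congr ?_
    intro a _
    rw [enc_reg _ _ _ (by omega), top]
    rcases (gc M (t a)).2 0 with _ | ⟨c, l⟩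
    · rfl
    · cases c <;> rfl
  have hq : PolyC (fun _ : α => X) D ctx (fun a => gq M (t a)) :=
    PolyC.qry' M (fun a => gc M (t a)) hcf (fun a _ => cf_KK M (gx (t a)) [] (ga (t a)) _)
  have hret : ∀ {D' : α → Prop} {φ : α → Bool}, (∀ a, D' a → D a) →
      PolyB (fun _ : α => X) D' ctx φ → PolyC (fun _ : α => X) D' ctx
        (fun a => ret [φ a] (gr (t a))) := by
    intro D' φ hD hφ
    have hr' := hr.mono hD
    refine PolyC.ite (PolyB.isNil hr') ?_ ?_
    · exact PolyC.pr (PolyC.mono hφ fun _ h => h.1) PolyC.nil
    · refine PolyC.pr PolyC.nil (PolyC.pr (PolyC.pr ?_ (PolyC.append ?_ ?_)) ?_)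
      · exact (PolyC.fst (PolyC.fst hr')).mono fun _ h => h.1
      · exact (PolyC.snd (PolyC.fst hr')).mono fun _ h => h.1
      · exact PolyC.mono hφ fun _ h => h.1
      · exact (PolyC.snd hr').mono fun _ h => h.1
  have happ : ∀ {D' : α → Prop} {φ : α → Bool}, (∀ a, D' a → D a) →
      PolyB (fun _ : α => X) D' ctx φ → PolyC (fun _ : α => X) D' ctx
        (fun a => gapp (t a) [φ a]) := by
    intro D' φ hD hφ
    exact PolyC.pr PolyC.nil (PolyC.pr (PolyC.pr (hx.mono hD)
      (PolyC.append (ha.mono hD) hφ)) (hr.mono hD))
  refine PolyC.ite (PolyB.isNil hst) (ht.mono fun _ h => h.1) ?_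
  refine PolyC.ite ((PolyB.lt (PolyN.length hx) (PolyN.const N0)).mono fun _ h => h.1) ?_ ?_
  · refine hret (fun a h => h.1.1) ?_
    refine PolyB.congr (PolyC.mono (PolyB.finite N0 C hx) fun a h => h.1.1) ?_
    rintro a ⟨_, h2⟩
    rw [decide_eq_true_eq] at h2
    rw [if_pos h2]
  refine PolyC.ite ((PolyB.le (PolyN.poly (PolyN.length hx) p) (PolyN.length ha)).mono
    fun _ h => h.1.1) ?_ ?_
  · exact hret (fun a h => h.1.1.1) (htop.mono fun a h => h.1.1.1)
  refine PolyC.ite ((PolyB.isNil hq.tail).mono fun _ h => h.1.1.1) ?_ ?_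
  · exact happ (fun a h => h.1.1.1.1) (PolyB.const false)
  refine PolyC.ite ((PolyB.headD hq.tail).mono fun _ h => h.1.1.1.1) ?_ ?_
  · have hw := hq.tail.tail
    refine PolyC.ite ((PolyB.le ((PolyN.length hw).mul (PolyN.length hw)) (PolyN.length hx)).mono
      fun _ h => h.1.1.1.1.1) ?_ ?_
    · exact PolyC.pr PolyC.nil (PolyC.pr (PolyC.pr (hw.mono fun _ h => h.1.1.1.1.1.1) PolyC.nil)
        (hst.mono fun _ h => h.1.1.1.1.1.1))
    · exact happ (fun a h => h.1.1.1.1.1.1) (PolyB.const false)
  · exact happ (fun a h => h.1.1.1.1.1) ((PolyB.qry hq.tail.tail).mono fun _ h => h.1.1.1.1.1)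

/-! ### Its states -/

/-- the state of a stack of frames (input, answers) -/
def stt (l : List (Str × Str)) : Str := pr [] (ac l)

/-- the state after returning the bit `b` -/
def rets (b : Bool) : List (Str × Str) → Str
  | [] => pr [b] []
  | e :: l => stt ((e.1, e.2 ++ [b]) :: l)

theorem ac_cons_ne (e : Str × Str) (l : List (Str × Str)) : (ac (e :: l)).isEmpty = false := by
  rw [ac_cons]
  have := pr_ne_nil (pr e.1 e.2) (ac l)
  cases h : pr (pr e.1 e.2) (ac l) with
  | nil => exact absurd h this
  | cons => rfl

theorem ac_length_cons (e : Str × Str) (l : List (Str × Str)) :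
    (ac (e :: l)).length = 4 * e.1.length + 2 * e.2.length + 3 + (ac l).length := by
  rw [ac_cons, PC.pr_length, PC.pr_length]
  omega

theorem stt_length (l : List (Str × Str)) : (stt l).length = (ac l).length + 1 := by
  rw [stt, PC.pr_length]
  simp only [List.length_nil]
  omega

theorem rets_length (b : Bool) (l : List (Str × Str)) : (rets b l).length ≤ (ac l).length + 3 := by
  rcases l with _ | ⟨e, l⟩
  · rw [rets, PC.pr_length, ac_nil]
    simp
  · rw [rets, stt_length, ac_length_cons, ac_length_cons]
    simp only [List.length_append, List.length_singleton]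
    omega

theorem ret_ac (b : Bool) (l : List (Str × Str)) : ret [b] (ac l) = rets b l := by
  rcases l with _ | ⟨e, l⟩
  · rfl
  · rw [ret, ac_cons_ne, if_neg (by simp), ac_cons, rets, stt, ac_cons]
    simp only [PC.fst_pr, PC.snd_pr]

section

variable (e : Str × Str) (l : List (Str × Str))

theorem snd_stt : snd (stt l) = ac l := by rw [stt, PC.snd_pr]

theorem gx_stt : gx (stt (e :: l)) = e.1 := by
  rw [gx, snd_stt, ac_cons, PC.fst_pr, PC.fst_pr]

theorem ga_stt : ga (stt (e :: l)) = e.2 := by
  rw [ga, snd_stt, ac_cons, PC.fst_pr, PC.snd_pr]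

theorem gr_stt : gr (stt (e :: l)) = ac l := by
  rw [gr, snd_stt, ac_cons, PC.snd_pr]

theorem gapp_stt (b : Bool) : gapp (stt (e :: l)) [b] = stt ((e.1, e.2 ++ [b]) :: l) := by
  rw [gapp, gx_stt, ga_stt, gr_stt, stt, ac_cons]

theorem gc_stt (M : Prog) : gc M (stt (e :: l)) = cf M e.1 [] e.2 e.2.length := by
  rw [gc, gx_stt, ga_stt]

end

section

variable {X C : Lang} {N0 : ℕ} {M : Prog} {p : Polynomial ℕ}

theorem gs_fin (b : Bool) : gs X C N0 M p (pr [b] []) = pr [b] [] := by
  rw [gs, PC.snd_pr, if_pos (by rfl)]

theorem gs_small (x ans : Str) (l : List (Str × Str)) (hx : x.length < N0) :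
    gs X C N0 M p (stt ((x, ans) :: l)) = rets (C x) l := by
  rw [gs, snd_stt, ac_cons_ne, if_neg (by simp), gx_stt, if_pos (by simpa using hx), gr_stt, ret_ac]

theorem gs_done (x ans : Str) (l : List (Str × Str)) (hx : N0 ≤ x.length)
    (ha : p.eval x.length ≤ ans.length) :
    gs X C N0 M p (stt ((x, ans) :: l)) = rets (top (cf M x [] ans ans.length)) l := by
  rw [gs, snd_stt, ac_cons_ne, if_neg (by simp), gx_stt, if_neg (by simpa using hx), ga_stt,
    if_pos (by simpa using ha), gr_stt, ret_ac, gc_stt]

theorem gs_run (x ans : Str) (l : List (Str × Str)) (hx : N0 ≤ x.length)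
    (ha : ans.length < p.eval x.length) :
    gs X C N0 M p (stt ((x, ans) :: l)) =
      match qry (cf M x [] ans ans.length) with
      | none => stt ((x, ans ++ [false]) :: l)
      | some [] => stt ((x, ans ++ [false]) :: l)
      | some (false :: w) => stt ((x, ans ++ [X w]) :: l)
      | some (true :: w) => if w.length * w.length ≤ x.length then stt ((w, []) :: (x, ans) :: l)
          else stt ((x, ans ++ [false]) :: l) := by
  have hq : gq M (stt ((x, ans) :: l)) = oc (qry (cf M x [] ans ans.length)) := by
    rw [gq, gc_stt]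
  rw [gs, snd_stt, ac_cons_ne, if_neg (by simp), gx_stt, if_neg (by simpa using hx), ga_stt,
    if_neg (by simpa using ha), hq]
  rcases qry (cf M x [] ans ans.length) with _ | q
  · rw [if_pos (by rfl), gapp_stt]
  · rcases q with _ | ⟨b, w⟩
    · rw [if_pos (by rfl), gapp_stt]
    · rw [if_neg (by simp [oc])]
      cases b
      · rw [if_neg (by simp [oc]), gapp_stt]
        rfl
      · rw [if_pos (by simp [oc])]
        have e1 : (oc (some (true :: w))).tail.tail = w := rfl
        rw [e1, gapp_stt]
        by_cases hw : w.length * w.length ≤ x.length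
        · rw [if_pos (by simpa using hw)]
          simp only [hw, if_true]
          rw [stt, ac_cons, ac_cons, ac_cons]
        · rw [if_neg (by simpa using hw)]
          simp only [hw, if_false]

/-- The oracle that helps on the input `x`. -/
def OO (X C : Lang) (x : Str) : Lang :=
  join X (fun w => decide (w.length ^ 2 ≤ x.length) && C w)

/-- The bound for the lengths of the states. -/
noncomputable def Bd (p : Polynomial ℕ) (n : ℕ) : ℕ := (n + 1) * (4 * n + 2 * p.eval n + 3) + 4

theorem trueAns_succ (O : Lang) (c : Cfg) (i : ℕ) : trueAns O c (i + 1) =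
    trueAns O c i ++ [match qry (runN O i c) with
      | some q => O q
      | none => false] := by
  rw [trueAns, List.range_succ, List.map_append]
  rfl

theorem trueAns_length (O : Lang) (c : Cfg) (i : ℕ) : (trueAns O c i).length = i := by
  simp [trueAns]

theorem cf_true (O : Lang) (x : Str) (i : ℕ) :
    cf M x [] (trueAns O ([M], inp2 x []) i) (trueAns O ([M], inp2 x []) i).length =
      runN O i ([M], inp2 x []) := by
  rw [trueAns_length]
  exact trueAns_spec O ([M], inp2 x []) i i le_rfl

/-- The bound for the number of steps. -/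
def EE (D n : ℕ) : ℕ := (n + 2) ^ D

theorem EE_mono (D : ℕ) {m n : ℕ} (h : m ≤ n) : EE D m ≤ EE D n :=
  Nat.pow_le_pow_left (by omega) D

theorem EE_step {a n P : ℕ} (hn : 2 ≤ n) (hP : P ≤ n ^ a) :
    1 + P * (1 + EE (10 * a + 8) n.sqrt) ≤ EE (10 * a + 8) n := by
  unfold EE
  set m := n.sqrt with hm
  have hm2 : m * m ≤ n := Nat.sqrt_le n
  have h1 : (m + 2) ^ 2 ≤ 3 * (n + 2) := by nlinarith [sq_nonneg ((m : ℤ) - 1)]
  have h2 : (m + 2) ^ (10 * a + 8) ≤ (3 * (n + 2)) ^ (5 * a + 4) := by
    have : 10 * a + 8 = 2 * (5 * a + 4) := by ring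
    rw [this, pow_mul]
    exact Nat.pow_le_pow_left h1 _
  set s := n + 2 with hs
  have h3 : n ^ a ≤ s ^ a := Nat.pow_le_pow_left (by omega) a
  have h4 : 1 ≤ (3 * s) ^ (5 * a + 4) := Nat.one_le_pow _ _ (by omega)
  have h5 : 1 ≤ s ^ a := Nat.one_le_pow _ _ (by omega)
  have h6 : 1 + P * (1 + (m + 2) ^ (10 * a + 8)) ≤ 3 * (s ^ a * (3 * s) ^ (5 * a + 4)) := by
    have h7 : P * (1 + (m + 2) ^ (10 * a + 8)) ≤ s ^ a * (1 + (3 * s) ^ (5 * a + 4)) :=
      Nat.mul_le_mul (hP.trans h3) (by omega)
    have h8 : 1 * 1 ≤ s ^ a * (3 * s) ^ (5 * a + 4) := Nat.mul_le_mul h5 h4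
    have h9 : s ^ a * 1 ≤ s ^ a * (3 * s) ^ (5 * a + 4) := Nat.mul_le_mul_left _ h4
    have h10 : P * (1 + (m + 2) ^ (10 * a + 8)) = P + P * (m + 2) ^ (10 * a + 8) := by ring
    have h11 : s ^ a * (1 + (3 * s) ^ (5 * a + 4)) = s ^ a + s ^ a * (3 * s) ^ (5 * a + 4) := by ring
    omega
  refine h6.trans ?_
  have h10 : 3 * (s ^ a * (3 * s) ^ (5 * a + 4)) = 243 ^ (a + 1) * (s ^ a * s ^ (5 * a + 4)) := by
    have : (243 : ℕ) ^ (a + 1) = 3 * 3 ^ (5 * a + 4) := by
      have h : (243 : ℕ) = 3 ^ 5 := by norm_num
      rw [h, ← pow_mul, ← pow_succ']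
      congr 1
    rw [this, mul_pow]
    ring
  rw [h10]
  have h11 : (243 : ℕ) ^ (a + 1) ≤ s ^ (4 * (a + 1)) := by
    rw [pow_mul]
    refine Nat.pow_le_pow_left ?_ _
    have : 4 ≤ s := by omega
    calc (243 : ℕ) ≤ 4 ^ 4 := by norm_num
      _ ≤ s ^ 4 := Nat.pow_le_pow_left this 4
  calc 243 ^ (a + 1) * (s ^ a * s ^ (5 * a + 4))
      ≤ s ^ (4 * (a + 1)) * (s ^ a * s ^ (5 * a + 4)) := Nat.mul_le_mul_right _ h11
    _ = s ^ (10 * a + 8) := by
      rw [← pow_add, ← pow_add]
      congr 1
      ring

theorem run_frame {a : ℕ} (hN : 2 ≤ N0) (hp : ∀ n, 2 ≤ n → p.eval n ≤ n ^ a)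
    (h : ∀ x : Str, N0 ≤ x.length → accepts (OO X C x) M (inp x) (p.eval x.length) = C x) :
    ∀ (n : ℕ) (x : Str), x.length = n → ∀ l : List (Str × Str), ∃ k ≤ EE (10 * a + 8) n,
      Reach (gs X C N0 M p) (stt ((x, []) :: l)) (rets (C x) l) k ((ac l).length + Bd p n) := by
  intro n
  induction n using Nat.strong_induction_on with
  | _ n ih =>
    intro x hx l
    have hB0 : 4 * n + 2 * p.eval n + 7 ≤ Bd p n := by
      unfold Bd
      nlinarith [Nat.zero_le n, Nat.zero_le (p.eval n)]
    by_cases hn : n < N0
    · refine ⟨1, Nat.one_le_pow _ _ (by omega), Reach.one (gs_small x [] l (by omega)) ?_ ?_⟩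
      · rw [stt_length, ac_length_cons]
        simp only [List.length_nil]
        omega
      · have := rets_length (C x) l
        omega
    · push Not at hn
      have hn2 : 2 ≤ n := by omega
      set O := OO X C x with hO
      set c : Cfg := ([M], inp2 x []) with hc
      set Em := EE (10 * a + 8) n.sqrt with hEm
      have hloop : ∀ i ≤ p.eval n, ∃ k ≤ i * (1 + Em),
          Reach (gs X C N0 M p) (stt ((x, []) :: l)) (stt ((x, trueAns O c i) :: l)) k
            ((ac l).length + Bd p n) := by
        intro i
        induction i with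
        | zero =>
          intro _
          refine ⟨0, by omega, ?_⟩
          have e0 : trueAns O c 0 = [] := rfl
          rw [e0]
          refine Reach.refl ?_
          rw [stt_length, ac_length_cons]
          simp only [List.length_nil]
          omega
        | succ i IH =>
          intro hi
          obtain ⟨k, hk, hR⟩ := IH (by omega)
          have hlen : ∀ j ≤ p.eval n, (stt ((x, trueAns O c j) :: l)).length ≤
              (ac l).length + Bd p n := by
            intro j hj
            rw [stt_length, ac_length_cons, trueAns_length]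
            simp only
            omega
          have hg := gs_run (X := X) (C := C) (N0 := N0) (M := M) (p := p) x (trueAns O c i) l
            (by omega) (by rw [trueAns_length, hx]; omega)
          rw [cf_true] at hg
          rw [← hc] at hg
          have hs := trueAns_succ O c i
          have hone : ∀ b : Bool, gs X C N0 M p (stt ((x, trueAns O c i) :: l)) =
              stt ((x, trueAns O c i ++ [b]) :: l) →
              (trueAns O c (i + 1) = trueAns O c i ++ [b]) → ∃ k ≤ (i + 1) * (1 + Em),
              Reach (gs X C N0 M p) (stt ((x, []) :: l)) (stt ((x, trueAns O c (i + 1)) :: l)) k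
                ((ac l).length + Bd p n) := by
            intro b e1 e2
            refine ⟨1 + k, by rw [Nat.add_mul]; omega, hR.trans (Reach.one ?_ ?_ ?_)⟩
            · rw [e1, e2]
            · exact hlen i (by omega)
            · exact hlen (i + 1) hi
          rcases hq : qry (runN O i c) with _ | q
          · rw [hq] at hg hs
            exact hone false hg hs
          · rcases q with _ | ⟨b, w⟩
            · rw [hq] at hg hs
              exact hone false hg hs
            · cases b
              · rw [hq] at hg hs
                exact hone (X w) hg hs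
              · rw [hq] at hg hs
                have e3 : O (true :: w) = (decide (w.length ^ 2 ≤ x.length) && C w) := rfl
                simp only at hg hs
                rw [e3] at hs
                by_cases hw : w.length * w.length ≤ x.length
                · rw [if_pos hw] at hg
                  rw [pow_two, decide_eq_true hw, Bool.true_and] at hs
                  have hwn : w.length < n := by
                    by_contra hcon
                    push Not at hcon
                    have : n * n ≤ w.length * w.length := Nat.mul_le_mul hcon hcon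
                    nlinarith
                  have hwm : w.length ≤ n.sqrt := by
                    rw [Nat.le_sqrt, ← hx]
                    exact hw
                  obtain ⟨k1, hk1, hR1⟩ := ih w.length hwn w rfl ((x, trueAns O c i) :: l)
                  have hk2 : k1 ≤ Em := hk1.trans (EE_mono _ hwm)
                  have hb1 : (ac ((x, trueAns O c i) :: l)).length + Bd p w.length ≤
                      (ac l).length + Bd p n := by
                    rw [ac_length_cons, trueAns_length]
                    simp only
                    have hpm := PC.eval_mono p hwn.le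
                    unfold Bd
                    have h5 : (w.length + 1) * (4 * w.length + 2 * p.eval w.length + 3) ≤
                        n * (4 * n + 2 * p.eval n + 3) :=
                      Nat.mul_le_mul (by omega) (by omega)
                    have h6 : (n + 1) * (4 * n + 2 * p.eval n + 3) =
                        n * (4 * n + 2 * p.eval n + 3) + (4 * n + 2 * p.eval n + 3) := by ring
                    rw [h6]
                    omega
                  have hR2 := hR1.mono hb1
                  refine ⟨k1 + (1 + k), ?_, (hR.trans (Reach.one hg (hlen i (by omega)) ?_)).trans ?_⟩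
                  · rw [Nat.add_mul]
                    omega
                  · exact hR2.2 0 (by omega)
                  · have e4 : rets (C w) ((x, trueAns O c i) :: l) =
                        stt ((x, trueAns O c (i + 1)) :: l) := by
                      rw [hs]
                      rfl
                    rw [← e4]
                    exact hR2
                · rw [if_neg hw] at hg
                  rw [pow_two, decide_eq_false hw, Bool.false_and] at hs
                  exact hone false hg hs
      obtain ⟨k, hk, hR⟩ := hloop (p.eval n) le_rfl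
      have hd := gs_done (X := X) (C := C) (N0 := N0) (M := M) (p := p) x
        (trueAns O c (p.eval n)) l (by omega) (by rw [trueAns_length, hx])
      have e5 : top (cf M x [] (trueAns O c (p.eval n)) (trueAns O c (p.eval n)).length) = C x := by
        rw [hc, cf_true, ← h x (by omega), inp_eq, hx]
        rfl
      rw [e5] at hd
      refine ⟨1 + k, ?_, hR.trans (Reach.one hd (hR.1 ▸ hR.2 k le_rfl) ?_)⟩
      · have := EE_step (a := a) hn2 (hp n hn2)
        rw [← hEm] at this
        omega
      · have := rets_length (C x) l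
        omega

end

/-- Recursion with queries of length at most the square root. -/
theorem shrink {X C : Lang} (n0 : ℕ) (M : Prog) (p : Polynomial ℕ)
    (h : ∀ x : Str, n0 ≤ x.length →
      accepts (join X (fun w => decide (w.length ^ 2 ≤ x.length) && C w)) M (inp x)
        (p.eval x.length) = C x) : C ∈ PO X := by
  obtain ⟨a, ha⟩ := Pool.Agent.Lib.Pa76659.poly_le p
  set N0 := max n0 2 with hN0
  have hrun := run_frame (X := X) (C := C) (N0 := N0) (M := M) (p := p) (a := a)
    (le_max_right _ _) ha (fun x hx => h x ((le_max_left _ _).trans hx))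
  refine mem_PO ?_
  have hit : PolyC (fun _ : Str => X) (fun _ => True) [fun x => x]
      (fun x => (gs X C N0 M p)^[EE (10 * a + 8) x.length] (stt [(x, [])])) := by
    refine PolyC.iter (g := fun _ w => gs X C N0 M p w) (gs_poly X C N0 M p (PolyC.var (by simp)))
      ?_ ?_ ⟨(Polynomial.X + 1) * (4 * Polynomial.X + 2 * p + 3) + 4, ?_⟩
    · have hv : PolyC (fun _ : Str => X) (fun _ => True) [fun x => x] (fun x : Str => x) :=
        PolyC.var (by simp)
      exact (PolyC.pr PolyC.nil (PolyC.pr (PolyC.pr hv PolyC.nil) PolyC.nil))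
    · have hv : PolyC (fun _ : Str => X) (fun _ => True) [fun x => x] (fun x : Str => x) :=
        PolyC.var (by simp)
      refine (PolyN.poly (PolyN.length hv) ((Polynomial.X + 2) ^ (10 * a + 8))).congr ?_
      intro x _
      simp [EE]
    · intro x _ j hj
      obtain ⟨k, hk, hR⟩ := hrun x.length x rfl []
      have e1 : ((Polynomial.X + 1) * (4 * Polynomial.X + 2 * p + 3) + 4 : Polynomial ℕ).eval
          (total (vals [fun x : Str => x] x)) = Bd p x.length := by
        simp [Bd]
      rw [e1]
      by_cases hjk : j ≤ k
      · have := hR.2 j hjk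
        rw [ac_nil] at this
        simpa using this
      · obtain ⟨i, rfl⟩ : ∃ i, j = i + k := ⟨j - k, by omega⟩
        have h2 := hR.2 k le_rfl
        rw [hR.1, ac_nil] at h2
        rw [Function.iterate_add_apply, hR.1]
        have h3 : (gs X C N0 M p)^[i] (rets (C x) []) = rets (C x) [] :=
          Function.iterate_fixed (gs_fin (C x)) i
        rw [h3]
        simpa using h2
  refine (PolyB.headD (PolyC.fst hit)).congr ?_
  intro x _
  obtain ⟨k, hk, hR⟩ := hrun x.length x rfl []
  obtain ⟨i, hi⟩ : ∃ i, EE (10 * a + 8) x.length = i + k := ⟨_ - k, (Nat.sub_add_cancel hk).symm⟩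
  have h3 : (gs X C N0 M p)^[i] (rets (C x) []) = rets (C x) [] :=
    Function.iterate_fixed (gs_fin (C x)) i
  rw [hi, Function.iterate_add_apply, hR.1, h3]
  show (fst (pr [C x] [])).headD false = C x
  rw [PC.fst_pr]
  rfl

/-- the same for functions computed in the calculus of `PolyB` -/
theorem shrink' {X C : Lang} (n0 : ℕ)
    (h : PolyB (fun x : Str => join X (fun w => decide (w.length ^ 2 ≤ x.length) && C w))
      (fun x => n0 ≤ x.length) [fun x => x] C) : C ∈ PO X := by
  obtain ⟨P, p, hP⟩ := h
  refine shrink n0 (.seq P (.seq (clear 0) (move 1 0 2))) (p + 2 * Polynomial.X + 20)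
    fun x hx => ?_
  obtain ⟨n, hn, hr⟩ := hP x hx
  set O : Lang := join X (fun w => decide (w.length ^ 2 ≤ x.length) && C w) with hO
  simp only [vals_cons, vals_nil, total_cons, total_nil, Nat.add_zero, List.cons_append,
    List.nil_append] at hn hr
  have h1 := run_clear (O := O) 0 (R [x, [C x]])
  have e1 : Function.update (R [x, [C x]]) 0 [] = R [[], [C x]] := R_update [] x [] [[C x]]
  have e2 : R [x, [C x]] 0 = x := R_length [] x [[C x]]
  rw [e1, e2] at h1
  have h2 := run_move (O := O) (r := 1) (s := 0) (tmp := 2) (by omega) (by omega) (by omega)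
    (R [[], [C x]]) (by rw [R_of_ge]; simp)
  have e3 : R [[], [C x]] 1 = [C x] := R_length [[]] [C x] []
  have e4 : R [[], [C x]] 0 = [] := R_length [] [] [[C x]]
  have e5 : Function.update (R [[], [C x]]) 1 [] = R [[], []] := R_update [[]] [C x] [] []
  have e6 : Function.update (R [[], []]) 0 [C x] = R [[C x], []] := R_update [] [] [C x] [[]]
  rw [e3, e4, e5, List.append_nil, e6] at h2
  have h3 := (Run.seq hr (Run.seq h1 h2)).exec
  have e7 : R [x] = inp x := by
    funext i
    rcases i with _ | i
    · simp [R, inp]
    · simp [R, inp]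
  rw [e7] at h3
  have h4 := h3.halts (N := (p + 2 * Polynomial.X + 20).eval x.length) (by
    simp only [Polynomial.eval_add, Polynomial.eval_mul, Polynomial.eval_X, Polynomial.eval_ofNat,
      List.length_singleton]
    omega)
  rw [h4.2]
  have e8 : R [[C x], []] 0 = [C x] := R_length [] [C x] [[]]
  rw [e8]
  cases C x <;> rfl

end Pool.Agent.Lib.Pa76659T
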