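import Pool.Agent.Lib.Pa76659T.Base
import Pool.Agent.Lib.Pa76659T.Fam
import Pool.Agent.Lib.Pa76659T.Uni
import Pool.Agent.Lib.Pa76659T.Shrink
import Pool.Agent.Lib.Pa76659G.HhA

set_option autoImplicit false

/-!
`\hat H_1 ≠ H_1` relative to generic tally oracles, if `P ≠ NP`.

Proof. `CX X c = KU (join X (tl (fst c))) (snd c)` is in NPO X (`KU_index`, `Tr.sEval_param (tl_fam X) pid [i]`,
`pid_eval`) and KU X reduces to it (`KU X ∈ NPO (join X (tl []))`, `Unv.KU_hard`), so CX X ∉ PO X. T = Phi X G,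
X' = join X T, K = KU X'. K is Turing complete: K ∈ RHighSucc X' 0 (KU_tcomp, `tcomp_high`, `high_rhigh`). If
High X' 1 ⊆ RHighSucc X' 0 then RHighSucc X' 0 = High X' 1 (rhigh_high) and (D) of WorstCaseHigh, ie `cost_high2`
(see Results/MP_a76659_lc/WorstCaseHigh.lean), gives ShortAll X' K 3. With B y = CX X (nth (cont T |y|) 1) in NPO X' and
f y = [B y] in FPO B: there are M, p with
accepts (join X' (short 3 n K)) M (inp (on1 n)) (p n) = CX X (nth (cont T n) 1) for all n. `forced` with both sides as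
functions of v, n = |v| (local: KU is local by `KU_index`, accepts by accepts_congr). z = mk 0 x [],
n = N + 2 |z| + 1. In `join (join X (put S n z)) (short 3 n (KU (join X (put S n z))))`: for |w|^3 ≤ n (so |w| ≤ n) the
value KU (join X (put S n z)) w = KU (join X S) w (`KU_local`, `put_below`) = CX X (pr (tabT S N) w) (`tl_fin`), and
|pr (tabT S N) w|^2 = (2 N + 1 + |w|)^2 ≤ |x| for all large x. So CX X x is computed in polynomial time with queries
to X and queries of length at most |x|^(1/2) to CX X: `shrink'` (use `PolyB.accepts`, which simulates a machine with a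
computed oracle), contradiction.
-/

namespace Pool.Agent.Lib.Pa76659T

open Pool.Agent.Lib.Pa76659 Pool.Agent.Lib.Pa76659G Pool.Agent.Lib.Pa76659G.PC
open Pool.Agent.Lib.Pa76659H (High RHighSucc TComp)

/-- the complete set with tables -/
noncomputable def CX (X : Lang) : Lang := fun c => Unv.KU (join X (tl (fst c))) (snd c)

/-- the complete set with tables is in `NP(X)` -/
theorem CX_mem (X : Lang) : CX X ∈ NPO X := by
  obtain ⟨i, hi⟩ := KU_index
  obtain ⟨L', hL', h⟩ := Tr.sEval_param (tl_fam X) pid [i]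
  obtain ⟨B, hB, hL⟩ := hL'
  have h1 : L' ∈ NPO X := NPO_subset hB hL
  have hx : PolyC (fun _ : Str => X) (fun _ => True) [fun x => x] (fun x => x) :=
    PolyC.var (by simp)
  have h2 := NPO_comp h1 (f := fun x => Pa76659G.pr (fst x) (snd x))
    (PolyC.pr (PolyC.fst hx) (PolyC.snd hx))
  have e : CX X = fun x => L' (Pa76659G.pr (fst x) (snd x)) := by
    funext c
    rw [h]
    show Unv.KU (join X (tl (fst c))) (snd c) = nEval i (pEval pid (join X (tl (fst c)))) (snd c)
    rw [pid_eval, ← hi]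
  rw [e]
  exact h2

theorem CX_hard {X : Lang} (h : CX X ∈ PO X) : Unv.KU X ∈ PO X := by
  obtain ⟨red, h1, h2⟩ := Unv.KU_hard (NPO_subset (left_PO X (tl [])) (Unv.KU_mem X))
  refine mem_PO ((polyB_of_PO h (PolyC.pr PolyC.nil (h1 X))).congr fun x _ => ?_)
  show CX X (Pa76659G.pr [] (red x)) = Unv.KU X x
  unfold CX
  rw [PC.fst_pr, PC.snd_pr, h2]

namespace P5

/-- a language of `P(X)` is computable with an oracle which contains `X` -/
theorem polyB_over {α : Type} {orc : α → Lang} {X L : Lang} {D : α → Prop}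
    (horc : ∀ a v, orc a (false :: v) = X v) (h : L ∈ PO X)
    {ctx : List (α → Str)} {t : α → Str} (ht : PolyC orc D ctx t) :
    PolyB orc D ctx (fun a => L (t a)) := by
  obtain ⟨p, hp⟩ := exists_pEval h
  have hv : PolyC (fun p : α × Str => orc p.1) (fun p => D p.1) (PC.lift ctx ++ [fun p => p.2])
      (fun p => p.2) := PolyC.var (by simp)
  have h0 : PolyC (fun p : α × Str => orc p.1) (fun p => D p.1) (PC.lift ctx ++ [fun p => p.2])
      (fun p => [orc p.1 (false :: p.2)]) := PolyC.query (PolyC.cons false hv)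
  have h00 : PolyB (fun p : α × Str => orc p.1) (fun p => D p.1) (PC.lift ctx ++ [fun p => p.2])
      (fun p => orc p.1 (false :: p.2)) := h0
  have h1 := PolyB.pEval (orc := orc) (D := D) (ctx := ctx) p (fun _ => X) t
    (h00.congr (fun a _ => horc _ _)) ht
  rw [hp]
  exact h1

/-- the left side -/
noncomputable def FL (X : Lang) (i : PIx) (T : Lang) : Lang := fun v =>
  accepts (join (join X T) (short 3 v.length (Unv.KU (join X T)))) i.1 (inp (on1 v.length))
    (i.2.eval v.length)

/-- the right side -/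
noncomputable def FR (X T : Lang) : Lang := fun v => CX X (nth (cont T v.length) 1)

theorem loc_FL (X : Lang) (i : PIx) : Loc (FL X i) := by
  intro n
  refine ⟨n + i.2.eval n, fun O O' h x hx => ?_⟩
  unfold FL
  rw [inp_eq]
  refine accepts_congr fun q hq => ?_
  have hp := eval_mono i.2 hx
  have hq' : q.length ≤ n + i.2.eval n := by
    rw [on1_length] at hq
    simp only [List.length_nil, Nat.add_zero] at hq
    omega
  have hj : ∀ w : Str, w.length ≤ n + i.2.eval n → join X O w = join X O' w := by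
    intro w hw
    rcases w with _ | ⟨b, v⟩
    · rfl
    · cases b
      · rfl
      · exact h v (by simp only [List.length_cons] at hw; omega)
  rcases q with _ | ⟨b, v⟩
  · rfl
  · simp only [List.length_cons] at hq'
    cases b
    · exact hj v (by omega)
    · show short 3 x.length (Unv.KU (join X O)) v = short 3 x.length (Unv.KU (join X O')) v
      unfold short
      rw [KU_local (O := join X O) (O' := join X O') fun w hw => hj w (by omega)]

theorem loc_FR (X : Lang) : Loc (FR X) :=
  loc_of_cont (fun _ z => CX X (nth z 1)) (fun c => c.length) (fun _ => le_rfl)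

theorem num {N l m : ℕ} (hl : l ^ 3 ≤ 4 * m + N + 7)
    (hm : 4 * (2 * N + 1) ^ 2 + N + 1607 ≤ m) : (2 * N + 1 + l) ^ 2 ≤ m := by
  have h1 : (2 * N + 1 + l) ^ 2 ≤ 2 * (2 * N + 1) ^ 2 + 2 * l ^ 2 := by
    zify
    nlinarith [sq_nonneg ((2 * N + 1 : ℤ) - l)]
  have h2 : 4 * l ^ 2 ≤ m := by
    rcases le_or_gt 20 l with h3 | h3
    · have h4 : 20 * l ^ 2 ≤ l ^ 3 := by
        rw [pow_succ l 2, mul_comm]
        exact Nat.mul_le_mul_left _ h3
      omega
    · have h4 : l ^ 2 ≤ 20 ^ 2 := Nat.pow_le_pow_left h3.le 2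
      omega
  omega

/-- the block into which the instance is written -/
def bn (N : ℕ) (x : Str) : ℕ := 4 * x.length + N + 7

theorem bn_eq (N : ℕ) (x : Str) : N + (2 * (mk 0 x []).length + 1) = bn N x := by
  rw [mk_length, bn]
  simp only [List.length_nil]
  omega

theorem KU_put {X S : Lang} {N : ℕ} (hT : Tally S) (hS : ∀ v : Str, N ≤ v.length → S v = false)
    {n : ℕ} {z w : Str} (hw : w.length ≤ n) :
    Unv.KU (join X (put S n z)) w = CX X (Pa76659G.pr (tabT S N) w) := by
  unfold CX
  rw [PC.fst_pr, PC.snd_pr, tl_fin hT hS]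
  refine KU_local fun v hv => ?_
  rcases v with _ | ⟨b, u⟩
  · rfl
  · cases b
    · rfl
    · exact put_below (by simp only [List.length_cons] at hv; omega)

theorem le_cube (l : ℕ) : l ≤ l ^ 3 := Nat.le_self_pow (by norm_num) l

/-- the virtual oracle -/
noncomputable def VO (X S : Lang) (N : ℕ) (x : Str) : Lang :=
  join (join X (put S (bn N x) (mk 0 x [])))
    (fun w => decide (w.length ^ 3 ≤ bn N x) && CX X (Pa76659G.pr (tabT S N) w))

theorem VO_eq {X S : Lang} {N : ℕ} (hT : Tally S) (hS : ∀ v : Str, N ≤ v.length → S v = false)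
    (x : Str) : VO X S N x = join (join X (put S (bn N x) (mk 0 x [])))
      (short 3 (bn N x) (Unv.KU (join X (put S (bn N x) (mk 0 x []))))) := by
  unfold VO
  congr 1
  funext w
  unfold short
  by_cases h : w.length ^ 3 ≤ bn N x
  · rw [KU_put hT hS ((le_cube _).trans h)]
  · rw [decide_eq_false h]
    rfl

section
variable {α : Type} {orc : α → Lang} {D : α → Prop} {ctx : List (α → Str)}

theorem bn_poly (N : ℕ) {x : α → Str} (hx : PolyC orc D ctx x) :
    PolyN orc D ctx (fun a => bn N (x a)) :=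
  (((PolyN.const 4).mul (PolyN.length hx)).add (PolyN.const N)).add (PolyN.const 7)

theorem mk_poly {x : α → Str} (hx : PolyC orc D ctx x) :
    PolyC orc D ctx (fun a => mk 0 (x a) []) :=
  PolyC.pr (PolyC.const (on1 0)) (PolyC.pr hx (PolyC.pr PolyC.nil PolyC.nil))

theorem put_poly {X S : Lang} {N : ℕ} (hS : ∀ v : Str, N ≤ v.length → S v = false)
    (horc : ∀ a v, orc a (false :: v) = X v) {x u : α → Str} (hx : PolyC orc D ctx x)
    (hu : PolyC orc D ctx u) :
    PolyB orc D ctx (fun a => join X (put S (bn N (x a)) (mk 0 (x a) [])) (u a)) := by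
  have h1 : PolyC orc D ctx (fun a => Pa76659G.pr (Pa76659G.pr (on1 (bn N (x a)))
      (mk 0 (x a) [])) (u a)) :=
    PolyC.pr (PolyC.pr (bn_poly N hx) (mk_poly hx)) hu
  refine (polyB_over horc (put_fam (X := X) hS) h1).congr fun a _ => ?_
  show join X (put S (fst (fst (Pa76659G.pr (Pa76659G.pr (on1 (bn N (x a)))
      (mk 0 (x a) [])) (u a)))).length (snd (fst (Pa76659G.pr (Pa76659G.pr (on1 (bn N (x a)))
      (mk 0 (x a) [])) (u a))))) (snd (Pa76659G.pr (Pa76659G.pr (on1 (bn N (x a)))
      (mk 0 (x a) [])) (u a))) = _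
  rw [PC.fst_pr, PC.snd_pr, PC.fst_pr, PC.snd_pr, on1_length]

end

/-- the oracle of the shrinking lemma -/
noncomputable def so (X : Lang) (x : Str) : Lang :=
  join X (fun w => decide (w.length ^ 2 ≤ x.length) && CX X w)

theorem VO_poly {X S : Lang} {N : ℕ} (hS : ∀ v : Str, N ≤ v.length → S v = false) :
    PolyB (fun p : Str × Str => so X p.1)
      (fun p => 4 * (2 * N + 1) ^ 2 + N + 1607 ≤ p.1.length)
      (PC.lift [fun x => x] ++ [fun p => p.2]) (fun p => VO X S N p.1 p.2) := by
  have hx : PolyC (fun p : Str × Str => so X p.1)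
      (fun p => 4 * (2 * N + 1) ^ 2 + N + 1607 ≤ p.1.length)
      (PC.lift [fun x => x] ++ [fun p => p.2]) (fun p => p.1) := PolyC.var (by simp [PC.lift])
  have hw : PolyC (fun p : Str × Str => so X p.1)
      (fun p => 4 * (2 * N + 1) ^ 2 + N + 1607 ≤ p.1.length)
      (PC.lift [fun x => x] ++ [fun p => p.2]) (fun p => p.2) := PolyC.var (by simp)
  have h1 : PolyC (fun p : Str × Str => so X p.1)
      (fun p => 4 * (2 * N + 1) ^ 2 + N + 1607 ≤ p.1.length)
      (PC.lift [fun x => x] ++ [fun p => p.2])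
      (fun p => [join X (put S (bn N p.1) (mk 0 p.1 [])) p.2.tail]) :=
    put_poly (X := X) hS (fun _ _ => rfl) hx hw.tail
  have h2 := PolyB.le ((PolyN.length hw.tail).poly (Polynomial.X ^ 3)) (bn_poly N hx)
  have h3 : PolyC (fun p : Str × Str => so X p.1)
      (fun p => 4 * (2 * N + 1) ^ 2 + N + 1607 ≤ p.1.length)
      (PC.lift [fun x => x] ++ [fun p => p.2])
      (fun p => [so X p.1 (true :: Pa76659G.pr (tabT S N) p.2.tail)]) :=
    PolyC.query (PolyC.cons true (PolyC.pr (PolyC.const _) hw.tail))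
  have h4 : PolyC (fun p : Str × Str => so X p.1)
      (fun p => 4 * (2 * N + 1) ^ 2 + N + 1607 ≤ p.1.length)
      (PC.lift [fun x => x] ++ [fun p => p.2])
      (fun p => [decide ((Polynomial.X ^ 3 : Polynomial ℕ).eval p.2.tail.length ≤ bn N p.1) &&
        so X p.1 (true :: Pa76659G.pr (tabT S N) p.2.tail)]) := PolyB.and h2 h3
  refine PolyC.congr (PolyC.cases hw (u0 := fun _ => [false])
    (u1 := fun p : Str × Str => [join X (put S (bn N p.1) (mk 0 p.1 [])) p.2.tail])
    (u2 := fun p : Str × Str => [decide ((Polynomial.X ^ 3 : Polynomial ℕ).eval p.2.tail.length ≤ bn N p.1) &&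
      so X p.1 (true :: Pa76659G.pr (tabT S N) p.2.tail)])
    (PolyC.const _) (PolyC.mono h1 fun _ h => h.1) (PolyC.mono h4 fun _ h => h.1)) ?_
  rintro ⟨x, w⟩ hD
  rcases w with _ | ⟨b, u⟩
  · rfl
  · cases b
    · rfl
    · show [decide ((Polynomial.X ^ 3 : Polynomial ℕ).eval u.length ≤ bn N x) &&
        so X x (true :: Pa76659G.pr (tabT S N) u)] =
        [decide (u.length ^ 3 ≤ bn N x) && CX X (Pa76659G.pr (tabT S N) u)]
      rw [Polynomial.eval_pow, Polynomial.eval_X]
      by_cases h : u.length ^ 3 ≤ bn N x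
      · have e : so X x (true :: Pa76659G.pr (tabT S N) u) =
            CX X (Pa76659G.pr (tabT S N) u) := by
          show (decide ((Pa76659G.pr (tabT S N) u).length ^ 2 ≤ x.length) &&
            CX X (Pa76659G.pr (tabT S N) u)) = _
          rw [PC.pr_length, tabT_length, decide_eq_true (num h hD), Bool.true_and]
        rw [e]
      · rw [decide_eq_false h]
        rfl

/-- The finite situation. -/
theorem fin {X S : Lang} {N : ℕ} (hT : Tally S) (hS : ∀ v : Str, N ≤ v.length → S v = false)
    (i : PIx) (hall : ∀ (n : ℕ) (z : Str), N ≤ n → 2 * z.length + 1 ≤ n → Val X z →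
      FL X i (put S n z) = FR X (put S n z)) : CX X ∈ PO X := by
  refine shrink' (4 * (2 * N + 1) ^ 2 + N + 1607) ?_
  have hx : PolyC (fun x : Str => so X x) (fun x => 4 * (2 * N + 1) ^ 2 + N + 1607 ≤ x.length)
    [fun x => x] (fun x => x) := PolyC.var (by simp)
  have h1 := PolyB.accepts (orc := fun x : Str => so X x)
    (D := fun x => 4 * (2 * N + 1) ^ 2 + N + 1607 ≤ x.length) (ctx := [fun x => x]) i.1
    (VO X S N) (fun x => on1 (bn N x)) (fun _ => []) (fun x => i.2.eval (bn N x)) (VO_poly hS)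
    (bn_poly N hx) PolyC.nil ((bn_poly N hx).poly i.2)
  refine h1.congr fun x _ => ?_
  have h2 := bn_eq N x
  have h3 := congrFun (hall (bn N x) (mk 0 x []) (by omega) (by omega)
    (Val_of_kd (by rw [kd_mk]; omega))) (on1 (bn N x))
  unfold FL FR at h3
  rw [on1_length, cont_put hS (by omega) (by omega), nth1_mk, ← VO_eq hT hS, inp_eq] at h3
  exact h3

end P5

theorem part_five {X : Lang} (h : Unv.KU X ∉ PO X) :
    ∀ᶠ G in residual Lang, ¬ (High (join X (Phi X G)) 1 ⊆ RHighSucc (join X (Phi X G)) 0) := by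
  have hf : ∀ᶠ G in residual Lang, ∀ i : PIx, P5.FL X i (Phi X G) = P5.FR X (Phi X G) →
      ∃ (N : ℕ) (S : Lang), Tally S ∧ (∀ v : Str, N ≤ v.length → S v = false) ∧
        ∀ (n : ℕ) (z : Str), N ≤ n → 2 * z.length + 1 ≤ n → Val X z →
          P5.FL X i (put S n z) = P5.FR X (put S n z) := by
    rw [eventually_countable_forall]
    intro i
    exact forced X (P5.loc_FL X i) (P5.loc_FR X)
  filter_upwards [hf] with G hG hsub
  set T := Phi X G with hT
  have hK : Unv.KU (join X T) ∈ RHighSucc (join X T) 0 :=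
    Pa76659H.high_rhigh (Pa76659H.tcomp_high (Unv.KU_tcomp (join X T)))
  have h1 : RHighSucc (join X T) 0 = High (join X T) 1 :=
    Set.Subset.antisymm Pa76659H.rhigh_high hsub
  have h2 := ((cost_high2 (join X T)).1 h1).2.2 _ hK 3
  have hx : PolyC (fun _ : Str => join X T) (fun _ => True) [fun x => x] (fun x => x) :=
    PolyC.var (by simp)
  have hB : P5.FR X T ∈ NPO (join X T) :=
    NPO_comp (NPO_subset (left_PO X T) (CX_mem X))
      (PolyC.nth (cont_poly (right_PO X T) (PolyN.length hx)) (PolyN.const 1))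
  have hy : PolyC (fun _ : Str => P5.FR X T) (fun _ => True) [fun x => x] (fun x => x) :=
    PolyC.var (by simp)
  have hF : (fun y => [P5.FR X T y]) ∈ FPO (P5.FR X T) := Uo.FPO_of_polyC (PolyB.qry hy)
  obtain ⟨M, p, hM⟩ := h2 _ hB _ hF
  have e : P5.FL X (M, p) T = P5.FR X T := by
    funext v
    have h3 := (hM v.length).2
    show accepts _ _ _ _ = _
    unfold accepts
    dsimp only
    rw [h3]
    show ([P5.FR X T (on1 v.length)].head? == some true) = P5.FR X T v
    unfold P5.FR
    rw [on1_length]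
    cases CX X (nth (cont T v.length) 1) <;> rfl
  obtain ⟨N, S, hS, hS0, hall⟩ := hG (M, p) e
  exact h (CX_hard (P5.fin hS hS0 (M, p) hall))

end Pool.Agent.Lib.Pa76659T
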