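import Pool.Agent.Lib.Pa76659T.Inf
import Pool.Agent.Lib.Pa76659T.P1
import Pool.Agent.Lib.Pa76659T.P5

set_option autoImplicit false

/-!
Exact statements: all tally oracles.

PROOF. Directions from left to right: `part_one`, `part_five` (contraposition; the residual filter is not trivial,
`Phi_tally`). From right to left: `join_sub` with k = 1 (NPO = Sig 1): let L ∈ NPO (join X T);
L' ∈ NPO X; the complement of L' is in NPO X (resp. L' ∈ PO X), and tabT T m is computable from z in PO (join X T)
(`tabT_poly`), so the complement of L is in NPO (join X T) (resp. L ∈ PO (join X T)).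
-/

namespace Pool.Agent.Lib.Pa76659T

open Pool.Agent.Lib.Pa76659 Pool.Agent.Lib.Pa76659G Pool.Agent.Lib.Pa76659G.PC
open Pool.Agent.Lib.Pa76659H (High RHighSucc TComp)

namespace ExactAux

theorem ex_res {P : Lang → Prop} (h : ∀ᶠ G in residual Lang, P G) : ∃ G, P G :=
  (dense_of_mem_residual h).nonempty

/-- the table as a polynomial-time function relative to `join X T` -/
theorem tab_red (X T : Lang) (F : Polynomial ℕ) :
    PolyC (fun _ : Str => join X T) (fun _ => True) [fun x => x]
      (fun z => pr (tabT T (F.eval z.length + 1)) z) := by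
  have hx : PolyC (fun _ : Str => join X T) (fun _ => True) [fun x => x] (fun x => x) :=
    PolyC.var (by simp)
  exact PolyC.pr (tabT_poly (right_PO X T) ((PolyN.length hx).poly F).succ) hx

theorem co_join {X T : Lang} (hT : Tally T) (h : ∀ L ∈ NPO X, (fun x => !(L x)) ∈ NPO X)
    {L : Lang} (hL : L ∈ NPO (join X T)) : (fun x => !(L x)) ∈ NPO (join X T) := by
  rw [← InfAux.sig_one] at hL
  obtain ⟨L', hL', F, hF⟩ := join_sub hT hL
  rw [InfAux.sig_one] at hL'
  have h1 := NPO_comp (NPO_subset (left_PO X T) (h L' hL')) (tab_red X T F)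
  have h2 : (fun z => !(L' (pr (tabT T (F.eval z.length + 1)) z))) = fun z => !(L z) :=
    funext fun z => by rw [hF z _ (Nat.lt_succ_self _)]
  rwa [h2] at h1

theorem po_join {X T : Lang} (hT : Tally T) (h : NPO X ⊆ PO X) :
    NPO (join X T) ⊆ PO (join X T) := by
  intro L hL
  rw [← InfAux.sig_one] at hL
  obtain ⟨L', hL', F, hF⟩ := join_sub hT hL
  rw [InfAux.sig_one] at hL'
  have h1 : L' ∈ PO (join X T) := PO_subset (left_PO X T) (h hL')
  exact mem_PO ((polyB_of_PO h1 (tab_red X T F)).congr fun z _ => hF z _ (Nat.lt_succ_self _))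

end ExactAux

open ExactAux

theorem exact_one (X : Lang) : (∀ T, Tally T → Low (join X T) 1 = RLowSucc (join X T) 1) ↔
    ∀ L ∈ NPO X, (fun x => !(L x)) ∈ NPO X := by
  constructor
  · intro h L hL
    have h0 : (fun z => !(Unv.KU X z)) ∈ NPO X := by
      by_contra hcon
      obtain ⟨G, hG⟩ := ex_res (part_one hcon)
      exact hG (h _ (Phi_tally X G)).symm.subset
    obtain ⟨red, hr1, hr2⟩ := Unv.KU_hard hL
    have h3 := NPO_comp h0 (hr1 X)
    have h4 : (fun x => !(Unv.KU X (red x))) = fun x => !(L x) := by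
      funext x
      rw [hr2]
    rwa [h4] at h3
  · intro h T hT
    refine Set.Subset.antisymm low_rlow fun A hA => ?_
    exact low1_iff.2 ⟨hA.1, co_join hT h hA.1⟩

theorem exact_high (X : Lang) : (∀ T, Tally T → RHighSucc (join X T) 0 = High (join X T) 1) ↔
    NPO X ⊆ PO X := by
  constructor
  · intro h L hL
    have h0 : Unv.KU X ∈ PO X := by
      by_contra hcon
      obtain ⟨G, hG⟩ := ex_res (part_five hcon)
      exact hG (h _ (Phi_tally X G)).symm.subset
    obtain ⟨red, hr1, hr2⟩ := Unv.KU_hard hL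
    exact mem_PO ((polyB_of_PO h0 (hr1 X)).congr fun x _ => hr2 x)
  · intro h T hT
    refine Set.Subset.antisymm Pool.Agent.Lib.Pa76659H.rhigh_high fun A hA => ?_
    refine Pool.Agent.Lib.Pa76659H.high_rhigh (Pool.Agent.Lib.Pa76659H.tcomp_high ⟨hA.1, ?_⟩)
    exact (po_join hT h).trans (PO_subset (left_PO _ A))

end Pool.Agent.Lib.Pa76659T
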