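import Pool.Agent.Lib.Pa76659G.UniK
import Pool.Agent.Lib.Pa76659G.Search

set_option autoImplicit false

/-!
Selectors: if the member of the complete set can be found in `P(X)` in pairs with exactly one member
then the complete set is in `P(X)`.
-/

namespace Pool.Agent.Lib.Pa76659T

open Pool.Agent.Lib.Pa76659 Pool.Agent.Lib.Pa76659G Pool.Agent.Lib.Pa76659G.PC

namespace SelAux

/-- the search for a witness with the selector -/
def gs (s : Str × Str → Bool) (red : Str → Str) (x : Str) : ℕ → Str
  | 0 => []
  | j + 1 => gs s red x j ++ [s (red (pr x (gs s red x j ++ [true])),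
      red (pr x (gs s red x j ++ [false])))]

theorem gs_length (s : Str × Str → Bool) (red : Str → Str) (x : Str) (j : ℕ) :
    (gs s red x j).length = j := by
  induction j with
  | zero => rfl
  | succ j ih => simp [gs, ih]

theorem PS_split {V : Str × Str → Bool} {l : Polynomial ℕ} {x g : Str}
    (h : PS V l x g = true) (hg : g.length < l.eval x.length) :
    PS V l x (g ++ [true]) = true ∨ PS V l x (g ++ [false]) = true := by
  obtain ⟨c, h1, h2, h3⟩ := PS_iff.1 h
  have h4 := take_succ_eq (c := c) (j := g.length) (by omega)
  rw [h2] at h4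
  rcases hb : c.getD g.length false with _ | _
  · right
    rw [hb] at h4
    exact PS_iff.2 ⟨c, h1, by rw [List.length_append, List.length_singleton, h4], h3⟩
  · left
    rw [hb] at h4
    exact PS_iff.2 ⟨c, h1, by rw [List.length_append, List.length_singleton, h4], h3⟩

theorem gs_inv {V : Str × Str → Bool} {l : Polynomial ℕ} {s : Str × Str → Bool}
    {red : Str → Str} {K : Lang} (hred : ∀ w, K (red w) = PSL V l w)
    (hs : ∀ a b, K a ≠ K b → s (a, b) = K a) {x : Str}
    (h : ∃ c : Str, c.length = l.eval x.length ∧ V (x, c) = true) :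
    ∀ j ≤ l.eval x.length, PS V l x (gs s red x j) = true
  | 0, _ => by
      obtain ⟨c, h1, h2⟩ := h
      exact PS_iff.2 ⟨c, h1, rfl, h2⟩
  | j + 1, hj => by
      have ih := gs_inv hred hs h j (by omega)
      have hsp := PS_split ih (by rw [gs_length]; omega)
      have e : ∀ b : Bool, K (red (pr x (gs s red x j ++ [b]))) =
          PS V l x (gs s red x j ++ [b]) := by
        intro b
        rw [hred]
        show PS V l (fst _) (snd _) = _
        rw [PC.fst_pr, PC.snd_pr]
      have hsel := hs (red (pr x (gs s red x j ++ [true]))) (red (pr x (gs s red x j ++ [false])))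
      rw [e true, e false] at hsel
      show PS V l x (gs s red x j ++ [s (red (pr x (gs s red x j ++ [true])),
        red (pr x (gs s red x j ++ [false])))]) = true
      rcases h1 : PS V l x (gs s red x j ++ [true]) with _ | _
      · rcases h2 : PS V l x (gs s red x j ++ [false]) with _ | _
        · rw [h1, h2] at hsp
          rcases hsp with h | h <;> cases h
        · rw [h1, h2] at hsel
          rw [hsel (by simp)]
          exact h2
      · rcases h2 : PS V l x (gs s red x j ++ [false]) with _ | _
        · rw [h1, h2] at hsel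
          rw [hsel (by simp)]
          exact h1
        · cases s (red (pr x (gs s red x j ++ [true])), red (pr x (gs s red x j ++ [false])))
          · exact h2
          · exact h1

theorem gs_poly {X : Lang} {s : Str × Str → Bool} {red : Str → Str}
    (hs : PolyB (fun _ : Str × Str => X) (fun _ => True) [fun p => p.1, fun p => p.2] s)
    (hred : PolyC (fun _ : Str => X) (fun _ => True) [fun x => x] red)
    {α : Type} {D : α → Prop} {ctx : List (α → Str)} {x : α → Str} {n : α → ℕ}
    (hx : PolyC (fun _ => X) D ctx x) (hn : PolyN (fun _ => X) D ctx n) :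
    PolyC (fun _ => X) D ctx (fun a => gs s red (x a) (n a)) := by
  obtain ⟨pn, hpn⟩ := PolyC.length_le hn
  have hcomp : ∀ {β : Type} {D' : β → Prop} {ctx' : List (β → Str)} {t : β → Str},
      PolyC (fun _ => X) D' ctx' t → PolyC (fun _ => X) D' ctx' (fun b => red (t b)) := by
    intro β D' ctx' t ht
    have h1 : PolyC (fun _ : β => X) D' ([fun x : Str => x].map (fun f => f ∘ t))
        (fun b => red (t b)) := PolyC.reindex (D' := D') hred t (fun _ _ => trivial)
    refine PolyC.comp h1 ?_
    intro f hf
    simp only [List.map_cons, List.map_nil, List.mem_singleton] at hf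
    subst hf
    exact ht
  refine PolyC.natRec (fun a k => gs s red (x a) k) hn PolyC.nil ?_
    ⟨pn, fun a ha k hk => ?_⟩
  · have h1 : PolyC (fun _ : α × ℕ => X) (fun p => D p.1 ∧ p.2 < n p.1)
        (PC.lift ctx ++ [fun p => una p.2, fun p => gs s red (x p.1) p.2])
        (fun p => gs s red (x p.1) p.2) := PolyC.var (by simp)
    have h2 : PolyC (fun _ : α × ℕ => X) (fun p => D p.1 ∧ p.2 < n p.1)
        (PC.lift ctx ++ [fun p => una p.2, fun p => gs s red (x p.1) p.2])
        (fun p => x p.1) := (hx.lift (fun p hp => hp.1)).weakenRight _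
    have h3 := PolyB.arg2 hs
      (hcomp (PolyC.pr h2 (h1.append (PolyC.const [true]))))
      (hcomp (PolyC.pr h2 (h1.append (PolyC.const [false]))))
    exact (h1.append h3).congr (fun p _ => rfl)
  · rw [gs_length]
    have := hpn a ha
    rw [PC.un_length] at this
    omega

end SelAux

open SelAux

/-- If the member of the complete set can be found in `P(X)` in all pairs with exactly one member then
the complete set is in `P(X)`. -/
theorem sel_PO {X : Lang} {s : Str × Str → Bool}
    (hs : PolyB (fun _ : Str × Str => X) (fun _ => True) [fun p => p.1, fun p => p.2] s)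
    (h : ∀ a b, Unv.KU X a ≠ Unv.KU X b → s (a, b) = Unv.KU X a) : Unv.KU X ∈ PO X := by
  obtain ⟨V, q, hV, hL⟩ := exists_of_NPO (Unv.KU_mem X)
  obtain ⟨red, hr1, hr2⟩ := Unv.KU_hard (PSL_mem (l := q) hV)
  have hx : PolyC (fun _ : Str => X) (fun _ => True) [fun x => x] (fun x => x) :=
    PolyC.var (by simp)
  have hg := gs_poly hs (hr1 X) hx ((PolyN.length hx).poly q)
  refine mem_PO ((PolyB.arg2 hV hx hg).congr (fun x _ => ?_))
  rw [Bool.eq_iff_iff, hL]
  constructor
  · intro h1
    exact ⟨_, gs_length _ _ _ _, h1⟩
  · intro h1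
    obtain ⟨c, h2, h3, h4⟩ := PS_iff.1 (gs_inv hr2 h h1 _ le_rfl)
    rw [gs_length, ← h2, List.take_length] at h3
    rw [← h2, ← h3]
    exact h4

end Pool.Agent.Lib.Pa76659T
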