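import Pool.Agent.Lib.Pa76659T.Base
import Pool.Agent.Lib.Pa76659T.Fam
import Pool.Agent.Lib.Pa76659T.Uni
import Pool.Agent.Lib.Pa76659T.Sel

set_option autoImplicit false

/-!
`\hat L_1 = P ≠ L_1` relative to generic tally oracles, if `P ≠ NP`.

PROOF. T = Phi X G, X' = join X T. `A2 X T c = (kd z = 2 and KU X (nth z 1))` with z = cont T |c| is in NPO X',
and by the promise its complement is `kd z ≠ 2 or KU X (nth z 2)`, also in NPO X'. So A2 ∈ Low X' 1
(`low1_iff`). If Low X' 1 ⊆ RLowSucc X' 0 then A2 = pEval p X'. `forced` gives N, S. For z = mk 2 x y,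
n = N + 2 |z| + 1 the value pEval p (join X (put S n z)) (on1 n) is a selector: `sel_PO`.
-/

namespace Pool.Agent.Lib.Pa76659T

open Pool.Agent.Lib.Pa76659 Pool.Agent.Lib.Pa76659G Pool.Agent.Lib.Pa76659G.PC

namespace P2Aux

theorem on1_len (n : ℕ) : (on1 n).length = n := by
  rw [on1_eq, PC.un_length]

/-- the value of a block -/
noncomputable def hA (X : Lang) (z : Str) : Bool := decide (kd z = 2) && Unv.KU X (nth z 1)

/-- the lengths of the blocks of kind 2 whose first string is in the complete set -/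
noncomputable def A2 (X T : Lang) : Lang := fun c => hA X (cont T c.length)

theorem loc_A2 (X : Lang) : Loc (A2 X) :=
  loc_of_cont (fun _ z => hA X z) (fun c => c.length) (fun _ => le_rfl)

theorem kd_poly {α : Type} {T O : Lang} (hT : T ∈ PO O) {D : α → Prop} {ctx : List (α → Str)}
    {s : α → Str} (hs : PolyC (fun _ => O) D ctx s) :
    PolyB (fun _ => O) D ctx (fun a => decide (kd (cont T (s a).length) = 2)) :=
  PolyB.natEq (PolyN.length (PolyC.nth (cont_poly hT (PolyN.length hs))
    (PolyN.const 0))) (PolyN.const 2)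

theorem KU_nth {X T O : Lang} (hX : X ∈ PO O) (hT : T ∈ PO O) (i : ℕ) :
    (fun c : Str => Unv.KU X (nth (cont T c.length) i)) ∈ NPO O := by
  have hx : PolyC (fun _ : Str => O) (fun _ => True) [fun x => x] (fun x => x) :=
    PolyC.var (by simp)
  exact NPO_comp (NPO_subset hX (Unv.KU_mem X))
    (PolyC.nth (cont_poly hT (PolyN.length hx)) (PolyN.const i))

theorem A2_mem {X T O : Lang} (hX : X ∈ PO O) (hT : T ∈ PO O) : A2 X T ∈ NPO O := by
  have hx : PolyC (fun _ : Str => O) (fun _ => True) [fun x => x] (fun x => x) :=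
    PolyC.var (by simp)
  exact Hc.NPO_and (PO_subset_NPO O (mem_PO (kd_poly hT hx))) (KU_nth hX hT 1)

theorem A2_compl {X T O : Lang} (hX : X ∈ PO O) (hT : T ∈ PO O) (hV : ∀ n, Val X (cont T n)) :
    (fun c => !(A2 X T c)) ∈ NPO O := by
  have hx : PolyC (fun _ : Str => O) (fun _ => True) [fun x => x] (fun x => x) :=
    PolyC.var (by simp)
  have h1 := Hc.NPO_or (PO_subset_NPO O (mem_PO (kd_poly hT hx).not)) (KU_nth hX hT 2)
  have h2 : (fun c : Str => !(decide (kd (cont T c.length) = 2)) ||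
      Unv.KU X (nth (cont T c.length) 2)) = fun c => !(A2 X T c) := by
    funext c
    unfold A2 hA
    by_cases hk : kd (cont T c.length) = 2
    · have h3 := (hV c.length).1 hk
      rw [decide_eq_true hk]
      revert h3
      cases Unv.KU X (nth (cont T c.length) 1) <;> cases Unv.KU X (nth (cont T c.length) 2) <;> simp
    · rw [decide_eq_false hk]
      rfl
  rwa [h2] at h1

/-- the number of the block -/
def nn (N : ℕ) (z : Str) : ℕ := N + 2 * z.length + 1

/-- the selector -/
noncomputable def sl (X S : Lang) (N : ℕ) (p : PIx) (q : Str × Str) : Bool :=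
  pEval p (join X (put S (nn N (mk 2 q.1 q.2)) (mk 2 q.1 q.2))) (on1 (nn N (mk 2 q.1 q.2)))

theorem mk_poly {α : Type} {O : Lang} {D : α → Prop} {ctx : List (α → Str)}
    {s t : α → Str} (hs : PolyC (fun _ => O) D ctx s) (ht : PolyC (fun _ => O) D ctx t) :
    PolyC (fun _ => O) D ctx (fun a => mk 2 (s a) (t a)) :=
  PolyC.pr (PolyC.const _) (PolyC.pr hs (PolyC.pr ht PolyC.nil))

theorem nn_poly {α : Type} {O : Lang} (N : ℕ) {D : α → Prop} {ctx : List (α → Str)}
    {s : α → Str} (hs : PolyC (fun _ => O) D ctx s) :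
    PolyN (fun _ => O) D ctx (fun a => nn N (s a)) :=
  ((PolyN.const N).add ((PolyN.const 2).mul (PolyN.length hs))).succ

theorem sl_poly {X S : Lang} {N : ℕ} (hS : ∀ v : Str, N ≤ v.length → S v = false) (p : PIx) :
    PolyB (fun _ : Str × Str => X) (fun _ => True) [fun p => p.1, fun p => p.2] (sl X S N p) := by
  have h1 : PolyC (fun _ : Str × Str => X) (fun _ => True) [fun p => p.1, fun p => p.2]
      (fun p => p.1) := PolyC.var (by simp)
  have h2 : PolyC (fun _ : Str × Str => X) (fun _ => True) [fun p => p.1, fun p => p.2]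
      (fun p => p.2) := PolyC.var (by simp)
  have hz := mk_poly h1 h2
  refine PolyB.pEval (orc := fun _ : Str × Str => X) p
    (fun q => join X (put S (nn N (mk 2 q.1 q.2)) (mk 2 q.1 q.2)))
    (fun q => on1 (nn N (mk 2 q.1 q.2))) ?_ (nn_poly N hz)
  have hz' : PolyC (fun _ : (Str × Str) × Str => X) (fun _ => True)
      (PC.lift [fun p : Str × Str => p.1, fun p => p.2] ++ [fun r => r.2])
      (fun r => mk 2 r.1.1 r.1.2) :=
    (hz.lift (D' := fun _ : (Str × Str) × Str => True) (fun _ _ => trivial)).weakenRight _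
  refine ((put_fam hS).poly (PolyC.pr (nn_poly N hz') hz')
    (PolyC.var (f := fun r : (Str × Str) × Str => r.2) (by simp))).congr (fun r _ => ?_)
  show join X (put S (fst (pr _ _)).length (snd (pr _ _))) r.2 = _
  rw [PC.fst_pr, PC.snd_pr]
  simp only [PC.un_length]

theorem sl_spec {X S : Lang} {N : ℕ} (hS : ∀ v : Str, N ≤ v.length → S v = false) {p : PIx}
    (h : ∀ (n : ℕ) (z : Str), N ≤ n → 2 * z.length + 1 ≤ n → Val X z →
      pEval p (join X (put S n z)) = A2 X (put S n z)) {a b : Str}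
    (hab : Unv.KU X a ≠ Unv.KU X b) : sl X S N p (a, b) = Unv.KU X a := by
  have hval : Val X (mk 2 a b) := by
    refine ⟨fun _ => ?_, fun h3 => ?_, fun h4 => ?_⟩
    · rw [nth1_mk, nth2_mk]
      exact hab
    · rw [kd_mk] at h3; omega
    · rw [kd_mk] at h4; omega
  have hn1 : N ≤ nn N (mk 2 a b) := by unfold nn; omega
  have hn2 : 2 * (mk 2 a b).length + 1 ≤ nn N (mk 2 a b) := by unfold nn; omega
  show pEval p (join X (put S (nn N (mk 2 a b)) (mk 2 a b))) (on1 (nn N (mk 2 a b))) = _
  rw [h _ _ hn1 hn2 hval]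
  unfold A2 hA
  rw [on1_len, cont_put hS hn1 hn2, kd_mk, nth1_mk]
  simp

end P2Aux

open P2Aux

theorem part_two {X : Lang} (h : Unv.KU X ∉ PO X) :
    ∀ᶠ G in residual Lang, ¬ (Low (join X (Phi X G)) 1 ⊆ RLowSucc (join X (Phi X G)) 0) := by
  have h1 : ∀ᶠ G in residual Lang, ∀ p : PIx,
      pEval p (join X (Phi X G)) = A2 X (Phi X G) →
      ∃ (N : ℕ) (S : Lang), Tally S ∧ (∀ v : Str, N ≤ v.length → S v = false) ∧
        ∀ (n : ℕ) (z : Str), N ≤ n → 2 * z.length + 1 ≤ n → Val X z →
          pEval p (join X (put S n z)) = A2 X (put S n z) := by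
    rw [eventually_countable_forall]
    intro p
    exact forced X (F := fun T => pEval p (join X T)) (F' := A2 X)
      ((loc_sEval p []).comp (loc_join X)) (loc_A2 X)
  filter_upwards [h1] with G hG hsub
  set T := Phi X G with hT
  have hX' : X ∈ PO (join X T) := left_PO X T
  have hT' : T ∈ PO (join X T) := right_PO X T
  have hV : ∀ n, Val X (cont T n) := Val_Phi X G
  have hlow : A2 X T ∈ Low (join X T) 1 := low1_iff.2 ⟨A2_mem hX' hT', A2_compl hX' hT' hV⟩
  obtain ⟨B, hB, hA⟩ := (hsub hlow).2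
    (⟨join (join X T) (A2 X T), (PO_subset (query_mem _) (query_mem _) :
      join (join X T) (A2 X T) ∈ Sig (join (join X T) (A2 X T)) 0), right_PO _ _⟩ :
      A2 X T ∈ DelSucc (join (join X T) (A2 X T)) 0)
  obtain ⟨p, hp⟩ := exists_pEval (PO_subset hB hA)
  obtain ⟨N, S, -, hS, hf⟩ := hG p hp.symm
  exact h (sel_PO (sl_poly hS p) (fun a b hab => sl_spec hS hf hab))

end Pool.Agent.Lib.Pa76659T
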