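import Pool.Agent.Lib.Pa76659T.Base
import Pool.Agent.Lib.Pa76659T.Fam
import Pool.Agent.Lib.Pa76659T.Bbm
import Pool.Agent.Lib.Pa76659T.Adv2
import Pool.Agent.Lib.Pa76659G.UoFinal

set_option autoImplicit false

/-!
`\hat L_2 ≠ L_2` relative to generic tally oracles.

T = Phi X G, X' = join X T, q = 2 X + 1. For a content z and a number n with |z| ≤ n let `uz X n z` be the
padding to length 2 n + 1 of the unique solution u of Sol (V3 X) z if kd z = 3, and
`replicate (2 n + 1) false` otherwise. The function `u n = uz X n (cont T n)` has its graph in coNP(X').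
If Low X' 2 ⊆ RLowSucc X' 1 then `Uo.graph_fun` gives W ∈ DelSucc X' 1 with advStr W q n = u n for
all n; `forced` transfers this to the patched oracles `put S n z`, and `np_adv` gives a contradiction.
-/

namespace Pool.Agent.Lib.Pa76659T

open Pool.Agent.Lib.Pa76659 Pool.Agent.Lib.Pa76659G Pool.Agent.Lib.Pa76659G.PC

namespace P3

/-- the padding of `u` to length `m` -/
def pad (m : ℕ) (u : Str) : Str := pr u (List.replicate (m - (2 * u.length + 1)) false)

theorem pad_length {m : ℕ} {u : Str} (h : 2 * u.length + 1 ≤ m) : (pad m u).length = m := by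
  unfold pad
  rw [PC.pr_length, List.length_replicate]
  omega

theorem fst_pad (m : ℕ) (u : Str) : fst (pad m u) = u := by
  unfold pad
  rw [PC.fst_pr]

open Classical in
/-- the padded unique solution of a content of kind 3 -/
noncomputable def uz (X : Lang) (n : ℕ) (z : Str) : Str :=
  if h : kd z = 3 ∧ ∃ u, Sol (V3 X) z u then pad (2 * n + 1) h.2.choose
  else List.replicate (2 * n + 1) false

theorem sol_length {X : Lang} {z u : Str} (h : Sol (V3 X) z u) : u.length ≤ z.length :=
  (V3_length h.1).trans (PC.nth_length_le z 1)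

theorem uz_length {X : Lang} {n : ℕ} {z : Str} (hz : z.length ≤ n) :
    (uz X n z).length = 2 * n + 1 := by
  unfold uz
  split_ifs with h
  · have h1 := sol_length h.2.choose_spec
    exact pad_length (by omega)
  · exact List.length_replicate

theorem uz_three {X : Lang} {n : ℕ} {z u : Str} (hk : kd z = 3) (hu : Sol (V3 X) z u)
    (hun : ∀ v, Sol (V3 X) z v → v = u) : uz X n z = pad (2 * n + 1) u := by
  unfold uz
  rw [dif_pos ⟨hk, u, hu⟩, hun _ (Exists.choose_spec (⟨u, hu⟩ : ∃ u, Sol (V3 X) z u))]

theorem uz_not {X : Lang} {n : ℕ} {z : Str} (hk : kd z ≠ 3) :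
    uz X n z = List.replicate (2 * n + 1) false := by
  unfold uz
  rw [dif_neg fun h => hk h.1]

theorem cont_length (T : Lang) (n : ℕ) : (cont T n).length ≤ n := by
  unfold cont
  exact (PC.fst_length_le _).trans (blk_length T n).le

/-! ### the graph -/

/-- the part of the check that is in `P` -/
def chk (z v : Str) : Bool :=
  decide (v = pad v.length (fst v)) && (decide ((fst v).length = (nth (nth z 1) 6).length) &&
    flt (nth z 2) (fst v))

/-- the complement of the graph -/
noncomputable def gr (X T : Lang) : Lang := fun c =>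
  (decide (kd (cont T (fst c).length) = 3) && !(chk (cont T (fst c).length) (snd c))) ||
  ((decide (kd (cont T (fst c).length) = 3) &&
    Unv.KU X (gg (nth (cont T (fst c).length) 1) (fst (snd c)))) ||
  (!(decide (kd (cont T (fst c).length) = 3)) &&
    !(decide (snd c = List.replicate (snd c).length false))))

theorem repl_poly {α : Type} {orc : α → Lang} {D : α → Prop} {ctx : List (α → Str)} {n : α → ℕ}
    (hn : PolyN orc D ctx n) : PolyC orc D ctx (fun a => List.replicate (n a) false) := by
  refine (PolyC.map_range (φ := fun _ => false) hn (PolyB.const false)).congr (fun a _ => ?_)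
  rw [List.map_const', List.length_range]

theorem pad_poly {α : Type} {orc : α → Lang} {D : α → Prop} {ctx : List (α → Str)} {m : α → ℕ}
    {u : α → Str} (hm : PolyN orc D ctx m) (hu : PolyC orc D ctx u) :
    PolyC orc D ctx (fun a => pad (m a) (u a)) :=
  PolyC.pr hu (repl_poly (PolyN.sub hm ((PolyN.const 2).mul (PolyN.length hu)).succ))

theorem chk_poly {α : Type} {orc : α → Lang} {D : α → Prop} {ctx : List (α → Str)}
    {z v : α → Str} (hz : PolyC orc D ctx z) (hv : PolyC orc D ctx v) :
    PolyB orc D ctx (fun a => chk (z a) (v a)) :=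
  (PolyB.strEq hv (pad_poly (PolyN.length hv) (PolyC.fst hv))).and
    ((PolyB.natEq (PolyN.length (PolyC.fst hv))
      (PolyN.length (PolyC.nth (PolyC.nth hz (PolyN.const 1)) (PolyN.const 6)))).and
      (flt_poly (PolyC.nth hz (PolyN.const 2)) (PolyC.fst hv)))

theorem gg_poly {α : Type} {orc : α → Lang} {D : α → Prop} {ctx : List (α → Str)}
    {x u : α → Str} (hx : PolyC orc D ctx x) (hu : PolyC orc D ctx u) :
    PolyC orc D ctx (fun a => gg (x a) (u a)) :=
  PolyC.pr (PolyC.nth hx (PolyN.const 0)) (PolyC.pr (PolyC.nth hx (PolyN.const 1))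
    (PolyC.pr (PolyC.pr (PolyC.nth hx (PolyN.const 2)) hu)
      (PolyC.pr (PolyC.nth hx (PolyN.const 3)) (PolyC.pr (PolyC.nth hx (PolyN.const 4))
        (PolyC.pr (PolyC.nth hx (PolyN.const 5)) PolyC.nil)))))

theorem gr_mem (X T : Lang) : gr X T ∈ NPO (join X T) := by
  have hx : PolyC (fun _ : Str => join X T) (fun _ => True) [fun x => x] (fun x => x) :=
    PolyC.var (by simp)
  have hc : PolyC (fun _ : Str => join X T) (fun _ => True) [fun x => x]
      (fun c => cont T (fst c).length) :=
    cont_poly (right_PO X T) (PolyN.length (PolyC.fst hx))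
  have h3 : PolyB (fun _ : Str => join X T) (fun _ => True) [fun x => x]
      (fun c => decide (kd (cont T (fst c).length) = 3)) :=
    PolyB.natEq (PolyN.length (PolyC.nth hc (PolyN.const 0))) (PolyN.const 3)
  have e1 : (fun c : Str => decide (kd (cont T (fst c).length) = 3) &&
      !(chk (cont T (fst c).length) (snd c))) ∈ NPO (join X T) :=
    PO_subset_NPO _ (mem_PO (h3.and (chk_poly hc (PolyC.snd hx)).not))
  have e2 : (fun c : Str => decide (kd (cont T (fst c).length) = 3)) ∈ NPO (join X T) :=
    PO_subset_NPO _ (mem_PO h3)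
  have e3 : (fun c : Str => Unv.KU X (gg (nth (cont T (fst c).length) 1) (fst (snd c)))) ∈
      NPO (join X T) :=
    NPO_comp (NPO_subset (left_PO X T) (Unv.KU_mem X))
      (gg_poly (PolyC.nth hc (PolyN.const 1)) (PolyC.fst (PolyC.snd hx)))
  have e4 : (fun c : Str => !(decide (kd (cont T (fst c).length) = 3)) &&
      !(decide (snd c = List.replicate (snd c).length false))) ∈ NPO (join X T) :=
    PO_subset_NPO _ (mem_PO (h3.not.and
      (PolyB.strEq (PolyC.snd hx) (repl_poly (PolyN.length (PolyC.snd hx)))).not))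
  exact T3.NPO_or e1 (T3.NPO_or (T3.NPO_and e2 e3) e4)

theorem gr_iff {X T : Lang} {n : ℕ} {v : Str} (hV : Val X (cont T n)) (hv : v.length = 2 * n + 1) :
    gr X T (pr (on1 n) v) = false ↔ v = uz X n (cont T n) := by
  unfold gr
  rw [PC.fst_pr, PC.snd_pr, on1_length]
  by_cases hk : kd (cont T n) = 3
  · obtain ⟨u, hu, hun⟩ := hV.2.1 hk
    rw [uz_three hk hu hun]
    simp only [hk, decide_true, Bool.true_and, Bool.not_true, Bool.false_and, Bool.or_false,
      Bool.or_eq_false_iff, Bool.not_eq_false']
    constructor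
    · rintro ⟨h1, h2⟩
      unfold chk at h1
      simp only [Bool.and_eq_true, decide_eq_true_eq] at h1
      have h3 : Sol (V3 X) (cont T n) (fst v) := by
        refine ⟨?_, h1.2.2⟩
        unfold V3
        rw [h2, decide_eq_true h1.2.1]
        rfl
      have h4 := hun _ h3
      rw [h1.1, hv, h4]
    · intro h1
      have h2 : fst v = u := by rw [h1, fst_pad]
      have h3 := hu.1
      unfold V3 at h3
      simp only [Bool.and_eq_true, decide_eq_true_eq, Bool.not_eq_true'] at h3
      unfold chk
      rw [h2]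
      refine ⟨?_, h3.2⟩
      simp only [Bool.and_eq_true, decide_eq_true_eq]
      exact ⟨by rw [hv]; exact h1, h3.1, hu.2⟩
  · rw [uz_not hk]
    simp only [hk, decide_false, Bool.false_and, Bool.not_false, Bool.true_and, Bool.false_or,
      Bool.not_eq_false', decide_eq_true_eq]
    rw [hv]

/-! ### locality -/

/-- the bits of the padded solutions -/
noncomputable def F1 (X : Lang) (T : Lang) : Lang := fun c =>
  (uz X (fst c).length (cont T (fst c).length)).getD (snd c).length false

/-- the bits computed by the machines -/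
noncomputable def F0 (X : Lang) (p : PIx) (i : NIx) (T : Lang) : Lang := fun c =>
  pEval p (nEval i (join X T)) (pr (on1 (fst c).length) (on1 (snd c).length)) &&
    decide ((snd c).length < 2 * (fst c).length + 1)

theorem loc_F1 (X : Lang) : Loc (F1 X) :=
  loc_of_cont (fun c z => (uz X (fst c).length z).getD (snd c).length false)
    (fun c => (fst c).length) (fun c => PC.fst_length_le c)

theorem loc_F0 (X : Lang) (p : PIx) (i : NIx) : Loc (F0 X p i) := by
  have hW : Loc (fun T => pEval p (nEval i (join X T))) :=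
    (Tr.loc_pEval p).comp ((loc_nEval i).comp (loc_join X))
  intro n
  obtain ⟨m, hm⟩ := hW (3 * n + 1)
  refine ⟨m, fun O O' h x hx => ?_⟩
  have h1 := PC.fst_length_le x
  have h2 := PC.snd_length_le x
  have h3 := hm O O' h (pr (on1 (fst x).length) (on1 (snd x).length)) (by
    rw [PC.pr_length, on1_length, on1_length]
    omega)
  unfold F0
  simp only at h3
  rw [h3]

/-- the two functions agree if the machines compute the padded solutions -/
theorem F_eq {X T : Lang} {p : PIx} {i : NIx}
    (h : ∀ n, advStr (pEval p (nEval i (join X T))) (2 * Polynomial.X + 1) n =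
      uz X n (cont T n)) : F0 X p i T = F1 X T := by
  funext c
  unfold F0 F1
  rw [← h]
  have e : (2 * Polynomial.X + 1 : Polynomial ℕ).eval (fst c).length = 2 * (fst c).length + 1 := by
    simp
  by_cases h1 : (snd c).length < 2 * (fst c).length + 1
  · rw [decide_eq_true h1, Bool.and_true, List.getD_eq_getElem _ _ (by
      rw [advStr_length, e]; exact h1)]
    unfold advStr
    rw [List.getElem_map, List.getElem_range]
  · rw [decide_eq_false h1, Bool.and_false, List.getD_eq_default _ _ (by
      rw [advStr_length, e]; omega)]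

theorem adv_eq {X T : Lang} {p : PIx} {i : NIx} (h : F0 X p i T = F1 X T) (n : ℕ) :
    advStr (pEval p (nEval i (join X T))) (2 * Polynomial.X + 1) n = uz X n (cont T n) := by
  have e : (2 * Polynomial.X + 1 : Polynomial ℕ).eval n = 2 * n + 1 := by simp
  refine List.ext_getElem ?_ fun j hj hj2 => ?_
  · rw [advStr_length, e, uz_length (cont_length T n)]
  · have h1 := congrFun h (pr (on1 n) (on1 j))
    unfold F0 F1 at h1
    rw [PC.fst_pr, PC.snd_pr, on1_length, on1_length] at h1
    rw [advStr_length, e] at hj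
    rw [decide_eq_true hj, Bool.and_true, List.getD_eq_getElem _ _ hj2] at h1
    rw [← h1]
    simp only [advStr, List.getElem_map, List.getElem_range]

/-! ### the machine for the instances with at most one solution -/

theorem exists_lang {X S : Lang} {N : ℕ} (hS : ∀ v : Str, N ≤ v.length → S v = false) (i : NIx) :
    ∃ L ∈ PO (Unv.KU X), ∀ a v : Str,
      L (pr a v) = nEval i (join X (put S (fst a).length (snd a))) v := by
  have hB : (fun w => join X (put S (fst (fst w)).length (snd (fst w))) (snd w)) ∈ PO X :=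
    put_fam hS
  have h1 := NPO_subset hB (PC.T2_mem (fun w => join X (put S (fst (fst w)).length
    (snd (fst w))) (snd w)) i.1 i.2.1 i.2.2)
  obtain ⟨red, h2, h3⟩ := Unv.KU_hard h1
  refine ⟨_, mem_PO ((PolyB.qry (h2 (Unv.KU X))).congr fun x _ => h3 x), fun a v => ?_⟩
  rw [Bool.eq_iff_iff]
  unfold PC.T2 nEval
  simp only [decide_eq_true_eq, PC.fst_pr, PC.snd_pr]

theorem val_poly {X S : Lang} {N : ℕ} (hS : ∀ v : Str, N ≤ v.length → S v = false) (p : PIx)
    (i : NIx) {α : Type} {D : α → Prop} {ctx : List (α → Str)} {n : α → ℕ} {z v : α → Str}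
    (hn : PolyN (fun _ => Unv.KU X) D ctx n) (hz : PolyC (fun _ => Unv.KU X) D ctx z)
    (hv : PolyC (fun _ => Unv.KU X) D ctx v) :
    PolyB (fun _ => Unv.KU X) D ctx
      (fun a => pEval p (nEval i (join X (put S (n a) (z a)))) (v a)) := by
  obtain ⟨L, hL, h1⟩ := exists_lang (X := X) hS i
  refine PolyB.pEval (orc := fun _ => Unv.KU X) p
    (fun a => nEval i (join X (put S (n a) (z a)))) v ?_ hv
  have h2 : PolyC (fun _ : α × Str => Unv.KU X) (fun q => D q.1)
      (PC.lift ctx ++ [fun q => q.2]) (fun q => pr (on1 (n q.1)) (z q.1)) :=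
    ((PolyC.pr hn hz).lift (D' := fun q : α × Str => D q.1) (fun _ h => h)).weakenRight _
  have h3 : PolyC (fun _ : α × Str => Unv.KU X) (fun q => D q.1)
      (PC.lift ctx ++ [fun q => q.2]) (fun q => q.2) := PolyC.var (by simp)
  refine (polyB_of_PO hL (PolyC.pr h2 h3)).congr fun q _ => ?_
  rw [h1, PC.fst_pr, PC.snd_pr, on1_length]

/-- the number of the block for the content `z` -/
def nn (N : ℕ) (z : Str) : ℕ := N + 2 * z.length + 1

/-- the string found for the instance `fst y` with the filter `snd y` -/
noncomputable def ff (X S : Lang) (N : ℕ) (p : PIx) (i : NIx) (y : Str) : Str :=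
  fst (advStr (pEval p (nEval i (join X (put S (nn N (mk 3 (fst y) (snd y)))
    (mk 3 (fst y) (snd y)))))) (2 * Polynomial.X + 1) (nn N (mk 3 (fst y) (snd y))))

theorem ff_poly {X S : Lang} {N : ℕ} (hS : ∀ v : Str, N ≤ v.length → S v = false) (p : PIx)
    (i : NIx) : PolyC (fun _ : Str => Unv.KU X) (fun _ => True) [fun x => x]
      (ff X S N p i) := by
  have hx : PolyC (fun _ : Str => Unv.KU X) (fun _ => True) [fun x => x] (fun x => x) :=
    PolyC.var (by simp)
  have hz : PolyC (fun _ : Str => Unv.KU X) (fun _ => True) [fun x => x]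
      (fun y => mk 3 (fst y) (snd y)) :=
    PolyC.pr (PolyC.const (on1 3)) (PolyC.pr (PolyC.fst hx) (PolyC.pr (PolyC.snd hx) PolyC.nil))
  have hn : PolyN (fun _ : Str => Unv.KU X) (fun _ => True) [fun x => x]
      (fun y => nn N (mk 3 (fst y) (snd y))) :=
    ((PolyN.const N).add ((PolyN.const 2).mul (PolyN.length hz))).succ
  refine PolyC.fst (PolyC.map_range (hn.poly (2 * Polynomial.X + 1))
    (φ := fun q : Str × ℕ => pEval p (nEval i (join X (put S (nn N (mk 3 (fst q.1) (snd q.1)))
    (mk 3 (fst q.1) (snd q.1))))) (pr (on1 (nn N (mk 3 (fst q.1) (snd q.1)))) (on1 q.2))) ?_)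
  have hz' := (hz.lift (D' := fun q : Str × ℕ => True ∧
    q.2 < (2 * Polynomial.X + 1 : Polynomial ℕ).eval (nn N (mk 3 (fst q.1) (snd q.1))))
    (fun q hq => hq.1)).weakenRight [fun q => una q.2]
  have hn' := (PolyC.lift hn (D' := fun q : Str × ℕ => True ∧
    q.2 < (2 * Polynomial.X + 1 : Polynomial ℕ).eval (nn N (mk 3 (fst q.1) (snd q.1))))
    (fun q hq => hq.1)).weakenRight [fun q => una q.2]
  exact val_poly hS p i hn' hz' (PolyC.pr hn' (PolyC.var (by simp [on1_eq])))

/-- the machines cannot compute the padded solutions relative to all patched oracles -/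
theorem no_machine {X S : Lang} {N : ℕ} (hS : ∀ v : Str, N ≤ v.length → S v = false) (p : PIx)
    (i : NIx) (h : ∀ (n : ℕ) (z : Str), N ≤ n → 2 * z.length + 1 ≤ n → Val X z →
      F0 X p i (put S n z) = F1 X (put S n z)) :
    (fun z => !(BB X z)) ∈ NPPoly (Unv.KU X) := by
  classical
  have hx : PolyC (fun _ : Str => Unv.KU X) (fun _ => True) [fun x => x] (fun x => x) :=
    PolyC.var (by simp)
  have hf := ff_poly (X := X) hS p i
  have hN : (fun y => !(V3 X (fst y, ff X S N p i y) && flt (snd y) (ff X S N p i y))) ∈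
      NPO (Unv.KU X) :=
    PO_subset_NPO _ (mem_PO ((PolyB.arg2 (V3_poly X) (PolyC.fst hx) hf).and
      (flt_poly (PolyC.snd hx) hf)).not)
  refine np_adv (V := V3 X) (fun x u => V3_length) (fun x => ?_) hN (fun x w hu => ?_)
  · unfold BB
    exact decide_eq_true_iff
  · simp only [Bool.not_eq_true', Bool.and_eq_false_iff, PC.fst_pr, PC.snd_pr]
    constructor
    · rintro h1 ⟨u, h2, h3⟩
      have hs : Sol (V3 X) (mk 3 x w) u := by
        refine ⟨?_, ?_⟩
        · rw [nth1_mk]; exact h2
        · rw [nth2_mk]; exact h3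
      have hun : ∀ v, Sol (V3 X) (mk 3 x w) v → v = u := by
        intro v hv
        have h4 := hv.1
        have h5 := hv.2
        rw [nth1_mk] at h4
        rw [nth2_mk] at h5
        exact hu v u h4 h5 h2 h3
      have hV : Val X (mk 3 x w) := by
        refine ⟨fun h4 => ?_, fun _ => ⟨u, hs, hun⟩, fun h4 => ?_⟩
        · rw [kd_mk] at h4; omega
        · rw [kd_mk] at h4; omega
      have hle : N ≤ nn N (mk 3 x w) := by unfold nn; omega
      have hle2 : 2 * (mk 3 x w).length + 1 ≤ nn N (mk 3 x w) := by unfold nn; omega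
      have h6 := adv_eq (h _ _ hle hle2 hV) (nn N (mk 3 x w))
      rw [cont_put hS hle hle2, uz_three (kd_mk 3 x w) hs hun] at h6
      have h7 : ff X S N p i (pr x w) = u := by
        unfold ff
        rw [PC.fst_pr, PC.snd_pr, h6, fst_pad]
      rw [h7, h2, h3] at h1
      simp at h1
    · intro h1
      by_contra h2
      push Not at h2
      refine h1 ⟨ff X S N p i (pr x w), ?_, ?_⟩
      · simpa using h2.1
      · simpa using h2.2

end P3

open P3 in
theorem part_three {X : Lang} (h : (fun z => !(BB X z)) ∉ NPPoly (Unv.KU X)) :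
    ∀ᶠ G in residual Lang, ¬ (Low (join X (Phi X G)) 2 ⊆ RLowSucc (join X (Phi X G)) 1) := by
  have h1 : ∀ᶠ G in residual Lang, ∀ (p : PIx) (i : NIx),
      F0 X p i (Phi X G) = F1 X (Phi X G) →
      ∃ (N : ℕ) (S : Lang), Tally S ∧ (∀ v : Str, N ≤ v.length → S v = false) ∧
        ∀ (n : ℕ) (z : Str), N ≤ n → 2 * z.length + 1 ≤ n → Val X z →
          F0 X p i (put S n z) = F1 X (put S n z) := by
    rw [eventually_countable_forall]; intro p
    rw [eventually_countable_forall]; intro i
    exact forced X (loc_F0 X p i) (loc_F1 X)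
  filter_upwards [h1] with G hG hcon
  obtain ⟨W, ⟨B, hB, hW⟩, hu⟩ := Uo.graph_fun hcon (2 * Polynomial.X + 1)
    (fun n => uz X n (cont (Phi X G) n)) (fun n => by
      rw [uz_length (cont_length _ n)]; simp) (gr_mem X (Phi X G)) (fun n v hv =>
      gr_iff (Val_Phi X G n) (by rw [hv]; simp))
  obtain ⟨i, rfl⟩ := exists_nEval (Uo.sig_one hB)
  obtain ⟨p, rfl⟩ := exists_pEval hW
  obtain ⟨N, S, -, hS, hN⟩ := hG p i (F_eq hu)
  exact h (no_machine hS p i hN)

end Pool.Agent.Lib.Pa76659T
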