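import Pool.Agent.Lib.Pa76659T.Base
import Pool.Agent.Lib.Pa76659T.Fam
import Pool.Agent.Lib.Pa76659T.Bbm
import Pool.Agent.Lib.Pa76659T.Adv2
import Pool.Agent.Lib.Pa76659G.UoFinal
import Pool.Agent.Lib.Pa76659G.UoU6

set_option autoImplicit false

/-!
`L_2 ≠ \hat L_3` relative to generic tally oracles.

PROOF. T = Phi X G, X' = join X T, q = 2 X + 1, s = 1. `A c = false` iff c = pr (on1 n) v, z = cont T n, kd z = 4,
v is the padding (length 2 n + 1) of a u with Sol (V3 X) z u. A ∈ NPO X' because KU X ∈ NPO X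
(V3 is the negation of KU X). By `Val_Phi` at most one such v for every n. If RLowSucc X' 2 ⊆ Low X' 2 then
`Uo.u6` gives B ∈ Sig X' 2, `B (pr (on1 n) (on1 1)) = true` iff no such v. B = sEval p l X', l.length = 2
(exists_sEval). `forced` with `F T = fun v => sEval p l (join X T) (pr (on1 |v|) (on1 1))`,
`F' T = fun v => !(decide (kd (cont T |v|) = 4 ∧ ∃ u, Sol (V3 X) (cont T |v|) u))`; the indices (p, l) are countable.
For
z = mk 4 x w, n = N + 2 |z| + 1 put `N (pr x w) = sEval p l (join X (put S n z)) (pr (on1 n) (on1 1))`. Apply `np_adv` with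
Z = KU X, B = BB X, V = V3 X (`V3_length`): if at most one solution passes the filter then z is valid and N is true iff there is
none. N ∈ NPO (KU X): `Tr.sEval_param (put_fam hS) p l` gives L' ∈ Sig X 2 ⊆ NPO (KU X) (Sig X 2 = NPO of a set in
NPO X = Sig X 1, which is in PO (KU X) by `Unv.KU_hard`), NPO_comp.
-/

namespace Pool.Agent.Lib.Pa76659T

open Pool.Agent.Lib.Pa76659 Pool.Agent.Lib.Pa76659G Pool.Agent.Lib.Pa76659G.PC

namespace P4Aux

theorem gg_poly {α : Type*} {orc : α → Lang} {D : α → Prop} {ctx : List (α → Str)} {x u : α → Str}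
    (hx : PolyC orc D ctx x) (hu : PolyC orc D ctx u) :
    PolyC orc D ctx (fun a => gg (x a) (u a)) := by
  have f : ∀ i, PolyC orc D ctx (fun a => nth (x a) i) := fun i => PolyC.nth hx (PolyN.const i)
  refine (PolyC.lenc [fun a => nth (x a) 0, fun a => nth (x a) 1, fun a => pr (nth (x a) 2) (u a),
    fun a => nth (x a) 3, fun a => nth (x a) 4, fun a => nth (x a) 5] ?_).congr (fun _ _ => rfl)
  intro g hg
  simp only [List.mem_cons, List.not_mem_nil, or_false] at hg
  rcases hg with rfl | rfl | rfl | rfl | rfl | rfl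
  · exact f 0
  · exact f 1
  · exact PolyC.pr (f 2) hu
  · exact f 3
  · exact f 4
  · exact f 5

/-- the part of the definition of the padded solutions which is decidable in `P` -/
def pre (T : Lang) (c : Str) : Bool :=
  decide (kd (cont T (fst c).length) = 4) &&
    (decide (snd c = pr (fst (snd c)) (una (2 * (fst c).length - 2 * (fst (snd c)).length))) &&
      (flt (nth (cont T (fst c).length) 2) (fst (snd c)) &&
        decide ((fst (snd c)).length = (nth (nth (cont T (fst c).length) 1) 6).length)))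

/-- the set `A` -/
noncomputable def AA (X T : Lang) : Lang := fun c =>
  !(pre T c) || Unv.KU X (gg (nth (cont T (fst c).length) 1) (fst (snd c)))

theorem pre_poly {O T : Lang} (hT : T ∈ PO O) :
    PolyB (fun _ : Str => O) (fun _ => True) [fun x => x] (fun c => pre T c) := by
  have hx : PolyC (fun _ : Str => O) (fun _ => True) [fun x => x] (fun x => x) :=
    PolyC.var (by simp)
  have hf := PolyC.fst hx
  have hs := PolyC.snd hx
  have hn := PolyN.length hf
  have hu := PolyC.fst hs
  have hz : PolyC (fun _ : Str => O) (fun _ => True) [fun x => x]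
      (fun c => cont T (fst c).length) := cont_poly hT hn
  have hk : PolyN (fun _ : Str => O) (fun _ => True) [fun x => x]
      (fun c => kd (cont T (fst c).length)) := PolyN.length (PolyC.nth hz (PolyN.const 0))
  refine (PolyB.natEq hk (PolyN.const 4)).and ((PolyB.strEq hs (PolyC.pr hu ?_)).and
    ((flt_poly (PolyC.nth hz (PolyN.const 2)) hu).and (PolyB.natEq (PolyN.length hu)
      (PolyN.length (PolyC.nth (PolyC.nth hz (PolyN.const 1)) (PolyN.const 6))))))
  exact ((PolyN.const 2).mul hn).sub ((PolyN.const 2).mul (PolyN.length hu))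

theorem AA_mem {X O T : Lang} (hX : X ∈ PO O) (hT : T ∈ PO O) : AA X T ∈ NPO O := by
  refine T3.NPO_or (PO_subset_NPO O (mem_PO (pre_poly hT).not)) ?_
  have hx : PolyC (fun _ : Str => O) (fun _ => True) [fun x => x] (fun x => x) :=
    PolyC.var (by simp)
  have hf := PolyC.fst hx
  have hs := PolyC.snd hx
  have hn := PolyN.length hf
  have hz : PolyC (fun _ : Str => O) (fun _ => True) [fun x => x]
      (fun c => cont T (fst c).length) := cont_poly hT hn
  exact NPO_comp (NPO_subset hX (Unv.KU_mem X)) (gg_poly (PolyC.nth hz (PolyN.const 1)) (PolyC.fst hs))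

theorem AA_false {X T : Lang} {n : ℕ} {v : Str} : AA X T (pr (on1 n) v) = false ↔
    kd (cont T n) = 4 ∧ v = pr (fst v) (una (2 * n - 2 * (fst v).length)) ∧
      Sol (V3 X) (cont T n) (fst v) := by
  unfold AA pre Sol V3
  rw [Bool.or_eq_false_iff, Bool.not_eq_false', PC.fst_pr, PC.snd_pr, on1_eq, PC.un_length]
  simp only [Bool.and_eq_true, decide_eq_true_eq, Bool.not_eq_true']
  constructor
  · rintro ⟨⟨h1, h2, h3, h4⟩, h5⟩
    exact ⟨h1, h2, ⟨h4, h5⟩, h3⟩
  · rintro ⟨h1, h2, ⟨h4, h5⟩, h3⟩
    exact ⟨⟨h1, h2, h3, h4⟩, h5⟩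

theorem cont_length_le (T : Lang) (n : ℕ) : (cont T n).length ≤ n := by
  unfold cont
  refine (PC.fst_length_le _).trans ?_
  simp [blk]

theorem q_eval (n : ℕ) : (2 * Polynomial.X + 1 : Polynomial ℕ).eval n = 2 * n + 1 := by simp

/-- the padded solutions -/
def PS (X T : Lang) (n : ℕ) : Set Str :=
  {y : Str | y.length = (2 * Polynomial.X + 1 : Polynomial ℕ).eval n ∧ AA X T (pr (on1 n) y) = false}

theorem PS_sub {X T : Lang} (hT : ∀ n, Val X (cont T n)) (n : ℕ) : (PS X T n).Subsingleton := by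
  rintro y ⟨-, h1⟩ y' ⟨-, h2⟩
  obtain ⟨h3, h4, h5⟩ := AA_false.1 h1
  obtain ⟨-, h6, h7⟩ := AA_false.1 h2
  have h8 : fst y = fst y' := (hT n).2.2 h3 _ _ h5 h7
  rw [h4, h6, h8]

theorem PS_nonempty {X T : Lang} (n : ℕ) : (PS X T n).Nonempty ↔
    kd (cont T n) = 4 ∧ ∃ u, Sol (V3 X) (cont T n) u := by
  constructor
  · rintro ⟨y, -, h1⟩
    obtain ⟨h3, -, h5⟩ := AA_false.1 h1
    exact ⟨h3, _, h5⟩
  · rintro ⟨h1, u, hu⟩
    have h2 : u.length ≤ n := by
      have h3 : u.length ≤ (nth (cont T n) 1).length := V3_length hu.1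
      have h4 := PC.nth_length_le (cont T n) 1
      have h5 := cont_length_le T n
      omega
    refine ⟨pr u (una (2 * n - 2 * u.length)), ?_, AA_false.2 ?_⟩
    · rw [q_eval, PC.pr_length, PC.un_length]
      omega
    · rw [PC.fst_pr]
      exact ⟨h1, rfl, hu⟩

theorem ncard_le {S : Set Str} (h : S.Subsingleton) : S.ncard ≤ 1 := by
  rcases h.eq_empty_or_singleton with rfl | ⟨x, rfl⟩
  · simp
  · simp

theorem ncard_lt {S : Set Str} (h : S.Subsingleton) : S.ncard < 1 ↔ ¬ S.Nonempty := by
  rcases h.eq_empty_or_singleton with rfl | ⟨x, rfl⟩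
  · simp
  · simp

open Classical in
theorem loc_F' (X : Lang) : Loc (fun T v =>
    !(decide (kd (cont T v.length) = 4 ∧ ∃ u, Sol (V3 X) (cont T v.length) u))) :=
  loc_of_cont (fun _ z => !(decide (kd z = 4 ∧ ∃ u, Sol (V3 X) z u))) (fun c => c.length)
    (fun _ => le_rfl)

theorem loc_F (X : Lang) (p : PIx) (l : List NIx) : Loc (fun T v =>
    sEval p l (join X T) (pr (on1 v.length) (on1 1))) := by
  intro n
  obtain ⟨m, hm⟩ := ((loc_sEval p l).comp (loc_join X)) (2 * n + 2)
  refine ⟨m, fun O O' h x hx => hm O O' h _ ?_⟩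
  rw [PC.pr_length, on1_eq, on1_eq, PC.un_length, PC.un_length]
  omega

theorem KU_above (X : Lang) : Sig X 2 ⊆ NPO (Unv.KU X) := by
  rintro L hL
  obtain ⟨B, hB, hL'⟩ := Tr.Sig_succ_sub X 1 hL
  have h1 : join X (Unv.KU X) ∈ PO (Unv.KU X) := by
    refine PO_join ?_ (query_mem _)
    obtain ⟨red, h2, h3⟩ := Unv.KU_hard (PO_subset_NPO X (query_mem X))
    refine mem_PO ((PolyB.qry (h2 (Unv.KU X))).congr (fun x _ => ?_))
    exact (h3 x)
  exact NPO_subset (PO_subset h1 hB) hL'

end P4Aux

open P4Aux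

theorem part_four {X : Lang} (h : (fun z => !(BB X z)) ∉ NPPoly (Unv.KU X)) :
    ∀ᶠ G in residual Lang, ¬ (RLowSucc (join X (Phi X G)) 2 ⊆ Low (join X (Phi X G)) 2) := by
  classical
  have hgen : ∀ᶠ G in residual Lang, ∀ (p : PIx) (l : List NIx),
      ((fun v : Str => sEval p l (join X (Phi X G)) (pr (on1 v.length) (on1 1))) =
        fun v => !(decide (kd (cont (Phi X G) v.length) = 4 ∧
          ∃ u, Sol (V3 X) (cont (Phi X G) v.length) u))) →
      ∃ (N : ℕ) (S : Lang), Tally S ∧ (∀ v : Str, N ≤ v.length → S v = false) ∧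
        ∀ (n : ℕ) (z : Str), N ≤ n → 2 * z.length + 1 ≤ n → Val X z →
          (fun v : Str => sEval p l (join X (put S n z)) (pr (on1 v.length) (on1 1))) =
            fun v => !(decide (kd (cont (put S n z) v.length) = 4 ∧
              ∃ u, Sol (V3 X) (cont (put S n z) v.length) u)) := by
    rw [eventually_countable_forall]; intro p
    rw [eventually_countable_forall]; intro l
    exact forced X (loc_F X p l) (loc_F' X)
  filter_upwards [hgen] with G hG hcon
  apply h
  have hV : ∀ n, Val X (cont (Phi X G) n) := Val_Phi X G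
  obtain ⟨B, hB, hBs⟩ := Uo.u6 hcon (AA_mem (left_PO X (Phi X G)) (right_PO X (Phi X G)))
    (2 * Polynomial.X + 1) 1 (fun n => by
      have h1 := ncard_le (PS_sub hV n)
      rw [Polynomial.eval_one]
      exact h1)
  obtain ⟨p, l, hl, rfl⟩ := exists_sEval hB
  obtain ⟨N, S, hS1, hS2, hS3⟩ := hG p l (by
    funext v
    have h1 := hBs v.length 1
    have h2 : sEval p l (join X (Phi X G)) (pr (on1 v.length) (on1 1)) = true ↔
        ¬ (PS X (Phi X G) v.length).Nonempty := h1.trans (ncard_lt (PS_sub hV _))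
    rw [PS_nonempty] at h2
    rw [Bool.eq_iff_iff, h2, Bool.not_eq_true', decide_eq_false_iff_not])
  obtain ⟨L', hL', hL2⟩ := Tr.sEval_param (put_fam (X := X) hS2) p l
  rw [hl] at hL'
  have hx : PolyC (fun _ : Str => Unv.KU X) (fun _ => True) [fun x => x] (fun x => x) :=
    PolyC.var (by simp)
  -- the content and the length
  have hz : PolyC (fun _ : Str => Unv.KU X) (fun _ => True) [fun x => x]
      (fun c => mk 4 (fst c) (snd c)) := by
    refine (PolyC.lenc [fun _ => on1 4, fun c => fst c, fun c => snd c] ?_).congr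
      (fun _ _ => rfl)
    intro g hg
    simp only [List.mem_cons, List.not_mem_nil, or_false] at hg
    rcases hg with rfl | rfl | rfl
    · exact PolyC.const _
    · exact PolyC.fst hx
    · exact PolyC.snd hx
  have hn : PolyN (fun _ : Str => Unv.KU X) (fun _ => True) [fun x => x]
      (fun c => N + (2 * (mk 4 (fst c) (snd c)).length + 1)) :=
    (PolyN.const N).add (((PolyN.const 2).mul (PolyN.length hz)).succ)
  refine np_adv (N := fun c => L' (pr (pr (on1 (N + (2 * (mk 4 (fst c) (snd c)).length + 1)))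
    (mk 4 (fst c) (snd c))) (pr (on1 (N + (2 * (mk 4 (fst c) (snd c)).length + 1))) (on1 1))))
    (V := V3 X) (B := BB X) (fun x u hu => V3_length hu) (fun x => ?_) ?_ ?_
  · unfold BB
    rw [decide_eq_true_eq]
  · refine NPO_comp (KU_above X hL') (PolyC.pr (PolyC.pr ?_ hz) (PolyC.pr ?_ (PolyC.const _)))
    · exact hn
    · exact hn
  · intro x w hu
    simp only [PC.fst_pr, PC.snd_pr]
    set z := mk 4 x w with hzdef
    set n := N + (2 * z.length + 1) with hndef
    have hk : kd z = 4 := kd_mk 4 x w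
    have hval : Val X z := by
      refine ⟨fun h => absurd (hk.symm.trans h) (by norm_num),
        fun h => absurd (hk.symm.trans h) (by norm_num), fun _ u v h1 h2 => ?_⟩
      unfold Sol at h1 h2
      rw [hzdef, nth1_mk, nth2_mk] at h1 h2
      exact hu u v h1.1 h1.2 h2.1 h2.2
    have h3 := congrFun (hS3 n z (by omega) (by omega) hval) (on1 n)
    have hlen : (on1 n).length = n := by rw [on1_eq, PC.un_length]
    simp only [hlen] at h3
    rw [cont_put hS2 (by omega) (by omega)] at h3
    have h4 := hL2 (pr (on1 n) z) (pr (on1 n) (on1 1))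
    simp only [PC.fst_pr, PC.snd_pr, hlen] at h4
    rw [h4, h3]
    simp only [Bool.not_eq_true', decide_eq_false_iff_not, hk, true_and]
    unfold Sol
    rw [hzdef, nth1_mk, nth2_mk]

end Pool.Agent.Lib.Pa76659T
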