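import Pool.Agent.Lib.Pa76659T.Exact
import Pool.Agent.Lib.Pa76659T.P2
import Pool.Agent.Lib.Pa76659T.P3
import Pool.Agent.Lib.Pa76659T.P4

set_option autoImplicit false

/-!
The theorem on tally oracles.
-/

namespace Pool.Agent.Lib.Pa76659T

open Pool.Agent.Lib.Pa76659 Pool.Agent.Lib.Pa76659G Pool.Agent.Lib.Pa76659G.PC
open Pool.Agent.Lib.Pa76659H (High RHighSucc TComp)

/-- the effect of tally oracles on the levels -/
theorem tally_sig {X T : Lang} (hT : Tally T) {k : ℕ} (h : Sig X k = Sig X (k + 1)) :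
    Sig (join X T) k = Sig (join X T) (k + 1) := by
  refine Set.Subset.antisymm ?_ ?_
  · intro L hL
    exact ⟨L, hL, PO_subset_NPO _ (query_mem L)⟩
  · intro L hL
    obtain ⟨L', hL', F, hF⟩ := join_sub hT hL
    rw [← h] at hL'
    have h1 : L' ∈ Sig (join X T) k := Sig_mono (left_PO X T) k hL'
    have hred : Tr.Red (join X T) (fun z => pr (tabT T (F.eval z.length + 1)) z) := by
      intro O' hO'
      have hx : PolyC (fun _ : Str => O') (fun _ => True) [fun x => x] (fun x => x) :=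
        PolyC.var (by simp)
      exact PolyC.pr (tabT_poly (PO_subset hO' (right_PO X T))
        ((PolyN.length hx).poly F).succ) hx
    have h2 := Tr.Sig_comp h1 hred
    have h3 : (fun z => L' (pr (tabT T (F.eval z.length + 1)) z)) = L :=
      funext fun z => hF z _ (Nat.lt_succ_self _)
    rwa [h3] at h2

theorem exists_residual {P : Lang → Prop} (h : ∀ᶠ G in residual Lang, P G) : ∃ G, P G :=
  (dense_of_mem_residual h).nonempty

theorem npo_of_KU {X : Lang} (h : Unv.KU X ∈ PO X) : NPO X = PO X := by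
  refine Set.Subset.antisymm ?_ (PO_subset_NPO X)
  intro L hL
  obtain ⟨red, hr1, hr2⟩ := Unv.KU_hard hL
  exact mem_PO ((polyB_of_PO h (hr1 X)).congr fun x _ => hr2 x)

/-- All tally oracles: the class `L_1`. -/
theorem exact_low (X : Lang) :
    (∀ T, Tally T → RLowSucc (join X T) 0 = Low (join X T) 1) ↔ NPO X ⊆ PO X := by
  constructor
  · intro h
    by_contra hc
    have hK : Unv.KU X ∉ PO X := fun hK => hc (npo_of_KU hK).subset
    obtain ⟨G, hG⟩ := exists_residual (part_two hK)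
    exact hG (h _ (Phi_tally X G)).symm.subset
  · intro h T hT
    have h0 : Sig X 0 = Sig X 1 := by
      refine Set.Subset.antisymm (fun L hL => ⟨L, hL, PO_subset_NPO _ (query_mem L)⟩) ?_
      rintro L ⟨B, hB, hL⟩
      exact h (NPO_subset hB hL)
    have h1 := tally_sig hT h0
    have h2 : NPO (join X T) ⊆ PO (join X T) := fun L hL =>
      h1.symm.subset (⟨join X T, query_mem _, hL⟩ : L ∈ Sig (join X T) 1)
    exact Set.Subset.antisymm rlow_low fun A hA => low_rlow (PO_low (h2 hA.1))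

/-- One tally oracle. -/
theorem tally_world (X : Lang) : ∃ T : Lang, Tally T ∧
    (High (join X T) 1 = RHighSucc (join X T) 0 → NPO X = PO X) ∧
    (Low (join X T) 1 = RLowSucc (join X T) 1 → ∀ L ∈ NPO X, (fun x => !(L x)) ∈ NPO X) ∧
    (RLowSucc (join X T) 0 = Low (join X T) 1 → NPO X = PO X) ∧
    (RLowSucc (join X T) 1 = Low (join X T) 2 → Sig X 4 = Sig X 5) ∧
    (Low (join X T) 2 = RLowSucc (join X T) 2 → Sig X 4 = Sig X 5) := by
  have h1 : ∀ᶠ G in residual Lang, (High (join X (Phi X G)) 1 = RHighSucc (join X (Phi X G)) 0 →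
      NPO X = PO X) := by
    by_cases h : Unv.KU X ∈ PO X
    · exact Filter.Eventually.of_forall fun G _ => npo_of_KU h
    · exact (part_five h).mono fun G hG h2 => absurd h2.subset hG
  have h2 : ∀ᶠ G in residual Lang, (Low (join X (Phi X G)) 1 = RLowSucc (join X (Phi X G)) 1 →
      ∀ L ∈ NPO X, (fun x => !(L x)) ∈ NPO X) := by
    by_cases h : (fun z => !(Unv.KU X z)) ∈ NPO X
    · refine Filter.Eventually.of_forall fun G _ L hL => ?_
      obtain ⟨red, hr1, hr2⟩ := Unv.KU_hard hL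
      have h3 := NPO_comp h (hr1 X)
      have h4 : (fun x => !(Unv.KU X (red x))) = fun x => !(L x) := by
        funext x
        rw [hr2]
      rwa [h4] at h3
    · exact (part_one h).mono fun G hG h2 => absurd h2.symm.subset hG
  have h3 : ∀ᶠ G in residual Lang, (RLowSucc (join X (Phi X G)) 0 = Low (join X (Phi X G)) 1 →
      NPO X = PO X) := by
    by_cases h : Unv.KU X ∈ PO X
    · exact Filter.Eventually.of_forall fun G _ => npo_of_KU h
    · exact (part_two h).mono fun G hG h2 => absurd h2.symm.subset hG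
  have h4 : ∀ᶠ G in residual Lang, (RLowSucc (join X (Phi X G)) 1 = Low (join X (Phi X G)) 2 →
      Sig X 4 = Sig X 5) := by
    by_cases h : (fun z => !(BB X z)) ∈ NPPoly (Unv.KU X)
    · exact Filter.Eventually.of_forall fun G _ => inf_four h
    · exact (part_three h).mono fun G hG h2 => absurd h2.symm.subset hG
  have h5 : ∀ᶠ G in residual Lang, (Low (join X (Phi X G)) 2 = RLowSucc (join X (Phi X G)) 2 →
      Sig X 4 = Sig X 5) := by
    by_cases h : (fun z => !(BB X z)) ∈ NPPoly (Unv.KU X)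
    · exact Filter.Eventually.of_forall fun G _ => inf_four h
    · exact (part_four h).mono fun G hG h2 => absurd h2.symm.subset hG
  obtain ⟨G, g1, g2, g3, g4, g5⟩ := exists_residual (h1.and (h2.and (h3.and (h4.and h5))))
  exact ⟨Phi X G, Phi_tally X G, g1, g2, g3, g4, g5⟩

/-! ### polynomially equivalent oracles -/

section
variable {X Y : Lang}

theorem sig_eqv (h1 : X ∈ PO Y) (h2 : Y ∈ PO X) (k : ℕ) : Sig X k = Sig Y k :=
  (Sig_mono h1 k).antisymm (Sig_mono h2 k)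

theorem del_eqv (h1 : X ∈ PO Y) (h2 : Y ∈ PO X) (k : ℕ) : DelSucc X k = DelSucc Y k :=
  (DelSucc_mono h1 k).antisymm (DelSucc_mono h2 k)

theorem npo_eqv (h1 : X ∈ PO Y) (h2 : Y ∈ PO X) : NPO X = NPO Y :=
  (NPO_subset h1).antisymm (NPO_subset h2)

theorem join_le (h1 : X ∈ PO Y) (A : Lang) : join X A ∈ PO (join Y A) :=
  PO_join (PO_subset (left_PO Y A) h1) (right_PO Y A)

theorem low_eqv (h1 : X ∈ PO Y) (h2 : Y ∈ PO X) (k : ℕ) : Low X k = Low Y k := by
  ext A
  show (_ ∧ _) ↔ (_ ∧ _)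
  rw [npo_eqv h1 h2, sig_eqv h1 h2, sig_eqv (join_le h1 A) (join_le h2 A)]

theorem rlow_eqv (h1 : X ∈ PO Y) (h2 : Y ∈ PO X) (k : ℕ) : RLowSucc X k = RLowSucc Y k := by
  ext A
  show (_ ∧ _) ↔ (_ ∧ _)
  rw [npo_eqv h1 h2, del_eqv h1 h2, del_eqv (join_le h1 A) (join_le h2 A)]

theorem high_eqv (h1 : X ∈ PO Y) (h2 : Y ∈ PO X) (k : ℕ) : High X k = High Y k := by
  ext A
  show (_ ∧ _) ↔ (_ ∧ _)
  rw [npo_eqv h1 h2, sig_eqv h1 h2, sig_eqv (join_le h1 A) (join_le h2 A)]

theorem rhigh_eqv (h1 : X ∈ PO Y) (h2 : Y ∈ PO X) (k : ℕ) : RHighSucc X k = RHighSucc Y k := by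
  ext A
  show (_ ∧ _) ↔ (_ ∧ _)
  rw [npo_eqv h1 h2, del_eqv h1 h2, del_eqv (join_le h1 A) (join_le h2 A)]

end

theorem ssub_of {α : Type} {s t : Set α} (h : s ⊆ t) (h2 : s ≠ t) : s ⊂ t :=
  Set.ssubset_iff_subset_ne.2 ⟨h, h2⟩

/-- The unrelativised form. -/
theorem tally_emp (hPH : ∀ k, Sig emp k ≠ Sig emp (k + 1)) : ∃ T : Lang, Tally T ∧
    (∀ k, Sig T k ≠ Sig T (k + 1)) ∧
    RLowSucc T 0 ⊂ Low T 1 ∧ Low T 1 ⊂ RLowSucc T 1 ∧ RLowSucc T 1 ⊂ Low T 2 ∧
    Low T 2 ⊂ RLowSucc T 2 ∧ RHighSucc T 0 ⊂ High T 1 := by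
  obtain ⟨T, hT, g1, g2, g3, g4, g5⟩ := tally_world emp
  have e1 : join emp T ∈ PO T := PO_join (mem_PO (PolyB.const false)) (query_mem T)
  have e2 : T ∈ PO (join emp T) := right_PO emp T
  rw [high_eqv e1 e2, rhigh_eqv e1 e2] at g1
  rw [low_eqv e1 e2, rlow_eqv e1 e2] at g2
  rw [low_eqv e1 e2, rlow_eqv e1 e2] at g3
  rw [low_eqv e1 e2, rlow_eqv e1 e2] at g4
  rw [low_eqv e1 e2, rlow_eqv e1 e2] at g5
  have k0 : NPO emp ≠ PO emp := by
    intro h
    have hK : Unv.KU emp ∈ PO emp := by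
      rw [← h]
      exact Unv.KU_mem emp
    exact hPH 0 (inf_one hK)
  refine ⟨T, hT, fun k => ?_, ssub_of rlow_low fun h => k0 (g3 h),
    ssub_of low_rlow fun h => ?_, ssub_of rlow_low fun h => hPH 4 (g4 h),
    ssub_of low_rlow fun h => hPH 4 (g5 h), ssub_of Pool.Agent.Lib.Pa76659H.rhigh_high
      fun h => k0 (g1 h.symm)⟩
  · rw [← sig_eqv e1 e2, ← sig_eqv e1 e2]
    exact tally_inf hT hPH k
  · exact hPH 1 (inf_two (g2 h _ (Unv.KU_mem emp)))

end Pool.Agent.Lib.Pa76659T
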