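import Pool.Agent.Lib.Pa76659T.Fam
import Pool.Agent.Lib.Pa76659T.Uni
import Pool.Agent.Lib.Pa76659T.Coll

set_option autoImplicit false

/-!
A tally oracle does not collapse an infinite polynomial hierarchy.

PROOF. `join_sub`: L ∈ Sig (join X T) k, T tally. `Tr.subst` with W w = join X (tl (fst w)) (snd w) ∈ PO X
(`tl_fam`): L' ∈ Sig X k and a polynomial F with L' (pr u z) = L z if u = tabT T (F |z| + 1) (`tl_tabT`).
Let Sig (join X T) k = Sig (join X T) (k + 1). Upward (`sig_congr`), so it holds for k + 1 as well: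
Sig (join X T) (k+1) = Sig (join X T) (k+2). Let C = KU^[k] X (so that Sig X (k+1) = NPO C, by induction:
NPO (KU^[k] X) = Sig X (k+1), `Unv.KU_hard`, `Unv.KU_mem`). KU C ∈ Sig X (k+1) and its complement is in
Sig X (k+2) ⊆ Sig (join X T) (k+2) = Sig (join X T) (k+1), so the complement is `L' (pr (tabT ..) z)` with L' ∈ Sig X (k+1) = NPO C,
that is in NPPoly C (swap the pair, NPO_comp). `inf_three` for C: Sig C 3 = Sig C 4, and Sig C j = Sig X (k + j) for j ≥ 1
(induction on j). Contradiction.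
-/

namespace Pool.Agent.Lib.Pa76659T

open Pool.Agent.Lib.Pa76659 Pool.Agent.Lib.Pa76659G Pool.Agent.Lib.Pa76659G.PC

theorem join_sub {X T : Lang} (hT : Tally T) {k : ℕ} {L : Lang} (hL : L ∈ Sig (join X T) k) :
    ∃ L' ∈ Sig X k, ∃ F : Polynomial ℕ, ∀ z : Str, ∀ m, F.eval z.length < m →
      L' (pr (tabT T m) z) = L z := by
  obtain ⟨L', hL', F, h⟩ := Tr.subst (W := fun w => join X (tl (fst w)) (snd w)) (tl_fam X) k L hL
  refine ⟨L', hL', F, fun z m hz => h (tabT T m) (F.eval z.length) (fun v hv => ?_) z le_rfl⟩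
  show join X (tl (fst (pr (tabT T m) v))) (snd (pr (tabT T m) v)) = join X T v
  rw [PC.fst_pr, PC.snd_pr]
  rcases v with _ | ⟨b, v⟩
  · rfl
  · cases b
    · rfl
    · show tl (tabT T m) v = T v
      refine tl_tabT hT ?_
      simp only [List.length_cons] at hv
      omega

namespace InfAux

theorem sig_one (X : Lang) : Sig X 1 = NPO X := by
  ext L
  constructor
  · rintro ⟨B, hB, hL⟩
    exact NPO_subset hB hL
  · intro hL
    exact ⟨X, query_mem X, hL⟩

theorem KU_red {C B : Lang} (hB : B ∈ NPO C) : B ∈ PO (Unv.KU C) := by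
  obtain ⟨red, h1, h2⟩ := Unv.KU_hard hB
  exact mem_PO ((polyB_of_PO (query_mem (Unv.KU C)) (h1 (Unv.KU C))).congr (fun x _ => h2 x))

/-- iterated jumps -/
noncomputable def It (X : Lang) : ℕ → Lang
  | 0 => X
  | k + 1 => Unv.KU (It X k)

theorem npo_It (X : Lang) : ∀ k : ℕ, Sig X (k + 1) = NPO (It X k)
  | 0 => sig_one X
  | k + 1 => by
      ext L
      constructor
      · rintro ⟨B, hB, hL⟩
        rw [npo_It X k] at hB
        exact NPO_subset (KU_red hB) hL
      · intro hL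
        refine ⟨Unv.KU (It X k), ?_, hL⟩
        rw [npo_It X k]
        exact Unv.KU_mem _

theorem sig_It (X : Lang) (k : ℕ) : ∀ j : ℕ, Sig (It X k) (j + 1) = Sig X (k + (j + 1))
  | 0 => by rw [sig_one, ← npo_It]
  | j + 1 => sig_congr (sig_It X k j)

theorem co_mem {C : Lang} : (fun z => !(Unv.KU C z)) ∈ NPO (Unv.KU C) := by
  refine PO_subset_NPO _ (mem_PO ?_)
  have hx : PolyC (fun _ : Str => Unv.KU C) (fun _ => True) [fun x => x] (fun x => x) :=
    PolyC.var (by simp)
  exact (PolyB.qry hx).not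

end InfAux

open InfAux

theorem tally_inf {X T : Lang} (hT : Tally T) (hPH : ∀ k, Sig X k ≠ Sig X (k + 1)) :
    ∀ k, Sig (join X T) k ≠ Sig (join X T) (k + 1) := by
  intro k h
  have h1 : Sig (join X T) (k + 1) = Sig (join X T) (k + 2) := sig_congr h
  have h2 : (fun z => !(Unv.KU (It X k) z)) ∈ Sig X (k + 2) := by
    refine ⟨Unv.KU (It X k), ?_, co_mem⟩
    rw [npo_It]
    exact Unv.KU_mem _
  have h3 : (fun z => !(Unv.KU (It X k) z)) ∈ Sig (join X T) (k + 1) := by
    rw [h1]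
    exact Sig_mono (left_PO X T) (k + 2) h2
  obtain ⟨L', hL', F, h4⟩ := join_sub hT h3
  rw [npo_It] at hL'
  have h5 : (fun z => !(Unv.KU (It X k) z)) ∈ NPPoly (It X k) := by
    refine ⟨fun w => L' (pr (snd w) (fst w)), NPO_comp hL' (PolyC.pr ?_ ?_),
      fun n => tabT T (F.eval n + 1), F + 1, fun n => ?_, fun x => ?_⟩
    · exact PolyC.snd (PolyC.var (by simp))
    · exact PolyC.fst (PolyC.var (by simp))
    · rw [tabT_length]
      simp
    · show _ = L' (pr (snd (pr x _)) (fst (pr x _)))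
      rw [PC.fst_pr, PC.snd_pr, h4 x _ (Nat.lt_succ_self _)]
  have h6 := inf_three h5
  rw [sig_It X k 2, sig_It X k 3] at h6
  exact hPH (k + 3) h6

end Pool.Agent.Lib.Pa76659T
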