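import Pool.Agent.Lib.Pa76659G.Pair

set_option autoImplicit false

/-!
Filters, and the isolation lemma of Mulmuley, Vazirani and Vazirani: a few filters isolate an element
in each of exponentially many nonempty sets.
-/

namespace Pool.Agent.Lib.Pa76659T

open Pool.Agent.Lib.Pa76659 Pool.Agent.Lib.Pa76659G PC

/-! ### The filters -/

/-- the weights (in unary) of the positions of `u` with bit `1` -/
def wtS (v u : Str) : Str := (List.range u.length).flatMap (fun i =>
  if u.getD i false then nth v i else [])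

/-- the filter `w`: it prescribes the length and the weight of `u` -/
def flt (w u : Str) : Bool :=
  decide (u.length = (fst w).length) && decide ((wtS (snd (snd w)) u).length = (fst (snd w)).length)

theorem wtS_poly {α : Type*} {orc : α → Lang} {D : α → Prop} {ctx : List (α → Str)}
    {s t : α → Str} (hs : PolyC orc D ctx s) (ht : PolyC orc D ctx t) :
    PolyC orc D ctx (fun a => wtS (s a) (t a)) := by
  unfold wtS
  refine PolyC.flatMap_range (t := fun p : α × ℕ =>
    if (t p.1).getD p.2 false then nth (s p.1) p.2 else []) (PolyN.length ht) ?_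
  have hk : PolyN (fun p : α × ℕ => orc p.1) (fun p => D p.1 ∧ p.2 < (t p.1).length)
      (PC.lift ctx ++ [fun p => una p.2]) (fun p => p.2) := PolyC.var (by simp)
  have h1 : PolyC (fun p : α × ℕ => orc p.1) (fun p => D p.1 ∧ p.2 < (t p.1).length)
      (PC.lift ctx ++ [fun p => una p.2]) (fun p => t p.1) :=
    (ht.lift (D' := fun p : α × ℕ => D p.1 ∧ p.2 < (t p.1).length) (fun p hp => hp.1)).weakenRight _
  have h2 : PolyC (fun p : α × ℕ => orc p.1) (fun p => D p.1 ∧ p.2 < (t p.1).length)
      (PC.lift ctx ++ [fun p => una p.2]) (fun p => s p.1) :=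
    (hs.lift (D' := fun p : α × ℕ => D p.1 ∧ p.2 < (t p.1).length) (fun p hp => hp.1)).weakenRight _
  exact PolyC.ite (PolyB.getD h1 hk) ((PolyC.nth h2 hk).mono fun _ h => h.1) PolyC.nil

theorem flt_poly {α : Type*} {orc : α → Lang} {D : α → Prop} {ctx : List (α → Str)}
    {s t : α → Str} (hs : PolyC orc D ctx s) (ht : PolyC orc D ctx t) :
    PolyB orc D ctx (fun a => flt (s a) (t a)) :=
  (PolyB.natEq (PolyN.length ht) (PolyN.length (PolyC.fst hs))).and
    (PolyB.natEq (PolyN.length (wtS_poly (PolyC.snd (PolyC.snd hs)) ht))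
      (PolyN.length (PolyC.fst (PolyC.snd hs))))

/-- a filter -/
def mkf {n N : ℕ} (w : Fin n → Fin N) (l W : ℕ) : Str :=
  pr (una l) (pr (una W) (lenc (List.ofFn (fun i => una (w i).val))))

/-- the set of the positions with bit `1` -/
def spt (n : ℕ) (u : Str) : Finset (Fin n) := Finset.univ.filter (fun i => u.getD i false = true)

/-- the weight of a set -/
def wts {n N : ℕ} (w : Fin n → Fin N) (s : Finset (Fin n)) : ℕ := ∑ i ∈ s, (w i).val

theorem wtS_length {n N : ℕ} (w : Fin n → Fin N) {u : Str} (hu : u.length ≤ n) :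
    (wtS (lenc (List.ofFn (fun i => una (w i).val))) u).length = wts w (spt n u) := by
  have h1 : ∀ k : ℕ, ((List.range k).flatMap (fun i =>
      if u.getD i false then nth (lenc (List.ofFn (fun i => una (w i).val))) i else [])).length =
      ∑ i ∈ Finset.range k, (if u.getD i false then
        (nth (lenc (List.ofFn (fun i => una (w i).val))) i).length else 0) := by
    intro k
    induction k with
    | zero => simp
    | succ k ih =>
      rw [List.range_succ, List.flatMap_append, List.length_append, ih, Finset.sum_range_succ]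
      simp only [List.flatMap_cons, List.flatMap_nil, List.append_nil]
      split_ifs <;> simp
  unfold wtS
  rw [h1]
  have h2 : ∑ i ∈ Finset.range u.length, (if u.getD i false then
        (nth (lenc (List.ofFn (fun i => una (w i).val))) i).length else 0) =
      ∑ i ∈ Finset.range n, (if u.getD i false then
        (nth (lenc (List.ofFn (fun i => una (w i).val))) i).length else 0) := by
    refine Finset.sum_subset (Finset.range_subset_range.2 hu) (fun i _ hi => ?_)
    rw [Finset.mem_range, not_lt] at hi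
    rw [List.getD_eq_default _ _ hi]
    simp
  rw [h2, Finset.sum_range]
  unfold wts spt
  rw [Finset.sum_filter]
  refine Finset.sum_congr rfl (fun i _ => ?_)
  have e : (List.ofFn (fun i => una (w i).val)).getD i.val [] = una (w i).val := by
    rw [List.getD_eq_getElem (List.ofFn (fun i => una (w i).val)) [] (by simp), List.getElem_ofFn]
  rw [nth_lenc, e, PC.un_length]

theorem flt_mkf {n N : ℕ} (w : Fin n → Fin N) (l W : ℕ) {u : Str} (hu : u.length ≤ n) :
    flt (mkf w l W) u = true ↔ u.length = l ∧ wts w (spt n u) = W := by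
  unfold flt mkf
  rw [fst_pr, snd_pr, fst_pr, snd_pr, wtS_length w hu, PC.un_length, PC.un_length,
    Bool.and_eq_true, decide_eq_true_eq, decide_eq_true_eq]

theorem spt_inj {n : ℕ} {u v : Str} (hu : u.length ≤ n) (h : u.length = v.length)
    (he : spt n u = spt n v) : u = v := by
  refine List.ext_getElem h (fun i h1 h2 => ?_)
  have h3 := Finset.ext_iff.1 he ⟨i, by omega⟩
  unfold spt at h3
  simp only [Finset.mem_filter, Finset.mem_univ, true_and, List.getD_eq_getElem _ _ h1,
    List.getD_eq_getElem _ _ h2] at h3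
  exact Bool.eq_iff_iff.2 h3

theorem mkf_length {n N : ℕ} (w : Fin n → Fin N) (l W : ℕ) :
    (mkf w l W).length ≤ 2 * l + 1 + (2 * W + 1 + (2 * (n * N) + n)) := by
  unfold mkf
  rw [pr_length, pr_length, lenc_length, PC.un_length, PC.un_length, List.length_ofFn]
  have h : total (List.ofFn (fun i => una (w i).val)) ≤ n * N := by
    unfold total
    rw [List.map_ofFn, List.sum_ofFn]
    calc ∑ i : Fin n, (List.length ∘ fun i => una (w i).val) i ≤ ∑ _i : Fin n, N :=
          Finset.sum_le_sum (fun i _ => by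
            show (una (w i).val).length ≤ N
            rw [PC.un_length]
            exact (w i).isLt.le)
      _ = n * N := by simp
  omega

theorem wts_le {n N : ℕ} (w : Fin n → Fin N) (s : Finset (Fin n)) : wts w s ≤ n * N := by
  unfold wts
  calc ∑ i ∈ s, (w i).val ≤ ∑ _i ∈ s, N := Finset.sum_le_sum (fun i _ => (w i).isLt.le)
    _ = s.card * N := by simp
    _ ≤ n * N := Nat.mul_le_mul_right _ (by
        have := Finset.card_le_univ s
        simpa using this)

/-! ### The isolation lemma -/

/-- the two members `s ∌ i`, `t ∋ i` of `S` have the least weight -/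
def Bad {n N : ℕ} (S : Finset (Finset (Fin n))) (i : Fin n) (w : Fin n → Fin N) : Prop :=
  ∃ s ∈ S, ∃ t ∈ S, i ∈ s ∧ i ∉ t ∧ wts w s = wts w t ∧ ∀ r ∈ S, wts w s ≤ wts w r

theorem wts_off {n N : ℕ} {w w' : Fin n → Fin N} {i : Fin n} (h : ∀ j, j ≠ i → w j = w' j)
    {t : Finset (Fin n)} (ht : i ∉ t) : wts w t = wts w' t :=
  Finset.sum_congr rfl (fun j hj => by rw [h j (fun e => ht (e ▸ hj))])

theorem wts_on {n N : ℕ} {w w' : Fin n → Fin N} {i : Fin n} (h : ∀ j, j ≠ i → w j = w' j)
    {s : Finset (Fin n)} (hs : i ∈ s) : wts w s + (w' i).val = wts w' s + (w i).val := by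
  unfold wts
  rw [← Finset.add_sum_erase _ _ hs, ← Finset.add_sum_erase s (fun i => (w' i).val) hs]
  have h1 : ∑ j ∈ s.erase i, (w j).val = ∑ j ∈ s.erase i, (w' j).val :=
    Finset.sum_congr rfl (fun j hj => by rw [h j (Finset.ne_of_mem_erase hj)])
  rw [h1]
  omega

theorem bad_lt {n N : ℕ} {S : Finset (Finset (Fin n))} {i : Fin n} {w w' : Fin n → Fin N}
    (h : ∀ j, j ≠ i → w j = w' j) (h1 : Bad S i w) (h2 : Bad S i w') :
    ¬ (w i).val < (w' i).val := by
  intro hlt
  obtain ⟨s, hs, t, ht, his, hit, e1, m1⟩ := h1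
  obtain ⟨s', hs', t', ht', his', hit', e2, m2⟩ := h2
  have a1 := wts_off h hit
  have a2 := wts_on h his'
  have a3 := m2 t ht
  have a4 := m1 s' hs'
  omega

theorem bad_eq {n N : ℕ} {S : Finset (Finset (Fin n))} {i : Fin n} {w w' : Fin n → Fin N}
    (h : ∀ j, j ≠ i → w j = w' j) (h1 : Bad S i w) (h2 : Bad S i w') : w = w' := by
  funext j
  by_cases hj : j = i
  · subst hj
    have a1 := bad_lt h h1 h2
    have a2 := bad_lt (fun j hj => (h j hj).symm) h2 h1
    exact Fin.ext (by omega)
  · exact h j hj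

open Classical in
theorem bad_card {n N : ℕ} (S : Finset (Finset (Fin n))) (i : Fin n) :
    (Finset.univ.filter (fun w : Fin n → Fin N => Bad S i w)).card * N ≤ N ^ n := by
  have h1 : ((Finset.univ.filter (fun w : Fin n → Fin N => Bad S i w)) ×ˢ
      (Finset.univ : Finset (Fin N))).card ≤ (Finset.univ : Finset (Fin n → Fin N)).card := by
    refine Finset.card_le_card_of_injOn (fun z => Function.update z.1 i z.2)
      (fun _ _ => Finset.mem_coe.2 (Finset.mem_univ _)) ?_
    rintro ⟨w, a⟩ hw ⟨w', a'⟩ hw' he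
    simp only [Finset.coe_product, Set.mem_prod, Finset.mem_coe, Finset.mem_filter,
      Finset.mem_univ, true_and, and_true] at hw hw'
    have he' : Function.update w i a = Function.update w' i a' := he
    have e1 : a = a' := by
      have := congrFun he' i
      simpa using this
    have e2 : w = w' := bad_eq (fun j hj => by
      have := congrFun he' j
      simpa [Function.update_of_ne hj] using this) hw hw'
    rw [e1, e2]
  rw [Finset.card_product] at h1
  simpa using h1

theorem isol {n N : ℕ} {S : Finset (Finset (Fin n))} (hS : S.Nonempty) {w : Fin n → Fin N}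
    (hw : ∀ i, ¬ Bad S i w) : ∃ W, W ≤ n * N ∧ ∃! s, s ∈ S ∧ wts w s = W := by
  obtain ⟨s, hs, hm⟩ := Finset.exists_min_image S (wts w) hS
  refine ⟨wts w s, wts_le w s, s, ⟨hs, rfl⟩, ?_⟩
  rintro t ⟨ht, e⟩
  by_contra hne
  have : ∃ i, ¬ (i ∈ t ↔ i ∈ s) := by
    by_contra h
    push Not at h
    exact hne (Finset.ext h)
  obtain ⟨i, hi⟩ := this
  by_cases h1 : i ∈ s
  · have h2 : i ∉ t := fun h => hi ⟨fun _ => h1, fun _ => h⟩
    exact hw i ⟨s, hs, t, ht, h1, h2, e.symm, hm⟩
  · have h2 : i ∈ t := by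
      by_contra h
      exact hi ⟨fun h' => absurd h' h, fun h' => absurd h' h1⟩
    exact hw i ⟨t, ht, s, hs, h2, h1, e, fun r hr => e ▸ hm r hr⟩

open Classical in
/-- at least half of the weights are good -/
theorem good_half {n : ℕ} {S : Finset (Finset (Fin n))} (hS : S.Nonempty) :
    Fintype.card (Fin n → Fin (2 * n + 2)) ≤ 2 * (Finset.univ.filter
      (fun w : Fin n → Fin (2 * n + 2) =>
        ∃ W, W ≤ n * (2 * n + 2) ∧ ∃! s, s ∈ S ∧ wts w s = W)).card := by
  set N := 2 * n + 2 with hN
  have h1 : (Finset.univ.filter (fun w : Fin n → Fin N => ¬ ∃ W, W ≤ n * N ∧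
      ∃! s, s ∈ S ∧ wts w s = W)) ⊆
      Finset.univ.biUnion (fun i => Finset.univ.filter (fun w : Fin n → Fin N => Bad S i w)) := by
    intro w hw
    rw [Finset.mem_filter] at hw
    rw [Finset.mem_biUnion]
    by_contra h
    refine hw.2 (isol hS (fun i hi => h ⟨i, Finset.mem_univ _, ?_⟩))
    rw [Finset.mem_filter]
    exact ⟨Finset.mem_univ _, hi⟩
  have h2 := (Finset.card_le_card h1).trans Finset.card_biUnion_le
  have h3 : (∑ i : Fin n, (Finset.univ.filter (fun w : Fin n → Fin N => Bad S i w)).card) * N ≤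
      n * N ^ n := by
    rw [Finset.sum_mul]
    calc _ ≤ ∑ _i : Fin n, N ^ n := Finset.sum_le_sum (fun i _ => bad_card S i)
      _ = n * N ^ n := by simp
  have h4 := Finset.card_filter_add_card_filter_not (s := (Finset.univ : Finset (Fin n → Fin N)))
    (fun w : Fin n → Fin N => ∃ W, W ≤ n * N ∧ ∃! s, s ∈ S ∧ wts w s = W)
  have h5 : (Finset.univ : Finset (Fin n → Fin N)).card = N ^ n := by simp
  have h6 : Fintype.card (Fin n → Fin N) = N ^ n := by simp
  rw [h6]
  rw [h5] at h4
  set g := (Finset.univ.filter (fun w : Fin n → Fin N => ∃ W, W ≤ n * N ∧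
    ∃! s, s ∈ S ∧ wts w s = W)).card
  set b := (Finset.univ.filter (fun w : Fin n → Fin N => ¬ ∃ W, W ≤ n * N ∧
    ∃! s, s ∈ S ∧ wts w s = W)).card
  have h7 : b * N ≤ n * N ^ n := (Nat.mul_le_mul_right _ h2).trans h3
  have h8 : b * 2 ≤ N ^ n := by
    by_contra h
    push Not at h
    have h9 : (n + 1) * N ^ n < (n + 1) * (b * 2) := Nat.mul_lt_mul_of_pos_left h (by omega)
    have h10 : (n + 1) * (b * 2) = b * N := by rw [hN]; ring
    have h11 : n * N ^ n ≤ (n + 1) * N ^ n := Nat.mul_le_mul_right _ (by omega)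
    omega
  omega

/-! ### Covering -/

open Classical in
theorem cover {Ω A : Type*} [Fintype Ω] [Nonempty Ω] (G : Ω → A → Prop) : ∀ (k : ℕ) (X : Finset A),
    X.card < 2 ^ k → (∀ x ∈ X, Fintype.card Ω ≤ 2 * (Finset.univ.filter (fun w => G w x)).card) →
      ∃ ws : List Ω, ws.length ≤ k ∧ ∀ x ∈ X, ∃ w ∈ ws, G w x
  | 0, X, hX, _ => ⟨[], le_rfl, fun x hx => by
      have : 0 < X.card := Finset.card_pos.2 ⟨x, hx⟩
      omega⟩
  | k + 1, X, hX, h => by
      have h1 : ∃ w : Ω, X.card ≤ 2 * (X.filter (fun x => G w x)).card := by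
        by_contra hc
        push Not at hc
        have h2 : ∑ w : Ω, 2 * (X.filter (fun x => G w x)).card < ∑ _w : Ω, X.card :=
          Finset.sum_lt_sum_of_nonempty Finset.univ_nonempty (fun w _ => hc w)
        have h3 : ∑ w : Ω, (X.filter (fun x => G w x)).card =
            ∑ x ∈ X, (Finset.univ.filter (fun w => G w x)).card := by
          simp only [Finset.card_filter]
          exact Finset.sum_comm
        have h4 : ∑ _x ∈ X, Fintype.card Ω ≤
            ∑ x ∈ X, 2 * (Finset.univ.filter (fun w => G w x)).card := Finset.sum_le_sum h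
        rw [← Finset.mul_sum, h3, Finset.mul_sum] at h2
        simp only [Finset.sum_const, smul_eq_mul, Finset.card_univ] at h2 h4
        rw [mul_comm] at h2
        omega
      obtain ⟨w, hw⟩ := h1
      have h2 := Finset.card_filter_add_card_filter_not (s := X) (fun x => G w x)
      obtain ⟨ws, h3, h4⟩ := cover G k (X.filter (fun x => ¬ G w x)) (by
        rw [pow_succ] at hX
        omega) (fun x hx => h x (Finset.mem_filter.1 hx).1)
      refine ⟨w :: ws, by simp only [List.length_cons]; omega, fun x hx => ?_⟩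
      by_cases hg : G w x
      · exact ⟨w, List.mem_cons_self, hg⟩
      · obtain ⟨w', h5, h6⟩ := h4 x (Finset.mem_filter.2 ⟨hx, hg⟩)
        exact ⟨w', List.mem_cons_of_mem _ h5, h6⟩

open Classical in
theorem strs (n : ℕ) : ∃ X : Finset Str, X.card < 2 ^ (n + 1) ∧ ∀ x : Str, x.length ≤ n → x ∈ X := by
  refine ⟨(Finset.range (n + 1)).biUnion (fun l =>
    (Finset.univ : Finset (Fin l → Bool)).image List.ofFn), ?_, fun x hx => ?_⟩
  · refine lt_of_le_of_lt Finset.card_biUnion_le ?_
    calc _ ≤ ∑ l ∈ Finset.range (n + 1), 2 ^ l := Finset.sum_le_sum (fun l _ => by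
            refine Finset.card_image_le.trans ?_
            simp)
      _ < 2 ^ (n + 1) := by
            have := Nat.geomSum_lt (m := 2) (n := n + 1) (s := Finset.range (n + 1)) le_rfl
              (fun k hk => Finset.mem_range.1 hk)
            exact this
  · rw [Finset.mem_biUnion]
    refine ⟨x.length, Finset.mem_range.2 (by omega), Finset.mem_image.2 ⟨fun i => x.get i,
      Finset.mem_univ _, ?_⟩⟩
    exact List.ofFn_get x

/-- The isolation lemma: `ws` is a list of filters, of polynomial size. -/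
theorem isolate : ∃ P : Polynomial ℕ, ∀ (n : ℕ) (S : Str → Str → Prop),
    (∀ x u, S x u → u.length ≤ x.length) → ∃ ws : List Str, ws.length ≤ P.eval n ∧
      (∀ w ∈ ws, w.length ≤ P.eval n) ∧
      ∀ x : Str, x.length ≤ n → (∃ u, S x u) → ∃ w ∈ ws, ∃! u, S x u ∧ flt w u = true := by
  classical
  set Q : Polynomial ℕ := (Polynomial.X + 1) * ((Polynomial.X + 1) *
    (Polynomial.X * (2 * Polynomial.X + 2) + 1)) with hQ
  set Q' : Polynomial ℕ := 2 * Polynomial.X + 1 + (2 * (Polynomial.X * (2 * Polynomial.X + 2)) + 1 +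
    (2 * (Polynomial.X * (2 * Polynomial.X + 2)) + Polynomial.X)) with hQ'
  have eQ : ∀ n, Q.eval n = (n + 1) * ((n + 1) * (n * (2 * n + 2) + 1)) := by
    intro n
    simp [hQ]
  have eQ' : ∀ n, Q'.eval n = 2 * n + 1 + (2 * (n * (2 * n + 2)) + 1 +
    (2 * (n * (2 * n + 2)) + n)) := by
    intro n
    simp [hQ']
  refine ⟨Q + Q', fun n S hS => ?_⟩
  set N := 2 * n + 2 with hN
  -- the good weights
  set G : (Fin n → Fin N) → Str → Prop := fun w x =>
    ∃ l ≤ n, ∃ W ≤ n * N, ∃! u, S x u ∧ flt (mkf w l W) u = true with hG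
  obtain ⟨X, hX, hX'⟩ := strs n
  set Y := X.filter (fun x => x.length ≤ n ∧ ∃ u, S x u) with hY
  have h1 : ∀ x ∈ Y, Fintype.card (Fin n → Fin N) ≤
      2 * (Finset.univ.filter (fun w => G w x)).card := by
    intro x hx
    rw [hY, Finset.mem_filter] at hx
    obtain ⟨-, hx, u0, hu0⟩ := hx
    set l := u0.length with hl
    have hln : l ≤ n := (hS x u0 hu0).trans hx
    set T : Finset (Finset (Fin n)) := Finset.univ.filter
      (fun s => ∃ u, S x u ∧ u.length = l ∧ spt n u = s) with hT
    have hTn : T.Nonempty := ⟨spt n u0, by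
      rw [hT, Finset.mem_filter]
      exact ⟨Finset.mem_univ _, u0, hu0, rfl, rfl⟩⟩
    refine (good_half hTn).trans (Nat.mul_le_mul_left _ (Finset.card_le_card ?_))
    intro w hw
    rw [Finset.mem_filter] at hw ⊢
    obtain ⟨-, W, hW, s, ⟨hs, hsW⟩, huniq⟩ := hw
    refine ⟨Finset.mem_univ _, l, hln, W, hW, ?_⟩
    rw [hT, Finset.mem_filter] at hs
    obtain ⟨-, u, hu, hul, hus⟩ := hs
    refine ⟨u, ⟨hu, (flt_mkf w l W (by omega)).2 ⟨hul, by rw [hus]; exact hsW⟩⟩, ?_⟩
    rintro v ⟨hv, hf⟩
    have hvn : v.length ≤ n := (hS x v hv).trans hx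
    obtain ⟨h3, h4⟩ := (flt_mkf w l W hvn).1 hf
    have h5 := huniq (spt n v) ⟨by
      rw [hT, Finset.mem_filter]
      exact ⟨Finset.mem_univ _, v, hv, h3, rfl⟩, h4⟩
    exact spt_inj hvn (by omega) (h5.trans hus.symm)
  obtain ⟨ws, h2, h3⟩ := cover G (n + 1) Y
    (lt_of_le_of_lt (Finset.card_le_card (Finset.filter_subset _ _)) hX)
    (fun x hx => by convert h1 x hx)
  refine ⟨ws.flatMap (fun w => (List.range (n + 1)).flatMap (fun l =>
    (List.range (n * N + 1)).map (fun W => mkf w l W))), ?_, ?_, ?_⟩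
  · have h4 : ∀ w : Fin n → Fin N, ((List.range (n + 1)).flatMap (fun l =>
        (List.range (n * N + 1)).map (fun W => mkf w l W))).length =
        (n + 1) * (n * N + 1) := by
      intro w
      rw [List.length_flatMap]
      simp
    rw [List.length_flatMap]
    simp only [h4]
    rw [List.map_const', List.sum_replicate, smul_eq_mul, Polynomial.eval_add, eQ]
    exact le_add_right (Nat.mul_le_mul_right _ h2)
  · intro z hz
    simp only [List.mem_flatMap, List.mem_map, List.mem_range] at hz
    obtain ⟨w, -, l, hl, W, hW, rfl⟩ := hz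
    refine (mkf_length w l W).trans ?_
    rw [Polynomial.eval_add, eQ', ← hN]
    omega
  · intro x hx hu
    obtain ⟨w, hw, l, hl, W, hW, h5⟩ := h3 x (by
      rw [hY, Finset.mem_filter]
      exact ⟨hX' x hx, hx, hu⟩)
    refine ⟨mkf w l W, ?_, h5⟩
    simp only [List.mem_flatMap, List.mem_map, List.mem_range]
    exact ⟨w, hw, l, by omega, W, by omega, rfl⟩

end Pool.Agent.Lib.Pa76659T
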